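import Pool.Agent.H483.ZP.Dat2
import Pool.Agent.H616.SP.Dat

set_option autoImplicit false

/-!
# The analytic data together with the energy bound
-/

namespace Pool.Agent.H616.SP.Q

open Filter Topology Set
open Pool.Agent.H483.FE Pool.Agent.Q240.KS Pool.Agent.H483.SA

/-- existence of the data for all large `Q` -/
theorem data3 {α E θ : ℝ} (hα : 0 < α) (hα5 : α ≤ 1 / 5) (hE : 0 ≤ E) (hθ1 : θ < 1) (hθ0 : 1 / 2 ≤ θ) (hθ : θ ≤ 1 - 2 * α)
    (hPI : PI θ) :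
    ∃ y0 K Q₀ : ℝ, y0 ≤ 0 ∧ 0 < K ∧ 1 ≤ Q₀ ∧ ∀ Q : ℝ, Q₀ ≤ Q → ∀ γ : ℂ → ℂ,
      (∀ h, Good γ h → ∃ f', Cls α E (dv h) f') → Dt2 γ α y0 K Q ∧ Pool.Agent.H483.ZP.En2 γ α y0 K Q := by
  have hα2 : α < 1 / 2 := by linarith
  have hα4 : α ≤ 1 / 4 := by linarith
  obtain ⟨δ, y0, C, hδ, hδ1, hy0, hC, hlow⟩ := lower hα hα2 hE
  obtain ⟨c, Q₁, hc, hQ₁, hPW⟩ := PP_weight (y0 := y0) hα hδ hδ1 hθ1 hθ hPI
  obtain ⟨B₀, hB2, hB⟩ := bt
  obtain ⟨Q₂, hQ₂, hCW⟩ := comp_window (y0 := y0) hα hα4 hδ hδ1 hB2 hB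
  obtain ⟨Q₃, hQ₃, hWS⟩ := window_size (y0 := y0) hα hδ hδ1 (θ := 3 / 5) (by norm_num) (by linarith) (B₀ ^ 4)
  obtain ⟨C₀, hC₁, hC₀⟩ := log_bd
  obtain ⟨Cp, hCp0, hCp⟩ := ppow_sum_gt (κ := 51 / 100) (κ' := 11 / 20) (k0 := 2) (by norm_num) (by norm_num)
    (by norm_num) (by norm_num)
  obtain ⟨Cr, hCr, hr⟩ := point_right (y0 := y0) hα hα2 hδ (by linarith) hy0
  obtain ⟨Cl, hCl, hl⟩ := point_left (y0 := y0) hα hα2 hδ (by linarith) hy0
  set K₁ := (1 + E) * (C / c) with hK₁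
  have hK₁0 : 0 < K₁ := by positivity
  -- the threshold for `τ`
  set C₄ := (Cp + 1) * Real.exp y0 ^ (-(2 / 25 : ℝ)) with hC₄
  have hC₄0 : 0 < C₄ := by positivity
  have hτlim : ∀ᶠ Q : ℝ in atTop, C₄ * Q ^ (-(2 / 25 : ℝ)) ≤ 1 := by
    have h1 : Tendsto (fun Q : ℝ => C₄ * Q ^ (-(2 / 25 : ℝ))) atTop (𝓝 (C₄ * 0)) :=
      (tendsto_rpow_neg_atTop (by norm_num)).const_mul _
    rw [mul_zero] at h1
    exact h1.eventually_le_const one_pos
  obtain ⟨Q₄, hQ₄⟩ := eventually_atTop.1 (hτlim.and ((eventually_ge_atTop (Real.exp (-y0))).and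
    (eventually_ge_atTop (Real.exp (-(2 * y0))))))
  refine ⟨y0, K₁ * (Cr + Cl + 8000000 + 40000 * C₀ * C₄ + 120 * C₀), max (max Q₁ Q₂) (max Q₃ Q₄), hy0, by positivity,
    (hQ₁.trans (le_max_left _ _)).trans (le_max_left _ _), fun Q hQ γ hcls => ?_⟩
  have hQa : Q₁ ≤ Q := ((le_max_left _ _).trans (le_max_left _ _)).trans hQ
  have hQb : Q₂ ≤ Q := ((le_max_right _ _).trans (le_max_left _ _)).trans hQ
  have hQc : Q₃ ≤ Q := ((le_max_left _ _).trans (le_max_right _ _)).trans hQ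
  have hQd : Q₄ ≤ Q := ((le_max_right _ _).trans (le_max_right _ _)).trans hQ
  obtain ⟨hτ1', hQe, hQe2⟩ := hQ₄ Q hQd
  have hQ1 : 1 ≤ Q := hQ₁.trans hQa
  have hQ0 : 0 < Q := by linarith
  have hY1 : 1 ≤ Q * Real.exp y0 := by
    calc (1:ℝ) = Real.exp (-y0) * Real.exp y0 := by rw [← Real.exp_add]; simp
      _ ≤ _ := by gcongr
  have hLy : -(2 * y0) ≤ Real.log Q := (Real.le_log_iff_exp_le hQ0).2 hQe2
  set Y := Q * Real.exp y0 with hY
  set τ := C₄ * Q ^ (-(2 / 25 : ℝ)) with hτdef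
  have hτ : ∀ S : Finset ℕ, ∑ q ∈ S, xv Y q ≤ τ := by
    intro S
    classical
    have h1 := hCp Y hY1 (S.filter fun q => PK 2 q ∧ Y < q.minFac) (fun q hq => (Finset.mem_filter.1 hq).2)
    have h2 : ∑ q ∈ S, xv Y q = ∑ q ∈ S with PK 2 q ∧ Y < q.minFac, (q : ℝ) ^ (-(11 / 20 : ℝ)) := by
      rw [Finset.sum_filter]
      apply Finset.sum_congr rfl
      intro q _
      unfold xv
      split_ifs <;> rfl
    rw [h2]
    refine h1.trans ?_
    have e1 : Y ^ (-((11 / 20 - 51 / 100 : ℝ) * (2 : ℕ))) = Real.exp y0 ^ (-(2 / 25 : ℝ)) * Q ^ (-(2 / 25 : ℝ)) := by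
      rw [hY, Real.mul_rpow hQ0.le (Real.exp_pos _).le]
      norm_num
      ring
    rw [e1, hτdef, hC₄]
    have h5 : 0 ≤ Real.exp y0 ^ (-(2 / 25 : ℝ)) * Q ^ (-(2 / 25 : ℝ)) := by positivity
    nlinarith
  have hsumm : ∀ h, Good γ h → Summable fun n => ww α y0 Q n * ‖dv h (zz Q n)‖ ^ 2 := by
    intro h hg
    obtain ⟨f', hf⟩ := hcls h hg
    exact summ_ww hα hα2 hQ1 hf.dec
  have hAD : ∀ h f', Good γ h → Cls α E (dv h) f' →
      ((∫ y, Real.exp (2 * (1 / 2 + α) * y) * ‖dv h y‖ ^ 2) +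
        ∫ y, Real.exp (2 * (1 / 2 - α) * y) * ‖f' y‖ ^ 2) ≤ K₁ * SS α y0 Q h := by
    intro h f' hg hf
    have h1 := hlow (dv h) f' hf (ww α y0 Q) (zz Q) c (PP α δ y0 Q) hc (ww_nonneg hQ0)
      (fun k p hp => Ioc_subset_Icc_self ((mem_PP hQ0 k p).1 hp).2) (fun k l hkl => PP_disj hδ hQ0 k l hkl)
      (fun k => hPW Q hQa k) (hsumm h hg)
    have h2 := hf.en
    have h3 : (∫ y, Real.exp (2 * (1 / 2 + α) * y) * ‖dv h y‖ ^ 2) ≤ C / c * SS α y0 Q h := h1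
    calc _ ≤ (1 + E) * ∫ y, Real.exp (2 * (1 / 2 + α) * y) * ‖dv h y‖ ^ 2 := by linarith
      _ ≤ (1 + E) * (C / c * SS α y0 Q h) := by gcongr
      _ = _ := by rw [hK₁]; ring
  have hSS0 : ∀ h, 0 ≤ SS α y0 Q h := fun h =>
    tsum_nonneg fun n => mul_nonneg (ww_nonneg hQ0 n) (by positivity)
  have hKnn : 0 ≤ 40000 * C₀ * C₄ := by positivity
  have hKnn2 : 0 ≤ 120 * C₀ := by positivity
  -- windows
  have hwin : ∀ k : ℕ, ∀ F : Finset ℕ, (∀ n ∈ F, 0 < n) → ∀ n ∈ F.filter (fun n => zz Q n ∈ Ioc (wy α δ y0 k) (wy α δ y0 (k + 1))),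
      Q * Real.exp (wy α δ y0 k) < n ∧
      (n : ℝ) ≤ Q * Real.exp (wy α δ y0 k) + (Q * Real.exp (wy α δ y0 (k + 1)) - Q * Real.exp (wy α δ y0 k)) := by
    intro k F hF n hn
    rw [Finset.mem_filter] at hn
    have h2 := (zz_mem hQ0 (hF n hn.1)).1 hn.2
    refine ⟨h2.1, ?_⟩
    rw [add_sub_cancel]
    exact h2.2
  refine ⟨⟨⟨hsumm, ?_, ?_, ?_⟩, ?_, ?_⟩, ?_⟩
  · intro h hg z hz
    obtain ⟨f', hf⟩ := hcls h hg
    have h1 := hl E (dv h) f' hf z hz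
    have h2 := hAD h f' hg hf
    refine h1.trans ?_
    calc _ ≤ Cl * Real.exp (-(2 * (1 / 2 - α)) * z) * (K₁ * SS α y0 Q h) := by gcongr
      _ = (K₁ * Cl) * Real.exp (-(2 * (1 / 2 - α)) * z) * SS α y0 Q h := by ring
      _ ≤ _ := by
          have := hSS0 h
          gcongr
          linarith
  · intro h hg z hz
    obtain ⟨f', hf⟩ := hcls h hg
    have h1 := hr E (dv h) f' hf z hz
    have h2 := hAD h f' hg hf
    refine h1.trans ?_
    calc _ ≤ Cr * Real.exp (-z) * (K₁ * SS α y0 Q h) := by gcongr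
      _ = (K₁ * Cr) * Real.exp (-z) * SS α y0 Q h := by ring
      _ ≤ _ := by
          have := hSS0 h
          gcongr
          linarith
  · intro h hg F hF η hη hη1 hη2
    obtain ⟨f', hf⟩ := hcls h hg
    have h2 := hAD h f' hg hf
    have h3 := upper_sum (y0 := y0) hα hα2 hδ (by linarith) hf F (zz Q)
      (fun n => (n : ℝ) ^ (2 * α) * Q ^ (-(1 + 2 * α)) * cn η Q n)
      (fun n _ => mul_nonneg (by positivity) (cn_nonneg hη.le n)) (fun n hn => (hF n hn).zz_gt hQ0)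
      (ε := 4000000 * (η * (1 + Real.log Q ^ 2) ^ 2)) (by positivity)
      (fun k => hCW Q hQb η hη hη1 hη2 F hF k)
    refine h3.trans ?_
    calc _ ≤ 2 * (4000000 * (η * (1 + Real.log Q ^ 2) ^ 2)) * (K₁ * SS α y0 Q h) := by gcongr
      _ = (K₁ * 8000000) * (η * (1 + Real.log Q ^ 2) ^ 2) * SS α y0 Q h := by ring
      _ ≤ _ := by
          have := hSS0 h
          gcongr
          linarith
  · intro h hg F hF η hη hη1 hη2
    obtain ⟨f', hf⟩ := hcls h hg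
    have h2 := hAD h f' hg hf
    have hn1 : ∀ n ∈ F, n ≠ 1 := by
      rintro n hn rfl
      obtain ⟨-, hU, -⟩ := hF 1 hn
      simp [UU, pp_one] at hU
    have h3 := upper_sum (y0 := y0) hα hα2 hδ (by linarith) hf F (zz Q)
      (fun n => (n : ℝ) ^ (2 * α) * Q ^ (-(1 + 2 * α)) * WT η Q n)
      (fun n _ => mul_nonneg (by positivity) (WT_nonneg hη.le n))
      (fun n hn => zz_gt_of hQ0 ((hF n hn).1.gt (hn1 n hn)))
      (ε := 10 * (2000 * C₀ * (η * (1 + Real.log Q ^ 2) ^ 2 * τ))) (by positivity)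
      (fun k => by
        obtain ⟨g1, g2, g3, g4, g5, g6⟩ := hWS Q hQc k
        apply win_of_count hα hα4 hδ hδ1 hQ0 k g6 (fun n _ => WT_nonneg hη.le n)
          (fun n hn => Nat.pos_of_ne_zero (hF n hn).1.1) (by positivity)
        apply count3 (Y := Y) hB2 hB hC₁ hC₀ hQ1 hη hη1 hη2 (X := Q * Real.exp (wy α δ y0 k)) g1 g3 g4 hτ hτ1'
        intro n hn
        have h4 := hwin k F (fun n hn => Nat.pos_of_ne_zero (hF n hn).1.1) n hn
        have h5 := hF n (Finset.mem_filter.1 hn).1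
        exact ⟨h5.1, h5.2.1, h5.2.2, h4.1, h4.2⟩)
    refine h3.trans ?_
    calc _ ≤ 2 * (10 * (2000 * C₀ * (η * (1 + Real.log Q ^ 2) ^ 2 * τ))) * (K₁ * SS α y0 Q h) := by gcongr
      _ = (K₁ * (40000 * C₀ * C₄)) * (η * (1 + Real.log Q ^ 2) ^ 2 * Q ^ (-(2 / 25 : ℝ))) * SS α y0 Q h := by
          rw [hτdef]; ring
      _ ≤ _ := by
          have := hSS0 h
          gcongr
          linarith
  · intro h hg F hF
    obtain ⟨f', hf⟩ := hcls h hg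
    have h2 := hAD h f' hg hf
    have h3 := upper_sum (y0 := y0) hα hα2 hδ (by linarith) hf F (zz Q)
      (fun n => (n : ℝ) ^ (2 * α) * Q ^ (-(1 + 2 * α)) * MM Q n)
      (fun n _ => mul_nonneg (by positivity) (MM_pos Q n).le)
      (fun n hn => zz_gt_of hQ0 ((hF n hn).1.gt (hF n hn).2.2))
      (ε := 10 * (6 * C₀ * τ)) (by positivity)
      (fun k => by
        obtain ⟨g1, g2, g3, g4, g5, g6⟩ := hWS Q hQc k
        apply win_of_count hα hα4 hδ hδ1 hQ0 k g6 (fun n _ => (MM_pos Q n).le)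
          (fun n hn => Nat.pos_of_ne_zero (hF n hn).1.1) (by positivity)
        have hX2 : 2 ≤ Q * Real.exp (wy α δ y0 k) := by
          have : (2:ℝ) ^ 4 ≤ B₀ ^ 4 := pow_le_pow_left₀ (by norm_num) hB2 4
          norm_num at this
          linarith
        apply count4 (Y := Y) hX2 g3 g4 hC₁ hC₀ hτ hτ1' hQ1
        intro n hn
        have h4 := hwin k F (fun n hn => Nat.pos_of_ne_zero (hF n hn).1.1) n hn
        have h5 := hF n (Finset.mem_filter.1 hn).1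
        refine ⟨h5.1, h5.2.1, h5.2.2, ?_, h4.1, h4.2⟩
        have h6 := zz_gt_of hQ0 (h5.1.gt h5.2.2)
        unfold zz at h6
        linarith)
    refine h3.trans ?_
    calc _ ≤ 2 * (10 * (6 * C₀ * 1)) * (K₁ * SS α y0 Q h) := by gcongr
      _ = (K₁ * (120 * C₀)) * SS α y0 Q h := by ring
      _ ≤ _ := by
          have := hSS0 h
          gcongr
          linarith
  · intro h hg
    obtain ⟨f', hf⟩ := hcls h hg
    have h2 := hAD h f' hg hf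
    have h3 : 0 ≤ ∫ y, Real.exp (2 * (1 / 2 - α) * y) * ‖f' y‖ ^ 2 :=
      MeasureTheory.integral_nonneg fun y => by positivity
    have h4 : K₁ * SS α y0 Q h ≤ K₁ * (Cr + Cl + 8000000 + 40000 * C₀ * C₄ + 120 * C₀) * SS α y0 Q h := by
      have := hSS0 h
      have h5 : K₁ * 1 ≤ K₁ * (Cr + Cl + 8000000 + 40000 * C₀ * C₄ + 120 * C₀) := by
        gcongr
        linarith
      calc _ = K₁ * 1 * SS α y0 Q h := by ring
        _ ≤ _ := by gcongr
    linarith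

end Pool.Agent.H616.SP.Q
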