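import Pool.Agent.H616.SP.Map

set_option autoImplicit false

/-!
# The nonlinear functional for Euler products with local factors depending on the prime
-/

namespace Pool.Agent.H616.SP.Q

open Filter Topology Set Complex
open Pool.Agent.H483.FE Pool.Agent.H483.SA
open scoped ComplexConjugate

/-- a local factor `∑ c p a k X^k` depending on the linear coefficient `a` -/
structure Loc (c : ℕ → ℂ → ℕ → ℂ) (A : ℝ) : Prop where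
  one_le : 1 ≤ A
  zero : ∀ p a, c p a 0 = 1
  one : ∀ p a, c p a 1 = a
  two : ∀ p, c p 0 2 = 0
  bd : ∀ p a, ‖a‖ ≤ 1 → ∀ k, ‖c p a k‖ ≤ A ^ k
  lip : ∀ p a b, ‖a‖ ≤ 1 → ‖b‖ ≤ 1 → ∀ k, ‖c p a k - c p b k‖ ≤ A ^ k * ‖a - b‖

/-- the coefficient at a prime power -/
noncomputable def rho (c : ℕ → ℂ → ℕ → ℂ) (Q y0 : ℝ) (a : ℕ → ℂ) (q : ℕ) : ℂ :=
  open Classical in if PK 1 q ∧ Big Q y0 q.minFac then c q.minFac (a q.minFac) (ex q) else 0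

/-- the multiplicative coefficients -/
noncomputable def mf (c : ℕ → ℂ → ℕ → ℂ) (Q y0 : ℝ) (a : ℕ → ℂ) (n : ℕ) : ℂ :=
  if n = 0 then 0 else ∏ q ∈ pp n, rho c Q y0 a q

lemma mf_zero (c : ℕ → ℂ → ℕ → ℂ) (Q y0 : ℝ) (a : ℕ → ℂ) : mf c Q y0 a 0 = 0 := by
  unfold mf; rw [if_pos rfl]

lemma mf_one (c : ℕ → ℂ → ℕ → ℂ) (Q y0 : ℝ) (a : ℕ → ℂ) : mf c Q y0 a 1 = 1 := by
  unfold mf; rw [if_neg one_ne_zero, pp_one]; simp

lemma mf_ne {c : ℕ → ℂ → ℕ → ℂ} {Q y0 : ℝ} {a : ℕ → ℂ} {n : ℕ} (hn : n ≠ 0) :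
    mf c Q y0 a n = ∏ q ∈ pp n, rho c Q y0 a q := by
  unfold mf; rw [if_neg hn]

lemma mf_not_Rg {c : ℕ → ℂ → ℕ → ℂ} {Q y0 : ℝ} {a : ℕ → ℂ} {n : ℕ} (hn : ¬ Rg (Q * Real.exp y0) n) :
    mf c Q y0 a n = 0 := by
  by_cases h0 : n = 0
  · rw [h0, mf_zero]
  · rw [mf_ne h0]
    have h1 : ∃ q ∈ pp n, ¬ (Q * Real.exp y0 < q.minFac) := by
      by_contra hcon
      push Not at hcon
      exact hn ⟨h0, hcon⟩
    obtain ⟨q, hq, hq'⟩ := h1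
    refine Finset.prod_eq_zero hq ?_
    unfold rho
    rw [if_neg]
    rintro ⟨-, hb⟩
    exact hq' hb.2

/-- the composite part of the coefficients -/
noncomputable def cc2 (c : ℕ → ℂ → ℕ → ℂ) (Q y0 : ℝ) (a : ℕ → ℂ) (n : ℕ) : ℂ :=
  open Classical in if Cn n then mf c Q y0 a n else 0

end Pool.Agent.H616.SP.Q
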