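import Pool.Agent.H616.SP.Diff
import Pool.Agent.H616.SQ.Map

set_option autoImplicit false

/-!
# The difference estimate for general local factors
-/

namespace Pool.Agent.H616.SP.Q

open Filter Topology Set Complex
open Pool.Agent.H483.FE Pool.Agent.H483.SA
open scoped ComplexConjugate

section

variable {γ : ℂ → ℂ} {α y0 K Q A : ℝ} {c : ℕ → ℂ → ℕ → ℂ}

/-- bound for the coefficient at a prime power -/
lemma rho_bd (hc : Loc c A) (hQ : 0 < Q) {lam : ℝ} (hlam : 0 < lam) {b : ℕ → ℂ}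
    (ha : ∀ p, ‖ac α y0 Q b p‖ ≤ 1) {e d : ℕ → ℝ} (he : ∀ p, ‖b p‖ ^ 2 ≤ e p)
    (hd : ∀ p, ‖ac α y0 Q b p‖ ^ 2 ≤ d p) (q : ℕ) :
    ‖rho c Q y0 (ac α y0 Q b) q‖ ^ 2 ≤
      uu α y0 Q lam q * (wp lam e q + yy A α (Q * Real.exp y0) d q + z3 A α (Q * Real.exp y0) q) := by
  have hA : 1 ≤ A := hc.one_le
  have hd0 : ∀ p, 0 ≤ d p := fun p => (by positivity : 0 ≤ ‖ac α y0 Q b p‖ ^ 2).trans (hd p)
  have he0 : ∀ p, 0 ≤ e p := fun p => (by positivity : 0 ≤ ‖b p‖ ^ 2).trans (he p)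
  have hu := uu_nonneg (α := α) (y0 := y0) hQ hlam.le q
  have hyy := yy_nonneg (A := A) (α := α) (Y := Q * Real.exp y0) (by linarith) hd0 q
  have hz := z3_nonneg (A := A) (α := α) (Y := Q * Real.exp y0) (by linarith) q
  have hwp : 0 ≤ wp lam e q := by
    unfold wp; split_ifs
    · have := he0 q; positivity
    · exact le_rfl
  by_cases hcond : PK 1 q ∧ Big Q y0 q.minFac
  · have hr : rho c Q y0 (ac α y0 Q b) q = c q.minFac (ac α y0 Q b q.minFac) (ex q) := by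
      unfold rho; rw [if_pos hcond]
    rw [hr]
    obtain ⟨⟨p, k, hp, hk, rfl⟩, hbig⟩ := hcond
    rw [minFac_pow hp (by omega)] at hbig ⊢
    rw [ex_pow hp (by omega)]
    have hp0 : (0:ℝ) < p := by exact_mod_cast hp.pos
    set a := ac α y0 Q b p with haa
    by_cases hk1 : k = 1
    · subst hk1
      rw [pow_one] at *
      rw [hc.one, haa, ac_sq hQ]
      unfold uu
      rw [if_pos hp]
      unfold uu at hu
      rw [if_pos hp] at hu
      have e1 : wp lam e p = e p / lam := by unfold wp; rw [if_pos hp]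
      have hw := ww_nonneg (α := α) (y0 := y0) hQ p
      have hM := MM_pos Q p
      calc ww α y0 Q p / MM Q p * ‖b p‖ ^ 2 ≤ ww α y0 Q p / MM Q p * e p := by
            have := he p
            gcongr
        _ = lam * (ww α y0 Q p / MM Q p) * (wp lam e p + 0 + 0) := by rw [e1]; field_simp; ring
        _ ≤ _ := by gcongr
    · have hk2 : 2 ≤ k := by omega
      have hnp : ¬ (p ^ k).Prime := by
        intro h
        have := Nat.Prime.eq_one_of_pow h
        omega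
      have hq0 : (0:ℝ) < ((p ^ k : ℕ) : ℝ) := by exact_mod_cast pow_pos hp.pos k
      have hinv : (((p ^ k : ℕ) : ℝ) ^ (2 * α)) * (((p ^ k : ℕ) : ℝ) ^ (-(2 * α))) = 1 := by
        rw [← Real.rpow_add hq0]; simp
      have huu : uu α y0 Q lam (p ^ k) = ((p ^ k : ℕ) : ℝ) ^ (2 * α) / 2 := by
        unfold uu; rw [if_neg hnp]
      rw [huu]
      rcases (Nat.lt_or_ge k 3) with h3 | h3
      · have hk' : k = 2 := by omega
        have hyv : yy A α (Q * Real.exp y0) d (p ^ k) = 2 * A ^ (2 * k) * d p * ((p ^ k : ℕ) : ℝ) ^ (-(2 * α)) := by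
          unfold yy
          rw [if_pos ⟨⟨p, k, hp, hk2, rfl⟩, by rw [minFac_pow hp (by omega)]; exact hbig.2⟩, ex_pow hp (by omega),
            minFac_pow hp (by omega)]
        have h4 : ‖c p a k‖ ≤ A ^ k * ‖a‖ := by
          have := hc.lip p a 0 (ha p) (by simp) k
          rw [hk'] at this ⊢
          rwa [hc.two, sub_zero, sub_zero] at this
        calc ‖c p a k‖ ^ 2 ≤ (A ^ k * ‖a‖) ^ 2 := by gcongr
          _ = A ^ (2 * k) * ‖a‖ ^ 2 := by ring
          _ ≤ A ^ (2 * k) * d p := by gcongr; exact hd p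
          _ = (((p ^ k : ℕ) : ℝ) ^ (2 * α)) * (((p ^ k : ℕ) : ℝ) ^ (-(2 * α))) * (A ^ (2 * k) * d p) := by
              rw [hinv, one_mul]
          _ = ((p ^ k : ℕ) : ℝ) ^ (2 * α) / 2 * (0 + yy A α (Q * Real.exp y0) d (p ^ k) + 0) := by
              rw [hyv]; ring
          _ ≤ _ := by gcongr
      · have hzv : z3 A α (Q * Real.exp y0) (p ^ k) = 2 * A ^ (2 * k) * ((p ^ k : ℕ) : ℝ) ^ (-(2 * α)) := by
          unfold z3
          rw [if_pos ⟨⟨p, k, hp, h3, rfl⟩, by rw [minFac_pow hp (by omega)]; exact hbig.2⟩, ex_pow hp (by omega)]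
        calc ‖c p a k‖ ^ 2 ≤ (A ^ k) ^ 2 := by
              have := hc.bd p a (ha p) k
              gcongr
          _ = A ^ (2 * k) := by ring
          _ = (((p ^ k : ℕ) : ℝ) ^ (2 * α)) * (((p ^ k : ℕ) : ℝ) ^ (-(2 * α))) * A ^ (2 * k) := by
              rw [hinv, one_mul]
          _ = ((p ^ k : ℕ) : ℝ) ^ (2 * α) / 2 * (0 + 0 + z3 A α (Q * Real.exp y0) (p ^ k)) := by
              rw [hzv]; ring
          _ ≤ _ := by gcongr
  · have hr : rho c Q y0 (ac α y0 Q b) q = 0 := by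
      unfold rho; rw [if_neg hcond]
    rw [hr, norm_zero, zero_pow two_ne_zero]
    positivity

/-- bound for the difference of the coefficients at a prime power -/
lemma rho_lip (hc : Loc c A) (hQ : 0 < Q) {lam : ℝ} (hlam : 0 < lam) {b b' : ℕ → ℂ}
    (ha : ∀ p, ‖ac α y0 Q b p‖ ≤ 1) (ha' : ∀ p, ‖ac α y0 Q b' p‖ ≤ 1) (q : ℕ) :
    ‖rho c Q y0 (ac α y0 Q b) q - rho c Q y0 (ac α y0 Q b') q‖ ^ 2 ≤
      uu α y0 Q lam q * (wp lam (fun p => ‖b p - b' p‖ ^ 2) q +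
        yy A α (Q * Real.exp y0) (fun p => ‖ac α y0 Q b p - ac α y0 Q b' p‖ ^ 2) q) := by
  have hA : 1 ≤ A := hc.one_le
  have hu := uu_nonneg (α := α) (y0 := y0) hQ hlam.le q
  have hyy := yy_nonneg (A := A) (α := α) (Y := Q * Real.exp y0) (by linarith)
    (d := fun p => ‖ac α y0 Q b p - ac α y0 Q b' p‖ ^ 2) (fun p => by positivity) q
  have hwp : 0 ≤ wp lam (fun p => ‖b p - b' p‖ ^ 2) q := by
    unfold wp; split_ifs
    · positivity
    · exact le_rfl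
  by_cases hcond : PK 1 q ∧ Big Q y0 q.minFac
  · have hr : ∀ b : ℕ → ℂ, rho c Q y0 (ac α y0 Q b) q = c q.minFac (ac α y0 Q b q.minFac) (ex q) := by
      intro b
      unfold rho; rw [if_pos hcond]
    rw [hr, hr]
    obtain ⟨⟨p, k, hp, hk, rfl⟩, hbig⟩ := hcond
    rw [minFac_pow hp (by omega)] at hbig ⊢
    rw [ex_pow hp (by omega)]
    have hp0 : (0:ℝ) < p := by exact_mod_cast hp.pos
    by_cases hk1 : k = 1
    · subst hk1
      rw [pow_one] at *
      rw [hc.one, hc.one, ac_sub_sq hQ]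
      unfold uu
      rw [if_pos hp]
      unfold uu at hu
      rw [if_pos hp] at hu
      have e1 : wp lam (fun p => ‖b p - b' p‖ ^ 2) p = ‖b p - b' p‖ ^ 2 / lam := by unfold wp; rw [if_pos hp]
      have hw := ww_nonneg (α := α) (y0 := y0) hQ p
      have hM := MM_pos Q p
      calc ww α y0 Q p / MM Q p * ‖b p - b' p‖ ^ 2 =
            lam * (ww α y0 Q p / MM Q p) * (wp lam (fun p => ‖b p - b' p‖ ^ 2) p + 0) := by
            rw [e1]; field_simp; ring
        _ ≤ _ := by gcongr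
    · have hk2 : 2 ≤ k := by omega
      have hnp : ¬ (p ^ k).Prime := by
        intro h
        have := Nat.Prime.eq_one_of_pow h
        omega
      have hq0 : (0:ℝ) < ((p ^ k : ℕ) : ℝ) := by exact_mod_cast pow_pos hp.pos k
      have hinv : (((p ^ k : ℕ) : ℝ) ^ (2 * α)) * (((p ^ k : ℕ) : ℝ) ^ (-(2 * α))) = 1 := by
        rw [← Real.rpow_add hq0]; simp
      have huu : uu α y0 Q lam (p ^ k) = ((p ^ k : ℕ) : ℝ) ^ (2 * α) / 2 := by
        unfold uu; rw [if_neg hnp]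
      rw [huu]
      have hyv : yy A α (Q * Real.exp y0) (fun p => ‖ac α y0 Q b p - ac α y0 Q b' p‖ ^ 2) (p ^ k) =
          2 * A ^ (2 * k) * ‖ac α y0 Q b p - ac α y0 Q b' p‖ ^ 2 * ((p ^ k : ℕ) : ℝ) ^ (-(2 * α)) := by
        unfold yy
        rw [if_pos ⟨⟨p, k, hp, hk2, rfl⟩, by rw [minFac_pow hp (by omega)]; exact hbig.2⟩, ex_pow hp (by omega),
          minFac_pow hp (by omega)]
      have h4 := hc.lip p _ _ (ha p) (ha' p) k
      calc ‖c p (ac α y0 Q b p) k - c p (ac α y0 Q b' p) k‖ ^ 2 ≤ (A ^ k * ‖ac α y0 Q b p - ac α y0 Q b' p‖) ^ 2 := by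
            gcongr
        _ = A ^ (2 * k) * ‖ac α y0 Q b p - ac α y0 Q b' p‖ ^ 2 := by ring
        _ = (((p ^ k : ℕ) : ℝ) ^ (2 * α)) * (((p ^ k : ℕ) : ℝ) ^ (-(2 * α))) *
            (A ^ (2 * k) * ‖ac α y0 Q b p - ac α y0 Q b' p‖ ^ 2) := by rw [hinv, one_mul]
        _ = ((p ^ k : ℕ) : ℝ) ^ (2 * α) / 2 * (0 + yy A α (Q * Real.exp y0)
            (fun p => ‖ac α y0 Q b p - ac α y0 Q b' p‖ ^ 2) (p ^ k)) := by
            rw [hyv]; ring
        _ ≤ _ := by gcongr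
  · have hr : ∀ b : ℕ → ℂ, rho c Q y0 (ac α y0 Q b) q = 0 := by
      intro b
      unfold rho; rw [if_neg hcond]
    rw [hr, hr, sub_zero, norm_zero, zero_pow two_ne_zero]
    positivity

/-- the pointwise estimate -/
lemma diff_pt (hc : Loc c A) (hQ : 0 < Q) {lam : ℝ} (hlam : 0 < lam) {b b' : ℕ → ℂ}
    (ha : ∀ p, ‖ac α y0 Q b p‖ ≤ 1) (ha' : ∀ p, ‖ac α y0 Q b' p‖ ≤ 1) {e d : ℕ → ℝ}
    (he : ∀ p, ‖b p‖ ^ 2 ≤ e p) (he' : ∀ p, ‖b' p‖ ^ 2 ≤ e p)
    (hd : ∀ p, ‖ac α y0 Q b p‖ ^ 2 ≤ d p) (hd' : ∀ p, ‖ac α y0 Q b' p‖ ^ 2 ≤ d p)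
    {n : ℕ} (hn : Rg (Q * Real.exp y0) n) (h : ℝ → ℂ) :
    ‖mf c Q y0 (ac α y0 Q b) n - mf c Q y0 (ac α y0 Q b') n‖ * ‖h (zz Q n)‖ ≤
      Real.sqrt (gg (fun q => wp lam (fun p => ‖b p - b' p‖ ^ 2) q +
          yy A α (Q * Real.exp y0) (fun p => ‖ac α y0 Q b p - ac α y0 Q b' p‖ ^ 2) q)
        (fun q => wp lam e q + yy A α (Q * Real.exp y0) d q + z3 A α (Q * Real.exp y0) q) (pp n)) *
      Real.sqrt (((n : ℝ) ^ (2 * α) * WT (lam * Q ^ (-(1 + 2 * α))) Q n) * ‖dv h (zz Q n)‖ ^ 2) := by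
  have hA : 1 ≤ A := hc.one_le
  have hd0 : ∀ p, 0 ≤ d p := fun p => (by positivity : 0 ≤ ‖ac α y0 Q b p‖ ^ 2).trans (hd p)
  have he0 : ∀ p, 0 ≤ e p := fun p => (by positivity : 0 ≤ ‖b p‖ ^ 2).trans (he p)
  set x : ℕ → ℝ := fun q => wp lam e q + yy A α (Q * Real.exp y0) d q + z3 A α (Q * Real.exp y0) q with hx
  set y : ℕ → ℝ := fun q => wp lam (fun p => ‖b p - b' p‖ ^ 2) q +
          yy A α (Q * Real.exp y0) (fun p => ‖ac α y0 Q b p - ac α y0 Q b' p‖ ^ 2) q with hy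
  set u : ℕ → ℝ := uu α y0 Q lam with hu
  have hu0 : ∀ q, 0 ≤ u q := fun q => uu_nonneg hQ hlam.le q
  have hx0 : ∀ q, 0 ≤ x q := by
    intro q
    have h1 := yy_nonneg (A := A) (α := α) (Y := Q * Real.exp y0) (by linarith) hd0 q
    have h2 := z3_nonneg (A := A) (α := α) (Y := Q * Real.exp y0) (by linarith) q
    have h3 : 0 ≤ wp lam e q := by
      unfold wp; split_ifs
      · have := he0 q; positivity
      · exact le_rfl
    simp only [hx]
    positivity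
  have hy0 : ∀ q, 0 ≤ y q := by
    intro q
    have h1 := yy_nonneg (A := A) (α := α) (Y := Q * Real.exp y0) (by linarith)
      (d := fun p => ‖ac α y0 Q b p - ac α y0 Q b' p‖ ^ 2) (fun p => by positivity) q
    have h3 : 0 ≤ wp lam (fun p => ‖b p - b' p‖ ^ 2) q := by
      unfold wp; split_ifs
      · positivity
      · exact le_rfl
    simp only [hy]
    positivity
  set T := pp n with hT
  set r := rho c Q y0 (ac α y0 Q b) with hr
  set r' := rho c Q y0 (ac α y0 Q b') with hr'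
  set B : ℕ → ℝ := fun q => Real.sqrt (u q * x q) with hB
  have hBsq : ∀ q, B q ^ 2 = u q * x q := fun q => Real.sq_sqrt (mul_nonneg (hu0 q) (hx0 q))
  have hB1 : ∀ q, ‖r q‖ ≤ B q := fun q => Real.le_sqrt_of_sq_le (rho_bd hc hQ hlam ha he hd q)
  have hB2 : ∀ q, ‖r' q‖ ≤ B q := fun q => Real.le_sqrt_of_sq_le (rho_bd hc hQ hlam ha' he' hd' q)
  have hdd := prod_sub_le T hB1 hB2
  have hggmono : ∀ T : Finset ℕ, gg (fun q => ‖r q - r' q‖ ^ 2) (fun q => B q ^ 2) T ≤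
      gg (fun q => u q * y q) (fun q => u q * x q) T := by
    intro T
    unfold gg
    apply Finset.sum_le_sum
    intro p _
    apply mul_le_mul
    · exact rho_lip hc hQ hlam ha ha' p
    · apply le_of_eq
      apply Finset.prod_congr rfl
      intro q _
      exact hBsq q
    · exact Finset.prod_nonneg fun q _ => by positivity
    · exact mul_nonneg (hu0 p) (hy0 p)
  have hd2 : ‖∏ q ∈ T, r q - ∏ q ∈ T, r' q‖ ^ 2 ≤ T.card * ((∏ q ∈ T, u q) * gg y x T) := by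
    calc _ ≤ gg (fun q => ‖r q - r' q‖) B T ^ 2 := by gcongr
      _ ≤ T.card * gg (fun q => ‖r q - r' q‖ ^ 2) (fun q => B q ^ 2) T := gg_sq_le T
      _ ≤ T.card * gg (fun q => u q * y q) (fun q => u q * x q) T := by
          have := hggmono T
          gcongr
      _ = _ := by rw [gg_mul]
  have hk : (T.card : ℝ) ≤ 2 ^ T.card := by
    have := Nat.lt_two_pow_self (n := T.card)
    exact_mod_cast this.le
  have hPu : 0 ≤ ∏ q ∈ T, u q := Finset.prod_nonneg fun q _ => hu0 q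
  have hgg := gg_nonneg hy0 hx0 T
  have hMn := MM_pos Q n
  have hprod := prod_uu (α := α) hQ lam hn
  rw [← hT, ← hu] at hprod
  rw [← Real.sqrt_mul hgg]
  apply Real.le_sqrt_of_sq_le
  have hh : ‖h (zz Q n)‖ ^ 2 = MM Q n * ‖dv h (zz Q n)‖ ^ 2 := by
    unfold dv
    rw [norm_div, div_pow, norm_zI]
    field_simp
  rw [mf_ne hn.1, mf_ne hn.1, mul_pow, hh, ← hprod]
  calc _ ≤ (T.card * ((∏ q ∈ T, u q) * gg y x T)) * (MM Q n * ‖dv h (zz Q n)‖ ^ 2) := by gcongr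
    _ ≤ (2 ^ T.card * ((∏ q ∈ T, u q) * gg y x T)) * (MM Q n * ‖dv h (zz Q n)‖ ^ 2) := by gcongr
    _ = _ := by ring

end

end Pool.Agent.H616.SP.Q
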