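import Pool.Agent.H616.SP.Diff2
import Pool.Agent.H616.SQ.Diff

set_option autoImplicit false

/-!
# The summed difference estimate for general local factors
-/

namespace Pool.Agent.H616.SP.Q

open Filter Topology Set Complex
open Pool.Agent.H483.FE Pool.Agent.H483.SA
open scoped ComplexConjugate

section

variable {γ : ℂ → ℂ} {α y0 K Q A : ℝ} {c : ℕ → ℂ → ℕ → ℂ}

/-- the main difference estimate -/
theorem diff_bound2 (hc : Loc c A) (hα : 0 < α) (hQ : 1 ≤ Q) (hY1 : 1 ≤ Q * Real.exp y0)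
    (D : Dt2 γ α y0 K Q) (hK : 0 < K) {R : ℝ} (hR : 0 < R)
    (h1 : 32 * (2 * R ^ 2 * Q ^ (-(1 + 2 * α))) * (1 + Real.log Q) ≤ 1)
    (h2 : 1920 * (2 * R ^ 2 * Q ^ (-(1 + 2 * α))) ≤ 1)
    (c1 : 16 * A ^ 4 * (Q * Real.exp y0) ^ (-(2 * α)) ≤ 1)
    (c3 : ∀ S : Finset ℕ, ∑ q ∈ S, z3 A α (Q * Real.exp y0) q ≤ 1)
    (c4 : 42 * (K * ((2 * R ^ 2 * Q ^ (-(1 + 2 * α))) * (1 + Real.log Q ^ 2) ^ 2)) ≤ 1 / 36)
    (c5 : 42 * (K * ((1 + Real.log Q ^ 2) ^ 2 * Q ^ (-(2 / 25 : ℝ)))) ≤ 1 / 36)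
    (c6 : 336 * (K * (A ^ 4 * (1 + Real.log Q) * (Q * Real.exp y0) ^ (-(2 * α)))) ≤ 1 / 36)
    {b b' : L2} (hb : ‖b‖ ≤ R) (hb' : ‖b'‖ ≤ R) (ha : ∀ p, ‖ac α y0 Q b p‖ ≤ 1) (ha' : ∀ p, ‖ac α y0 Q b' p‖ ≤ 1)
    {h : ℝ → ℂ} (hg : Good γ h) (F : Finset ℕ) :
    ∑ n ∈ F, ‖cc2 c Q y0 (ac α y0 Q b) n - cc2 c Q y0 (ac α y0 Q b') n‖ * ‖h (zz Q n)‖ ≤
      1 / 2 * ‖b - b'‖ * Real.sqrt (SS α y0 Q h) := by
  classical
  have hQ0 : 0 < Q := by linarith
  have hA : 1 ≤ A := hc.one_le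
  have hL : 0 ≤ Real.log Q := Real.log_nonneg hQ
  set lam := 2 * R ^ 2 with hlam
  have hlam0 : 0 < lam := by positivity
  have hqp : 0 < Q ^ (-(1 + 2 * α)) := Real.rpow_pos_of_pos hQ0 _
  set η := lam * Q ^ (-(1 + 2 * α)) with hη
  have hη0 : 0 < η := by positivity
  have hQQ : Q ^ (1 + 2 * α) * Q ^ (-(1 + 2 * α)) = 1 := by rw [← Real.rpow_add hQ0]; simp
  have hηQ : η * Q ^ (1 + 2 * α) = lam := by rw [hη]; linear_combination lam * hQQ
  set Y := Q * Real.exp y0 with hY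
  set a := ac α y0 Q b with haa
  set a' := ac α y0 Q b' with haa'
  set Δ := ‖b - b'‖ with hΔ
  have hΔ0 : 0 ≤ Δ := norm_nonneg _
  set e : ℕ → ℝ := fun p => ‖b p‖ ^ 2 + ‖b' p‖ ^ 2 with he
  set e1 : ℕ → ℝ := fun p => ‖b p - b' p‖ ^ 2 with he1
  set d : ℕ → ℝ := fun p => ‖a p‖ ^ 2 + ‖a' p‖ ^ 2 with hd
  set d1 : ℕ → ℝ := fun p => ‖a p - a' p‖ ^ 2 with hd1
  have he0 : ∀ p, 0 ≤ e p := fun p => by simp only [he]; positivity
  have he10 : ∀ p, 0 ≤ e1 p := fun p => by simp only [he1]; positivity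
  have hd0 : ∀ p, 0 ≤ d p := fun p => by simp only [hd]; positivity
  have hd10 : ∀ p, 0 ≤ d1 p := fun p => by simp only [hd1]; positivity
  have heB : ∀ S : Finset ℕ, ∑ p ∈ S, e p ≤ lam := by
    intro S
    have a1 := L2_sum b S
    have a2 := L2_sum b' S
    have a3 : ‖b‖ ^ 2 ≤ R ^ 2 := by gcongr
    have a4 : ‖b'‖ ^ 2 ≤ R ^ 2 := by gcongr
    simp only [he]
    rw [Finset.sum_add_distrib]
    linarith
  have he1B : ∀ S : Finset ℕ, ∑ p ∈ S, e1 p ≤ Δ ^ 2 := by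
    intro S
    have a1 := L2_sum (b - b') S
    simpa using a1
  have hdd : ∀ p, d p = ww α y0 Q p / MM Q p * e p := by
    intro p
    simp only [hd, he, haa, haa']
    rw [ac_sq hQ0, ac_sq hQ0]; ring
  have hdd1 : ∀ p, d1 p = ww α y0 Q p / MM Q p * e1 p := by
    intro p
    simp only [hd1, he1, haa, haa']
    rw [ac_sub_sq hQ0]
  set x : ℕ → ℝ := fun q => wp lam e q + yy A α Y d q + z3 A α Y q with hx
  set y : ℕ → ℝ := fun q => wp lam e1 q + yy A α Y d1 q with hy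
  have hyy0 : ∀ q, 0 ≤ yy A α Y d q := fun q => yy_nonneg (by linarith) hd0 q
  have hyy10 : ∀ q, 0 ≤ yy A α Y d1 q := fun q => yy_nonneg (by linarith) hd10 q
  have hz0 : ∀ q, 0 ≤ z3 A α Y q := fun q => z3_nonneg (by linarith) q
  have hwp0 : ∀ q, 0 ≤ wp lam e q := by
    intro q
    unfold wp; split_ifs
    · have := he0 q; positivity
    · exact le_rfl
  have hwp10 : ∀ q, 0 ≤ wp lam e1 q := by
    intro q
    unfold wp; split_ifs
    · have := he10 q; positivity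
    · exact le_rfl
  have hx0 : ∀ q, 0 ≤ x q := fun q => by simp only [hx]; linarith [hyy0 q, hz0 q, hwp0 q]
  have hy0' : ∀ q, 0 ≤ y q := fun q => by simp only [hy]; linarith [hyy10 q, hwp10 q]
  have hYp : 0 ≤ Y ^ (-(2 * α)) := by positivity
  have hηL : (1 + Real.log Q) * η ≤ 1 := by nlinarith
  set E2 := 16 * A ^ 4 * Y ^ (-(2 * α)) * ((1 + Real.log Q) * Q ^ (-(1 + 2 * α)) * Δ ^ 2) with hE2
  have hE20 : 0 ≤ E2 := by positivity
  have hX : ∀ S : Finset ℕ, ∑ p ∈ S, x p ≤ 3 := by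
    intro S
    simp only [hx]
    rw [Finset.sum_add_distrib, Finset.sum_add_distrib]
    have s1 := wp_sum hlam0 he0 heB S
    rw [div_self hlam0.ne'] at s1
    have s2 := sum_yy hA hα hY1 c1 hd0 (sum_d (y0 := y0) hα hQ e he0 heB hdd) S
    have s3 := c3 S
    have s4 : 16 * A ^ 4 * Y ^ (-(2 * α)) * ((1 + Real.log Q) * Q ^ (-(1 + 2 * α)) * lam) ≤ 1 * 1 := by
      apply mul_le_mul c1 _ (by positivity) zero_le_one
      calc _ = (1 + Real.log Q) * η := by rw [hη]; ring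
        _ ≤ 1 := hηL
    linarith
  have hYS2 : ∀ S : Finset ℕ, ∑ p ∈ S, yy A α Y d1 p ≤ E2 := fun S =>
    sum_yy hA hα hY1 c1 hd10 (sum_d (y0 := y0) hα hQ e1 he10 he1B hdd1) S
  have hE2le : E2 ≤ Δ ^ 2 / lam := by
    rw [le_div_iff₀ hlam0]
    calc E2 * lam = (16 * A ^ 4 * Y ^ (-(2 * α))) * ((1 + Real.log Q) * η) * Δ ^ 2 := by rw [hE2, hη]; ring
      _ ≤ 1 * 1 * Δ ^ 2 := by gcongr
      _ = _ := by ring
  have hYS : ∀ S : Finset ℕ, ∑ p ∈ S, y p ≤ 2 * Δ ^ 2 / lam := by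
    intro S
    simp only [hy]
    rw [Finset.sum_add_distrib]
    have s1 := wp_sum hlam0 he10 he1B S
    have s2 := hYS2 S
    have : 2 * Δ ^ 2 / lam = Δ ^ 2 / lam + Δ ^ 2 / lam := by ring
    linarith
  -- reduction to composite numbers with large prime factors
  set f : ℕ → ℝ := fun n => ‖mf c Q y0 a n - mf c Q y0 a' n‖ * ‖h (zz Q n)‖ with hf
  have hf0 : ∀ n, 0 ≤ f n := fun n => by simp only [hf]; positivity
  set F' := F.filter (fun n => Cn n ∧ Rg Y n) with hF'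
  have hred : ∑ n ∈ F, ‖cc2 c Q y0 a n - cc2 c Q y0 a' n‖ * ‖h (zz Q n)‖ = ∑ n ∈ F', f n := by
    rw [hF', Finset.sum_filter]
    apply Finset.sum_congr rfl
    intro n _
    unfold cc2
    by_cases hn : Cn n
    · rw [if_pos hn, if_pos hn]
      by_cases hn2 : Rg Y n
      · rw [if_pos ⟨hn, hn2⟩]
      · rw [if_neg (fun h => hn2 h.2), mf_not_Rg hn2, mf_not_Rg hn2]; simp
    · rw [if_neg hn, if_neg hn, if_neg (fun h => hn h.1)]; simp
  rw [hred]
  have hF'm : ∀ n ∈ F', Cn n ∧ Rg Y n := fun n hn => (Finset.mem_filter.1 hn).2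
  -- Cauchy-Schwarz on a class
  have hSS : 0 ≤ SS α y0 Q h := tsum_nonneg fun n => mul_nonneg (ww_nonneg hQ0 n) (by positivity)
  have hCS : ∀ G : Finset ℕ, G ⊆ F' → ∀ B1 B2 : ℝ, ∑ n ∈ G, gg y x (pp n) ≤ B1 →
      ∑ n ∈ G, ((n : ℝ) ^ (2 * α) * WT η Q n) * ‖dv h (zz Q n)‖ ^ 2 ≤ B2 → B1 * B2 ≤ 1 / 36 * Δ ^ 2 * SS α y0 Q h →
      ∑ n ∈ G, f n ≤ 1 / 6 * Δ * Real.sqrt (SS α y0 Q h) := by
    intro G hG B1 B2 hB1 hB2 hB12
    have hB10 : 0 ≤ B1 := (Finset.sum_nonneg fun n _ => gg_nonneg hy0' hx0 _).trans hB1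
    calc _ ≤ ∑ n ∈ G, Real.sqrt (gg y x (pp n)) *
        Real.sqrt (((n : ℝ) ^ (2 * α) * WT η Q n) * ‖dv h (zz Q n)‖ ^ 2) := by
          apply Finset.sum_le_sum
          intro n hn
          exact diff_pt hc hQ0 hlam0 ha ha' (fun p => by simp only [he]; linarith [sq_nonneg ‖b' p‖])
            (fun p => by simp only [he]; linarith [sq_nonneg ‖b p‖])
            (fun p => by simp only [hd]; linarith [sq_nonneg ‖a' p‖])
            (fun p => by simp only [hd]; linarith [sq_nonneg ‖a p‖]) (hF'm n (hG hn)).2 h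
      _ ≤ Real.sqrt (∑ n ∈ G, gg y x (pp n)) *
          Real.sqrt (∑ n ∈ G, ((n : ℝ) ^ (2 * α) * WT η Q n) * ‖dv h (zz Q n)‖ ^ 2) := by
          apply Real.sum_sqrt_mul_sqrt_le
          · intro n
            exact gg_nonneg hy0' hx0 _
          · intro n
            have := WT_nonneg (Q := Q) hη0.le n
            positivity
      _ ≤ Real.sqrt B1 * Real.sqrt B2 := by gcongr
      _ = Real.sqrt (B1 * B2) := (Real.sqrt_mul hB10 _).symm
      _ ≤ Real.sqrt (1 / 36 * Δ ^ 2 * SS α y0 Q h) := Real.sqrt_le_sqrt hB12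
      _ = _ := by
          rw [Real.sqrt_mul (by positivity), Real.sqrt_mul (by norm_num), Real.sqrt_sq hΔ0,
            show (1 / 36 : ℝ) = (1 / 6) ^ 2 by norm_num, Real.sqrt_sq (by norm_num)]
  have hggall : ∀ G : Finset ℕ, G ⊆ F' → ∑ n ∈ G, gg y x (pp n) ≤ 2 * Δ ^ 2 / lam * 21 := by
    intro G hG
    refine (sum_gg_pp (fun n hn => (hF'm n (hG hn)).2.1) hy0' hx0 hYS hX).trans ?_
    have := exp_three
    gcongr
  -- first class
  set G2 := F'.filter (fun n => VV n = ∅) with hG2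
  have hS2 : ∑ n ∈ G2, f n ≤ 1 / 6 * Δ * Real.sqrt (SS α y0 Q h) := by
    apply hCS G2 (Finset.filter_subset _ _) _ (lam * (K * (η * (1 + Real.log Q ^ 2) ^ 2)) * SS α y0 Q h)
      (hggall G2 (Finset.filter_subset _ _))
    · have hm : ∀ n ∈ G2, Cmp Y n ∧ WT η Q n = η * cn η Q n := by
        intro n hn
        obtain ⟨hn1, hV⟩ := Finset.mem_filter.1 hn
        obtain ⟨hCn, hRg⟩ := hF'm n hn1
        have htf : tf n = 1 := by unfold tf; rw [hV]; rfl
        have hsf : sf n = n := by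
          have := sf_mul_tf hRg.1
          rwa [htf, mul_one] at this
        have hpf : n.primeFactors = UU n := by rw [← sf_primeFactors n, hsf]
        have hsq : Squarefree n := by
          rw [← hsf]; exact prod_sqfree fun q hq => UU_prime hq
        refine ⟨⟨hsq, ?_, ?_⟩, ?_⟩
        · rw [hpf]
          by_contra hcon
          push Not at hcon
          have hppn := pp_ne_nil hRg.1 hCn.2.1
          have hcard := card_UV n
          rw [hV, Finset.card_empty, add_zero] at hcard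
          have h3 : 0 < (pp n).card := Finset.card_pos.2 hppn
          have h4 : (UU n).card = 1 := by omega
          obtain ⟨P, hP⟩ := Finset.card_eq_one.1 h4
          have h5 : n = P := by
            rw [← hsf]; unfold sf; rw [hP, Finset.prod_singleton]
          have h6 : P.Prime := UU_prime (n := n) (by rw [hP]; simp)
          exact hCn.2.2 (h5 ▸ h6)
        · intro q hq
          rw [hpf] at hq
          have := hRg.2 q (UU_sub n hq)
          rwa [(UU_prime hq).minFac_eq] at this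
        · unfold WT cn
          rw [hpf, Finset.prod_mul_distrib, Finset.prod_const]
          field_simp
      have hup := D.up h hg G2 (fun n hn => (hm n hn).1) η hη0 h1 h2
      calc _ = (η * Q ^ (1 + 2 * α)) * ∑ n ∈ G2, ((n : ℝ) ^ (2 * α) * Q ^ (-(1 + 2 * α)) * cn η Q n) *
            ‖dv h (zz Q n)‖ ^ 2 := by
            rw [Finset.mul_sum]
            apply Finset.sum_congr rfl
            intro n hn
            rw [(hm n hn).2]
            linear_combination (-((n : ℝ) ^ (2 * α) * (η * cn η Q n)) * ‖dv h (zz Q n)‖ ^ 2) * hQQ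
        _ ≤ (η * Q ^ (1 + 2 * α)) * (K * (η * (1 + Real.log Q ^ 2) ^ 2) * SS α y0 Q h) := by gcongr
        _ = _ := by rw [hηQ]; ring
    · calc _ = (42 * (K * (η * (1 + Real.log Q ^ 2) ^ 2))) * Δ ^ 2 * SS α y0 Q h := by
            field_simp; ring
        _ ≤ _ := by gcongr
  -- second class
  set G3 := (F'.filter (fun n => ¬ VV n = ∅)).filter (fun n => (UU n).Nonempty) with hG3
  have hG3s : G3 ⊆ F' := (Finset.filter_subset _ _).trans (Finset.filter_subset _ _)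
  have hS3 : ∑ n ∈ G3, f n ≤ 1 / 6 * Δ * Real.sqrt (SS α y0 Q h) := by
    apply hCS G3 hG3s _ (lam * (K * ((1 + Real.log Q ^ 2) ^ 2 * Q ^ (-(2 / 25 : ℝ)))) * SS α y0 Q h)
      (hggall G3 hG3s)
    · have hup := D.up3 h hg G3 (fun n hn => by
        rw [hG3, Finset.mem_filter, Finset.mem_filter] at hn
        exact ⟨(hF'm n hn.1.1).2, hn.2, Finset.nonempty_iff_ne_empty.2 hn.1.2⟩) η hη0 h1 h2
      calc _ = Q ^ (1 + 2 * α) * ∑ n ∈ G3, ((n : ℝ) ^ (2 * α) * Q ^ (-(1 + 2 * α)) * WT η Q n) *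
            ‖dv h (zz Q n)‖ ^ 2 := by
            rw [Finset.mul_sum]
            apply Finset.sum_congr rfl
            intro n hn
            linear_combination (-((n : ℝ) ^ (2 * α) * WT η Q n) * ‖dv h (zz Q n)‖ ^ 2) * hQQ
        _ ≤ Q ^ (1 + 2 * α) * (K * (η * (1 + Real.log Q ^ 2) ^ 2 * Q ^ (-(2 / 25 : ℝ))) * SS α y0 Q h) := by gcongr
        _ = (η * Q ^ (1 + 2 * α)) * (K * ((1 + Real.log Q ^ 2) ^ 2 * Q ^ (-(2 / 25 : ℝ)))) * SS α y0 Q h := by ring
        _ = _ := by rw [hηQ]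
    · calc _ = (42 * (K * ((1 + Real.log Q ^ 2) ^ 2 * Q ^ (-(2 / 25 : ℝ))))) * Δ ^ 2 * SS α y0 Q h := by
            field_simp; ring
        _ ≤ _ := by gcongr
  -- third class
  set G4 := (F'.filter (fun n => ¬ VV n = ∅)).filter (fun n => ¬ (UU n).Nonempty) with hG4
  have hG4s : G4 ⊆ F' := (Finset.filter_subset _ _).trans (Finset.filter_subset _ _)
  have hS4 : ∑ n ∈ G4, f n ≤ 1 / 6 * Δ * Real.sqrt (SS α y0 Q h) := by
    have hU : ∀ n ∈ G4, UU n = ∅ := fun n hn => Finset.not_nonempty_iff_eq_empty.1 (Finset.mem_filter.1 hn).2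
    apply hCS G4 hG4s (E2 * 21) (Q ^ (1 + 2 * α) * (K * SS α y0 Q h))
    · have h3 : ∑ n ∈ G4, gg y x (pp n) = ∑ n ∈ G4, gg (yy A α Y d1) x (pp n) := by
        apply Finset.sum_congr rfl
        intro n hn
        unfold gg
        apply Finset.sum_congr rfl
        intro q hq
        have hqp : ¬ q.Prime := by
          intro hqp
          have : q ∈ UU n := Finset.mem_filter.2 ⟨hq, hqp⟩
          rw [hU n hn] at this
          simp at this
        have : y q = yy A α Y d1 q := by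
          simp only [hy]; unfold wp; rw [if_neg hqp, zero_add]
        rw [this]
      rw [h3]
      refine (sum_gg_pp (fun n hn => (hF'm n (hG4s hn)).2.1) hyy10 hx0 hYS2 hX).trans ?_
      have := exp_three
      gcongr
    · have hup := D.up4 h hg G4 (fun n hn => ⟨(hF'm n (hG4s hn)).2, hU n hn, (hF'm n (hG4s hn)).1.2.1⟩)
      calc _ = Q ^ (1 + 2 * α) * ∑ n ∈ G4, ((n : ℝ) ^ (2 * α) * Q ^ (-(1 + 2 * α)) * MM Q n) *
            ‖dv h (zz Q n)‖ ^ 2 := by
            rw [Finset.mul_sum]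
            apply Finset.sum_congr rfl
            intro n hn
            have hW : WT η Q n = MM Q n := by unfold WT; rw [hU n hn, Finset.prod_empty, mul_one]
            rw [hW]
            linear_combination (-((n : ℝ) ^ (2 * α) * MM Q n) * ‖dv h (zz Q n)‖ ^ 2) * hQQ
        _ ≤ _ := by gcongr
    · calc _ = (336 * (K * (A ^ 4 * (1 + Real.log Q) * Y ^ (-(2 * α))))) * Δ ^ 2 * SS α y0 Q h := by
            rw [hE2]
            linear_combination (336 * (K * (A ^ 4 * (1 + Real.log Q) * Y ^ (-(2 * α)))) * Δ ^ 2 * SS α y0 Q h) * hQQ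
        _ ≤ _ := by gcongr
  have hsplit : ∑ n ∈ F', f n = ∑ n ∈ G2, f n + (∑ n ∈ G3, f n + ∑ n ∈ G4, f n) := by
    rw [hG2, hG3, hG4, Finset.sum_filter_add_sum_filter_not, Finset.sum_filter_add_sum_filter_not]
  rw [hsplit]
  linarith

end

end Pool.Agent.H616.SP.Q
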