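import Pool.Agent.H483.SA.Fix2
import Pool.Agent.H616.SP.Sum
import Pool.Agent.H616.SQ.Diff2

set_option autoImplicit false

/-!
# Summability, the composite functional and its value at the origin
-/

namespace Pool.Agent.H616.SP.Q

open Filter Topology Set Complex
open Pool.Agent.H483.FE Pool.Agent.H483.SA
open scoped ComplexConjugate

section

variable {γ : ℂ → ℂ} {α y0 K Q A : ℝ} {c : ℕ → ℂ → ℕ → ℂ}

/-- sums of the squares of the local coefficients -/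
lemma rho_sum (hc : Loc c A) (hα : 0 < α) (hQ : 1 ≤ Q) (hY1 : 1 ≤ Q * Real.exp y0)
    (c1 : 16 * A ^ 4 * (Q * Real.exp y0) ^ (-(2 * α)) ≤ 1)
    (c3 : ∀ S : Finset ℕ, ∑ q ∈ S, z3 A α (Q * Real.exp y0) q ≤ 1)
    (b : L2) (ha : ∀ p, ‖ac α y0 Q b p‖ ≤ 1) :
    ∃ C : ℝ, 0 ≤ C ∧ ∀ S : Finset ℕ,
      ∑ q ∈ S, ‖rho c Q y0 (ac α y0 Q b) q‖ ^ 2 * (q : ℝ) ^ (-(2 * α)) ≤ C := by
  have hQ0 : 0 < Q := by linarith
  have hA : 1 ≤ A := hc.one_le
  have hL : 0 ≤ Real.log Q := Real.log_nonneg hQ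
  set d : ℕ → ℝ := fun p => ‖ac α y0 Q b p‖ ^ 2 with hd
  set e : ℕ → ℝ := fun p => ‖b p‖ ^ 2 with he
  have he0 : ∀ p, 0 ≤ e p := fun p => by simp only [he]; positivity
  have hd0 : ∀ p, 0 ≤ d p := fun p => by simp only [hd]; positivity
  have hqp : 0 < Q ^ (-(1 + 2 * α)) := Real.rpow_pos_of_pos hQ0 _
  set M := (1 + Real.log Q) * Q ^ (-(1 + 2 * α)) + 1 with hM
  have hM0 : 0 ≤ M := by positivity
  set X : ℕ → ℝ := fun q => wp 1 e q + yy A α (Q * Real.exp y0) d q + z3 A α (Q * Real.exp y0) q with hX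
  set B := ‖b‖ ^ 2 / 1 + 16 * A ^ 4 * (Q * Real.exp y0) ^ (-(2 * α)) *
    ((1 + Real.log Q) * Q ^ (-(1 + 2 * α)) * ‖b‖ ^ 2) + 1 with hB
  have hXB : ∀ S : Finset ℕ, ∑ q ∈ S, X q ≤ B := by
    intro S
    simp only [hX]
    rw [Finset.sum_add_distrib, Finset.sum_add_distrib]
    have s1 := wp_sum one_pos he0 (L2_sum b) S
    have s2 := sum_yy hA hα hY1 c1 hd0 (sum_d (y0 := y0) hα hQ e he0 (L2_sum b)
      (fun p => by simp only [hd, he]; rw [ac_sq hQ0])) S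
    have s3 := c3 S
    linarith
  have hX0 : ∀ q, 0 ≤ X q := by
    intro q
    have h1 := yy_nonneg (A := A) (α := α) (Y := Q * Real.exp y0) (by linarith) hd0 q
    have h2 := z3_nonneg (A := A) (α := α) (Y := Q * Real.exp y0) (by linarith) q
    have h3 : 0 ≤ wp 1 e q := by
      unfold wp; split_ifs
      · have := he0 q; positivity
      · exact le_rfl
    simp only [hX]
    positivity
  have hB0 : 0 ≤ B := by positivity
  refine ⟨M * B, by positivity, fun S => ?_⟩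
  calc _ ≤ ∑ q ∈ S, M * X q := by
        apply Finset.sum_le_sum
        intro q _
        have h1 := rho_bd hc hQ0 one_pos ha (fun p => le_rfl : ∀ p, ‖b p‖ ^ 2 ≤ e p)
          (fun p => le_rfl : ∀ p, ‖ac α y0 Q b p‖ ^ 2 ≤ d p) q
        have h2 : uu α y0 Q 1 q * (q : ℝ) ^ (-(2 * α)) ≤ M := by
          unfold uu
          split_ifs with hp
          · have := ww_div_MM' (y0 := y0) hα hQ q
            rw [one_mul]
            linarith
          · rcases Nat.eq_zero_or_pos q with rfl | hq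
            · have h3 : ((0:ℕ):ℝ) ^ (2 * α) = 0 := by
                rw [Nat.cast_zero, Real.zero_rpow (by positivity)]
              rw [h3]; simp; positivity
            · have hq0 : (0:ℝ) < q := by exact_mod_cast hq
              have h3 : (q : ℝ) ^ (2 * α) / 2 * (q : ℝ) ^ (-(2 * α)) = 1 / 2 := by
                have h4 : (q : ℝ) ^ (2 * α) * (q : ℝ) ^ (-(2 * α)) = 1 := by
                  rw [← Real.rpow_add hq0]; simp
                linear_combination (1 / 2 : ℝ) * h4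
              rw [h3, hM]
              have : 0 ≤ (1 + Real.log Q) * Q ^ (-(1 + 2 * α)) := by positivity
              linarith
        have h3 : 0 ≤ (q : ℝ) ^ (-(2 * α)) := by positivity
        have h4 := hX0 q
        calc _ ≤ (uu α y0 Q 1 q * X q) * (q : ℝ) ^ (-(2 * α)) := by gcongr
          _ = (uu α y0 Q 1 q * (q : ℝ) ^ (-(2 * α))) * X q := by ring
          _ ≤ _ := by gcongr
    _ = M * ∑ q ∈ S, X q := by rw [Finset.mul_sum]
    _ ≤ _ := by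
        have := hXB S
        gcongr

lemma mf_summable (hc : Loc c A) (hα : 0 < α) (hQ : 1 ≤ Q) (hY1 : 1 ≤ Q * Real.exp y0)
    (c1 : 16 * A ^ 4 * (Q * Real.exp y0) ^ (-(2 * α)) ≤ 1)
    (c3 : ∀ S : Finset ℕ, ∑ q ∈ S, z3 A α (Q * Real.exp y0) q ≤ 1)
    (b : L2) (ha : ∀ p, ‖ac α y0 Q b p‖ ≤ 1) :
    Summable fun n : ℕ => ‖mf c Q y0 (ac α y0 Q b) n‖ ^ 2 * (n : ℝ) ^ (-(2 * α)) := by
  classical
  obtain ⟨C, hC0, hC⟩ := rho_sum hc hα hQ hY1 c1 c3 b ha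
  set a := ac α y0 Q b
  refine summable_of_sum_le (c := Real.exp C) (fun n => by positivity) (fun F => ?_)
  calc ∑ n ∈ F, ‖mf c Q y0 a n‖ ^ 2 * (n : ℝ) ^ (-(2 * α)) =
      ∑ n ∈ F.filter (fun n => n ≠ 0), ∏ q ∈ pp n, (‖rho c Q y0 a q‖ ^ 2 * (q : ℝ) ^ (-(2 * α))) := by
        rw [Finset.sum_filter]
        apply Finset.sum_congr rfl
        intro n _
        split_ifs with hn
        · rw [mf_ne hn, norm_prod, ← Finset.prod_pow, Finset.prod_mul_distrib,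
            Real.finsetProd_rpow _ _ (fun q _ => Nat.cast_nonneg q)]
          congr 2
          conv_lhs => rw [← prod_pp hn]
          push_cast
          rfl
        · push Not at hn
          rw [hn, mf_zero]; simp
    _ ≤ _ := sum_prod_pp (fun n hn => (Finset.mem_filter.1 hn).2) (fun q => by positivity) hC

lemma mf_h_summable (hc : Loc c A) (hα : 0 < α) (hα2 : α < 1 / 2) (hQ : 1 ≤ Q) (hY1 : 1 ≤ Q * Real.exp y0)
    (c1 : 16 * A ^ 4 * (Q * Real.exp y0) ^ (-(2 * α)) ≤ 1)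
    (c3 : ∀ S : Finset ℕ, ∑ q ∈ S, z3 A α (Q * Real.exp y0) q ≤ 1)
    (b : L2) (ha : ∀ p, ‖ac α y0 Q b p‖ ≤ 1) {h : ℝ → ℂ} (hD : Dec h) :
    Summable fun n : ℕ => ‖mf c Q y0 (ac α y0 Q b) n‖ * ‖h (zz Q n)‖ := by
  have hQ0 : 0 < Q := by linarith
  have h1 := abs_sum (mf_summable hc hα hQ hY1 c1 c3 b ha) hα (σ := 2) (by linarith)
  obtain ⟨C, hC0, hC⟩ := dec_zz hD (σ := 2) (by norm_num) hQ0
  refine Summable.of_nonneg_of_le (fun n => by positivity) (fun n => ?_) (h1.mul_left C)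
  rcases Nat.eq_zero_or_pos n with rfl | hn
  · rw [mf_zero]; simp
  · calc _ ≤ ‖mf c Q y0 (ac α y0 Q b) n‖ * (C * (n : ℝ) ^ (-(2:ℝ))) := by gcongr; exact hC n hn
      _ = _ := by ring

lemma cc2_le_mf (c : ℕ → ℂ → ℕ → ℂ) (Q y0 : ℝ) (a : ℕ → ℂ) (n : ℕ) : ‖cc2 c Q y0 a n‖ ≤ ‖mf c Q y0 a n‖ := by
  unfold cc2
  split_ifs with h
  · exact le_rfl
  · simp

lemma cc2_h_summable (hc : Loc c A) (hα : 0 < α) (hα2 : α < 1 / 2) (hQ : 1 ≤ Q) (hY1 : 1 ≤ Q * Real.exp y0)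
    (c1 : 16 * A ^ 4 * (Q * Real.exp y0) ^ (-(2 * α)) ≤ 1)
    (c3 : ∀ S : Finset ℕ, ∑ q ∈ S, z3 A α (Q * Real.exp y0) q ≤ 1)
    (b : L2) (ha : ∀ p, ‖ac α y0 Q b p‖ ≤ 1) {h : ℝ → ℂ} (hD : Dec h) :
    Summable fun n : ℕ => cc2 c Q y0 (ac α y0 Q b) n * h (zz Q n) := by
  refine Summable.of_norm_bounded (mf_h_summable hc hα hα2 hQ hY1 c1 c3 b ha hD) (fun n => ?_)
  rw [norm_mul]
  gcongr
  exact cc2_le_mf _ _ _ _ _

/-- the composite part -/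
noncomputable def LL2 (c : ℕ → ℂ → ℕ → ℂ) (α y0 Q : ℝ) (b : ℕ → ℂ) (h : ℝ → ℂ) : ℂ :=
  ∑' n : ℕ, cc2 c Q y0 (ac α y0 Q b) n * h (zz Q n)

lemma LL2_diff (hc : Loc c A) (hα : 0 < α) (hα2 : α < 1 / 2) (hQ : 1 ≤ Q) (hY1 : 1 ≤ Q * Real.exp y0)
    (D : Dt2 γ α y0 K Q) (hK : 0 < K) {R : ℝ} (hR : 0 < R)
    (h1 : 32 * (2 * R ^ 2 * Q ^ (-(1 + 2 * α))) * (1 + Real.log Q) ≤ 1)
    (h2 : 1920 * (2 * R ^ 2 * Q ^ (-(1 + 2 * α))) ≤ 1)
    (c1 : 16 * A ^ 4 * (Q * Real.exp y0) ^ (-(2 * α)) ≤ 1)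
    (c3 : ∀ S : Finset ℕ, ∑ q ∈ S, z3 A α (Q * Real.exp y0) q ≤ 1)
    (c4 : 42 * (K * ((2 * R ^ 2 * Q ^ (-(1 + 2 * α))) * (1 + Real.log Q ^ 2) ^ 2)) ≤ 1 / 36)
    (c5 : 42 * (K * ((1 + Real.log Q ^ 2) ^ 2 * Q ^ (-(2 / 25 : ℝ)))) ≤ 1 / 36)
    (c6 : 336 * (K * (A ^ 4 * (1 + Real.log Q) * (Q * Real.exp y0) ^ (-(2 * α)))) ≤ 1 / 36)
    {b b' : L2} (hb : ‖b‖ ≤ R) (hb' : ‖b'‖ ≤ R) (ha : ∀ p, ‖ac α y0 Q b p‖ ≤ 1) (ha' : ∀ p, ‖ac α y0 Q b' p‖ ≤ 1)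
    {h : ℝ → ℂ} (hg : Good γ h) :
    ‖LL2 c α y0 Q b h - LL2 c α y0 Q b' h‖ ≤ 1 / 2 * ‖b - b'‖ * Real.sqrt (SS α y0 Q h) := by
  have hQ0 : 0 < Q := by linarith
  have hD := good_dec hg
  have s1 := cc2_h_summable hc hα hα2 hQ hY1 c1 c3 b ha hD
  have s2 := cc2_h_summable hc hα hα2 hQ hY1 c1 c3 b' ha' hD
  unfold LL2
  rw [← s1.tsum_sub s2]
  have hbd := fun F : Finset ℕ => diff_bound2 hc hα hQ hY1 D hK hR h1 h2 c1 c3 c4 c5 c6 hb hb' ha ha' hg F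
  have e : ∀ n, ‖cc2 c Q y0 (ac α y0 Q b) n * h (zz Q n) - cc2 c Q y0 (ac α y0 Q b') n * h (zz Q n)‖ =
      ‖cc2 c Q y0 (ac α y0 Q b) n - cc2 c Q y0 (ac α y0 Q b') n‖ * ‖h (zz Q n)‖ := by
    intro n
    rw [← sub_mul, norm_mul]
  have hsn : Summable fun n => ‖cc2 c Q y0 (ac α y0 Q b) n * h (zz Q n) -
      cc2 c Q y0 (ac α y0 Q b') n * h (zz Q n)‖ := by
    refine summable_of_sum_le (fun n => norm_nonneg _) (fun F => ?_) (c := 1 / 2 * ‖b - b'‖ * Real.sqrt (SS α y0 Q h))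
    simp_rw [e]
    exact hbd F
  refine (norm_tsum_le_tsum_norm hsn).trans ?_
  refine hsn.tsum_le_of_sum_le (fun F => ?_)
  simp_rw [e]
  exact hbd F

/-- the value at the origin -/
lemma LL2_zero (hc : Loc c A) (hQ : 1 ≤ Q) (hLy : -(2 * y0) ≤ Real.log Q) (hAY : A ^ 2 ≤ (Q * Real.exp y0) ^ (1 / 200 : ℝ))
    (hY1 : 1 ≤ Q * Real.exp y0)
    (D : Dt2 γ α y0 K Q) (hK : 0 < K) {C₀ : ℝ} (hC₁ : 1 ≤ C₀)
    (hC₀ : ∀ t : ℝ, 1 ≤ t → (1 + Real.log t ^ 2) * (1 + Real.log t) ≤ C₀ * t ^ (1 / 100 : ℝ))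
    {ζ : ℝ} (hζ : ∀ S : Finset ℕ, ∑ q ∈ S, z5 (Q * Real.exp y0) q ≤ ζ) (hζ1 : ζ ≤ 1)
    {h : ℝ → ℂ} (hg : Good γ h) :
    ‖LL2 c α y0 Q ((0 : L2) : ℕ → ℂ) h‖ ≤ 3 * Real.sqrt (K * Q * C₀) * ζ * Real.sqrt (SS α y0 Q h) := by
  classical
  have hQ0 : 0 < Q := by linarith
  have hA : 1 ≤ A := hc.one_le
  have hζ0 : 0 ≤ ζ := by simpa using hζ ∅
  have hLQ : 0 ≤ Real.log Q := Real.log_nonneg hQ
  set Y := Q * Real.exp y0 with hY
  have hY0 : 0 < Y := by linarith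
  have hSS : 0 ≤ SS α y0 Q h := tsum_nonneg fun n => mul_nonneg (ww_nonneg hQ0 n) (by positivity)
  set a := ac α y0 Q ((0 : L2) : ℕ → ℂ) with ha
  have ha0 : ∀ p, a p = 0 := by
    intro p
    rw [ha]; unfold ac; simp
  -- local bounds
  have hrho : ∀ q, ‖rho c Q y0 a q‖ * (q : ℝ) ^ (-(99 / 200 : ℝ)) ≤ z5 Y q := by
    intro q
    have hz := z5_nonneg Y q
    by_cases hcond : PK 1 q ∧ Big Q y0 q.minFac
    · have hr : rho c Q y0 a q = c q.minFac 0 (ex q) := by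
        unfold rho; rw [if_pos hcond, ha0]
      rw [hr]
      obtain ⟨⟨p, k, hp, hk, rfl⟩, hbig⟩ := hcond
      rw [minFac_pow hp (by omega)] at hbig ⊢
      rw [ex_pow hp (by omega)]
      rcases Nat.lt_or_ge k 3 with h3 | h3
      · have h4 : c p 0 k = 0 := by
          have : k = 1 ∨ k = 2 := by omega
          rcases this with rfl | rfl
          · rw [hc.one]
          · exact hc.two p
        rw [h4, norm_zero, zero_mul]; exact hz
      · have hzv : z5 Y (p ^ k) = ((p ^ k : ℕ) : ℝ) ^ (-(49 / 100 : ℝ)) := by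
          unfold z5
          rw [if_pos ⟨⟨p, k, hp, h3, rfl⟩, by rw [minFac_pow hp (by omega)]; exact hbig.2⟩]
        rw [hzv]
        have hp0 : (0:ℝ) < p := by exact_mod_cast hp.pos
        have hq0 : (0:ℝ) < ((p ^ k : ℕ) : ℝ) := by exact_mod_cast pow_pos hp.pos k
        have h5 : ‖c p 0 k‖ ≤ A ^ k := hc.bd p 0 (by simp) k
        have h6 : A ^ k ≤ ((p ^ k : ℕ) : ℝ) ^ (1 / 200 : ℝ) := by
          have h7 : A ≤ (p : ℝ) ^ (1 / 200 : ℝ) := by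
            have h8 : A ≤ A ^ 2 := by nlinarith
            have h9 : Y ^ (1 / 200 : ℝ) ≤ (p : ℝ) ^ (1 / 200 : ℝ) :=
              Real.rpow_le_rpow hY0.le hbig.2.le (by norm_num)
            linarith
          calc A ^ k ≤ ((p : ℝ) ^ (1 / 200 : ℝ)) ^ k := by gcongr
            _ = ((p ^ k : ℕ) : ℝ) ^ (1 / 200 : ℝ) := by
                push_cast
                rw [← Real.rpow_natCast, ← Real.rpow_mul hp0.le, ← Real.rpow_natCast, ← Real.rpow_mul hp0.le]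
                congr 1; ring
        calc ‖c p 0 k‖ * ((p ^ k : ℕ) : ℝ) ^ (-(99 / 200 : ℝ)) ≤
              ((p ^ k : ℕ) : ℝ) ^ (1 / 200 : ℝ) * ((p ^ k : ℕ) : ℝ) ^ (-(99 / 200 : ℝ)) := by
              gcongr
              exact h5.trans h6
          _ = _ := by rw [← Real.rpow_add hq0]; norm_num
    · have hr : rho c Q y0 a q = 0 := by
        unfold rho; rw [if_neg hcond]
      rw [hr, norm_zero, zero_mul]; exact hz
  set S0 := Real.sqrt (K * Q * C₀) * Real.sqrt (SS α y0 Q h) with hS0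
  have hpt : ∀ n, Cn n → Rg Y n → ‖mf c Q y0 a n‖ * ‖h (zz Q n)‖ ≤ S0 * ∏ q ∈ pp n, z5 Y q := by
    intro n hn hr
    have hn1 : (1:ℝ) ≤ n := by exact_mod_cast Nat.one_le_iff_ne_zero.2 hn.1
    have hn0 : (0:ℝ) < n := by linarith
    have hz := zz_gt_of hQ0 (hr.gt hn.2.1)
    have hln : 0 ≤ Real.log n := Real.log_nonneg hn1
    have hLn : Real.log Q ≤ 2 * Real.log n := by
      unfold zz at hz
      linarith
    have h4 : MM Q n ≤ C₀ * (n : ℝ) ^ (1 / 100 : ℝ) := by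
      refine le_trans ?_ (hC₀ n hn1)
      unfold MM
      have h5 : (Real.log n - Real.log Q) ^ 2 ≤ Real.log n ^ 2 := by
        apply sq_le_sq'
        · linarith
        · linarith
      nlinarith [mul_nonneg (by positivity : 0 ≤ 1 + Real.log n ^ 2) hln]
    have hh : ‖h (zz Q n)‖ ^ 2 = MM Q n * ‖dv h (zz Q n)‖ ^ 2 := by
      unfold dv
      rw [norm_div, div_pow, norm_zI]
      have := MM_pos Q n
      field_simp
    have h5 := D.right h hg (zz Q n) hz.le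
    have h6 : Real.exp (-(zz Q n)) = Q / n := by
      unfold zz
      rw [neg_sub, Real.exp_sub, Real.exp_log hQ0, Real.exp_log hn0]
    have h7 : ‖h (zz Q n)‖ ≤ S0 * (n : ℝ) ^ (-(99 / 200 : ℝ)) := by
      apply le_of_sq_le_sq _ (by positivity)
      rw [hh, hS0, mul_pow, mul_pow, Real.sq_sqrt (by positivity), Real.sq_sqrt hSS]
      have e1 : ((n : ℝ) ^ (-(99 / 200 : ℝ))) ^ 2 = (n : ℝ) ^ (1 / 100 : ℝ) * (n : ℝ)⁻¹ := by
        rw [← Real.rpow_natCast, ← Real.rpow_mul hn0.le, ← Real.rpow_neg_one, ← Real.rpow_add hn0]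
        norm_num
      rw [e1]
      calc MM Q n * ‖dv h (zz Q n)‖ ^ 2 ≤ (C₀ * (n : ℝ) ^ (1 / 100 : ℝ)) * (K * (Q / n) * SS α y0 Q h) := by
            rw [h6] at h5
            have := MM_pos Q n
            gcongr
        _ = _ := by ring
    have e2 : (n : ℝ) ^ (-(99 / 200 : ℝ)) = ∏ q ∈ pp n, (q : ℝ) ^ (-(99 / 200 : ℝ)) := by
      rw [Real.finsetProd_rpow _ _ (fun q _ => Nat.cast_nonneg q)]
      congr 1
      conv_lhs => rw [← prod_pp hn.1]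
      push_cast
      rfl
    calc _ ≤ ‖mf c Q y0 a n‖ * (S0 * (n : ℝ) ^ (-(99 / 200 : ℝ))) := by gcongr
      _ = S0 * ∏ q ∈ pp n, (‖rho c Q y0 a q‖ * (q : ℝ) ^ (-(99 / 200 : ℝ))) := by
          rw [mf_ne hn.1, norm_prod, e2, Finset.prod_mul_distrib]; ring
      _ ≤ S0 * ∏ q ∈ pp n, z5 Y q := by
          have : ∏ q ∈ pp n, (‖rho c Q y0 a q‖ * (q : ℝ) ^ (-(99 / 200 : ℝ))) ≤ ∏ q ∈ pp n, z5 Y q :=
            Finset.prod_le_prod (fun q _ => by positivity) (fun q _ => hrho q)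
          gcongr
  have hfin : ∀ F : Finset ℕ, ∑ n ∈ F, ‖cc2 c Q y0 a n * h (zz Q n)‖ ≤ 3 * S0 * ζ := by
    intro F
    have hle : ∀ n ∈ F, ‖cc2 c Q y0 a n * h (zz Q n)‖ ≤
        if Cn n ∧ Rg Y n then S0 * gg (z5 Y) (z5 Y) (pp n) else 0 := by
      intro n _
      rw [norm_mul]
      unfold cc2
      by_cases hn : Cn n
      · rw [if_pos hn]
        by_cases hn2 : Rg Y n
        · rw [if_pos ⟨hn, hn2⟩]
          refine (hpt n hn hn2).trans ?_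
          obtain ⟨q, hq⟩ := pp_ne_nil hn.1 hn.2.1
          have := prod_le_gg (z5_nonneg Y) (z5_nonneg Y) hq le_rfl
          gcongr
        · rw [if_neg (fun h => hn2 h.2), mf_not_Rg hn2]; simp
      · rw [if_neg hn, if_neg (fun h => hn h.1)]; simp
    refine (Finset.sum_le_sum hle).trans ?_
    rw [← Finset.sum_filter, ← Finset.mul_sum]
    have h8 := sum_gg_pp (F := F.filter (fun n => Cn n ∧ Rg Y n)) (fun n hn => (Finset.mem_filter.1 hn).2.1.1)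
      (z5_nonneg Y) (z5_nonneg Y) hζ hζ
    have h3 : Real.exp ζ ≤ 3 := by
      have := Real.exp_one_lt_d9
      have h4 := Real.exp_le_exp.2 hζ1
      linarith
    calc _ ≤ S0 * (ζ * Real.exp ζ) := by gcongr
      _ ≤ S0 * (ζ * 3) := by gcongr
      _ = _ := by ring
  have hsn : Summable fun n => ‖cc2 c Q y0 a n * h (zz Q n)‖ :=
    summable_of_sum_le (fun n => norm_nonneg _) hfin
  unfold LL2
  refine (norm_tsum_le_tsum_norm hsn).trans ?_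
  refine (hsn.tsum_le_of_sum_le hfin).trans (le_of_eq ?_)
  rw [hS0]; ring

end

end Pool.Agent.H616.SP.Q
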