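import Pool.Agent.H616.SP.Eul
import Pool.Agent.H616.SQ.Fix

set_option autoImplicit false

/-!
# Multiplicativity, the bound `n^ε` and the Euler product
-/

namespace Pool.Agent.H616.SP.Q

open Filter Topology Polynomial
open Pool.Agent.H483.FE Pool.Agent.H483.SA

section

variable {c : ℕ → ℂ → ℕ → ℂ} {Q y0 : ℝ} {a : ℕ → ℂ}

lemma mf_mul {m n : ℕ} (h : Nat.Coprime m n) : mf c Q y0 a (m * n) = mf c Q y0 a m * mf c Q y0 a n := by
  rcases Nat.eq_zero_or_pos m with rfl | hm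
  · rw [zero_mul, mf_zero, zero_mul]
  rcases Nat.eq_zero_or_pos n with rfl | hn
  · rw [mul_zero, mf_zero, mul_zero]
  rw [mf_ne (Nat.mul_pos hm hn).ne', mf_ne hm.ne', mf_ne hn.ne', pp_mul h, Finset.prod_union (pp_disjoint h)]

lemma mf_pow {p k : ℕ} (hp : p.Prime) (hk : k ≠ 0) :
    mf c Q y0 a (p ^ k) = open Classical in if Big Q y0 p then c p (a p) k else 0 := by
  rw [mf_ne (pow_ne_zero k hp.ne_zero), pp_prime_pow hp hk, Finset.prod_singleton]
  unfold rho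
  rw [minFac_pow hp hk, ex_pow hp hk]
  by_cases hb : Big Q y0 p
  · rw [if_pos ⟨⟨p, k, hp, by omega, rfl⟩, hb⟩, if_pos hb]
  · rw [if_neg (fun h => hb h.2), if_neg hb]

end

/-- the Ramanujan bound -/
lemma mf_ram {c : ℕ → ℂ → ℕ → ℂ} {Q y0 : ℝ} {a : ℕ → ℂ} {m : ℕ}
    (hb : ∀ p k : ℕ, p.Prime → k ≠ 0 → ‖mf c Q y0 a (p ^ k)‖ ≤ ((k : ℝ) + 1) ^ m) {ε : ℝ} (hε : 0 < ε) :
    ∃ C : ℝ, ∀ n : ℕ, 1 ≤ n → ‖mf c Q y0 a n‖ ≤ C * (n : ℝ) ^ ε := by
  obtain ⟨C, hC⟩ := divisor_type m hε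
  refine ⟨C, fun n hn => ?_⟩
  have hn0 : n ≠ 0 := by omega
  refine le_trans ?_ (hC n hn0)
  rw [mf_ne hn0, norm_prod]
  apply Finset.prod_le_prod (fun q _ => norm_nonneg _)
  intro q hq
  obtain ⟨p, k, hp, hk, rfl, -, -⟩ := pp_spec hq
  have h1 := hb p k hp (by omega)
  rw [mf_ne (pow_ne_zero k hp.ne_zero), pp_prime_pow hp (by omega), Finset.prod_singleton] at h1
  rw [ex_pow hp (by omega)]
  exact h1

section

variable {c : ℕ → ℂ → ℕ → ℂ} {Q y0 : ℝ} {a : ℕ → ℂ} {m : ℕ}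

/-- the Euler product -/
theorem euler_poly (al : ℕ → Fin m → ℂ) (hal : ∀ p j, ‖al p j‖ ≤ 1)
    (hloc : ∀ p : ℕ, p.Prime → PowerSeries.mk (fun k => mf c Q y0 a (p ^ k)) *
      ((∏ j, (1 - C (al p j) * X) : ℂ[X]) : PowerSeries ℂ) = 1) {s : ℂ} (hs0 : 0 < s.re)
    (hs : LSeriesSummable (mf c Q y0 a) s) :
    HasProd (fun p : Nat.Primes => ∏ j, (1 - al p j * ((p : ℕ) : ℂ) ^ (-s))⁻¹) (LSeries (mf c Q y0 a) s) := by
  set f := mf c Q y0 a with hf
  have h0 : LSeries.term f s 0 = 0 := LSeries.term_zero _ _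
  have h1 : LSeries.term f s 1 = 1 := by
    rw [LSeries.term_of_ne_zero one_ne_zero, hf, mf_one]; simp
  have hmul : ∀ {m n : ℕ}, Nat.Coprime m n →
      LSeries.term f s (m * n) = LSeries.term f s m * LSeries.term f s n := by
    intro m n h
    rcases Nat.eq_zero_or_pos m with rfl | hm
    · simp
    rcases Nat.eq_zero_or_pos n with rfl | hn
    · simp
    rw [LSeries.term_of_ne_zero (Nat.mul_pos hm hn).ne', LSeries.term_of_ne_zero hm.ne',
      LSeries.term_of_ne_zero hn.ne', hf, mf_mul h]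
    push_cast
    rw [Complex.natCast_mul_natCast_cpow]
    field_simp
  have hprod := EulerProduct.eulerProduct_hasProd h1 hmul hs.norm h0
  have e : (∑' n, LSeries.term f s n) = LSeries f s := rfl
  rw [e] at hprod
  convert! hprod using 1
  funext p
  have hp := p.2
  have hp0 : ((p : ℕ) : ℂ) ≠ 0 := by exact_mod_cast hp.ne_zero
  set x : ℂ := ((p : ℕ) : ℂ) ^ (-s) with hx
  have hx1 : ‖x‖ < 1 := by
    rw [hx, Complex.norm_natCast_cpow_of_pos hp.pos]
    apply Real.rpow_lt_one_of_one_lt_of_neg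
    · exact_mod_cast hp.one_lt
    · simp; exact hs0
  have hterm : ∀ k : ℕ, LSeries.term f s ((p : ℕ) ^ k) = f ((p : ℕ) ^ k) * x ^ k := by
    intro k
    rw [LSeries.term_of_ne_zero (pow_ne_zero _ hp.ne_zero), div_eq_mul_inv]
    congr 1
    rw [hx, ← Complex.cpow_nat_mul, ← Complex.cpow_neg]
    push_cast
    rw [← Complex.cpow_nat_mul' (by simp [Complex.natCast_arg, Real.pi_pos]) (by simp [Complex.natCast_arg, Real.pi_pos.le])]
  have hsum : Summable fun k => ‖f ((p : ℕ) ^ k) * x ^ k‖ := by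
    have h3 : Summable fun k : ℕ => ‖LSeries.term f s ((p : ℕ) ^ k)‖ :=
      hs.norm.comp_injective (Nat.pow_right_injective hp.two_le)
    refine h3.congr fun k => ?_
    rw [hterm]
  have hle := local_eval (hloc p hp) hsum
  have h4 : (∑' k, LSeries.term f s ((p : ℕ) ^ k)) = ∑' k, f ((p : ℕ) ^ k) * x ^ k := by
    congr 1; funext k; exact hterm k
  rw [h4, Finset.prod_inv_distrib]
  have h5 : (∏ j, (1 - C (al p j) * X) : ℂ[X]).eval x = ∏ j, (1 - al p j * x) := by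
    rw [Polynomial.eval_prod]
    simp
  rw [h5] at hle
  exact (eq_inv_of_mul_eq_one_left hle).symm

/-- the Euler product in exponential form -/
theorem euler_exp2 (al : ℕ → Fin m → ℂ) (hal : ∀ p j, ‖al p j‖ ≤ 1)
    (hloc : ∀ p : ℕ, p.Prime → PowerSeries.mk (fun k => mf c Q y0 a (p ^ k)) *
      ((∏ j, (1 - C (al p j) * X) : ℂ[X]) : PowerSeries ℂ) = 1) {s : ℂ} (hs0 : 0 < s.re)
    (hs : LSeriesSummable (mf c Q y0 a) s) :
    HasProd (fun p : Nat.Primes =>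
      Complex.exp (∑' k : ℕ, bcf al ((p : ℕ) ^ (k + 1)) * ((p : ℕ) : ℂ) ^ (-(((k + 1 : ℕ) : ℂ) * s))))
      (LSeries (mf c Q y0 a) s) := by
  convert! euler_poly al hal hloc hs0 hs using 1
  funext p
  have hp := p.2
  have hx1 : ‖((p : ℕ) : ℂ) ^ (-s)‖ < 1 := by
    rw [Complex.norm_natCast_cpow_of_pos hp.pos]
    apply Real.rpow_lt_one_of_one_lt_of_neg
    · exact_mod_cast hp.one_lt
    · simp; exact hs0
  rw [← local_exp (al p) (hal p) hx1]
  congr 1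
  congr 1
  funext k
  rw [bcf_pow al hp (by omega)]
  have e : ((p : ℕ) : ℂ) ^ (-(((k + 1 : ℕ) : ℂ) * s)) = (((p : ℕ) : ℂ) ^ (-s)) ^ (k + 1) := by
    rw [← Complex.cpow_nat_mul]
    congr 1
    push_cast
    ring
  rw [e]

end

end Pool.Agent.H616.SP.Q
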