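import Pool.Agent.H616.SP.Cls

set_option autoImplicit false

/-!
# Multiplicative functions with rational local factors
-/

namespace Pool.Agent.H616.SP.Q

open Filter Topology Polynomial Complex

/-- a multiplicative function with local factors `∏ (1 - β_i X) / ∏ (1 - α_j X)`, `|α_j|, |β_i| ≤ 1` -/
structure RP {m n : ℕ} (f : ℕ → ℂ) (al : ℕ → Fin m → ℂ) (be : ℕ → Fin n → ℂ) : Prop where
  f0 : f 0 = 0
  f1 : f 1 = 1
  mul : ∀ x y : ℕ, Nat.Coprime x y → f (x * y) = f x * f y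
  ala : ∀ p j, ‖al p j‖ ≤ 1
  bea : ∀ p i, ‖be p i‖ ≤ 1
  loc : ∀ p : ℕ, p.Prime → PowerSeries.mk (fun k => f (p ^ k)) *
    ((∏ j, (1 - C (al p j) * X) : ℂ[X]) : PowerSeries ℂ) = ((∏ i, (1 - C (be p i) * X) : ℂ[X]) : PowerSeries ℂ)

/-- growth of the coefficients of rational functions -/
lemma rat_bd {ι κ : Type*} (al : ι → ℂ) (hal : ∀ j, ‖al j‖ ≤ 1) (S : Finset ι) (be : κ → ℂ) (hbe : ∀ j, ‖be j‖ ≤ 1)
    (T : Finset κ) (f : ℕ → ℂ)
    (hf : PowerSeries.mk f * ((∏ j ∈ S, (1 - C (al j) * X) : ℂ[X]) : PowerSeries ℂ) =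
      ((∏ i ∈ T, (1 - C (be i) * X) : ℂ[X]) : PowerSeries ℂ)) (k : ℕ) :
    ‖f k‖ ≤ ((k : ℝ) + 1) ^ (S.card + T.card) := by
  classical
  induction T using Finset.induction_on generalizing f k with
  | empty =>
    rw [Finset.prod_empty, Polynomial.coe_one] at hf
    simpa using inv_prod_bd al hal S f hf k
  | insert i T hi ih =>
    -- the function without the factor
    set E : PowerSeries ℂ := PowerSeries.mk f * PowerSeries.mk (fun k => (be i) ^ k) with hE
    set g : ℕ → ℂ := fun k => PowerSeries.coeff k E with hg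
    have hgm : PowerSeries.mk g = E := by ext k; rw [PowerSeries.coeff_mk]
    have h1 : PowerSeries.mk g * ((∏ j ∈ S, (1 - C (al j) * X) : ℂ[X]) : PowerSeries ℂ) =
        ((∏ i ∈ T, (1 - C (be i) * X) : ℂ[X]) : PowerSeries ℂ) := by
      rw [hgm, hE]
      have h2 := mk_pow_mul (be i)
      calc _ = (PowerSeries.mk f * ((∏ j ∈ S, (1 - C (al j) * X) : ℂ[X]) : PowerSeries ℂ)) *
            PowerSeries.mk (fun k => (be i) ^ k) := by ring
        _ = (((1 - C (be i) * X : ℂ[X]) : PowerSeries ℂ) * ((∏ i ∈ T, (1 - C (be i) * X) : ℂ[X]) : PowerSeries ℂ)) *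
            PowerSeries.mk (fun k => (be i) ^ k) := by
            rw [hf, Finset.prod_insert hi, Polynomial.coe_mul]
        _ = (PowerSeries.mk (fun k => (be i) ^ k) * ((1 - C (be i) * X : ℂ[X]) : PowerSeries ℂ)) *
            ((∏ i ∈ T, (1 - C (be i) * X) : ℂ[X]) : PowerSeries ℂ) := by ring
        _ = _ := by rw [h2, one_mul]
    have h3 := ih g h1
    have h4 : PowerSeries.mk f = PowerSeries.mk g * ((1 - C (be i) * X : ℂ[X]) : PowerSeries ℂ) := by
      rw [hgm, hE, mul_assoc, mk_pow_mul, mul_one]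
    have h5 : ∀ k, f k = g k - be i * (if k = 0 then 0 else g (k - 1)) := by
      intro k
      have h6 := congrArg (PowerSeries.coeff k) h4
      rw [PowerSeries.coeff_mk] at h6
      rw [h6, Polynomial.coe_sub, Polynomial.coe_one, Polynomial.coe_mul, Polynomial.coe_C, Polynomial.coe_X, mul_sub,
        mul_one, map_sub, PowerSeries.coeff_mk]
      have e : PowerSeries.mk g * (PowerSeries.C (be i) * PowerSeries.X) =
          (PowerSeries.C (be i) * PowerSeries.mk g) * PowerSeries.X := by ring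
      rw [e]
      rcases k with _ | k
      · simp
      · rw [PowerSeries.coeff_succ_mul_X, PowerSeries.coeff_C_mul, PowerSeries.coeff_mk, if_neg (by omega),
          Nat.add_sub_cancel]
    rw [h5 k, Finset.card_insert_of_notMem hi]
    rcases Nat.eq_zero_or_pos k with rfl | hk
    · have := h3 0
      simpa using this
    · rw [if_neg hk.ne']
      refine (norm_sub_le _ _).trans ?_
      rw [norm_mul]
      have h6 := h3 k
      have h7 := h3 (k - 1)
      have h8 : ((k - 1 : ℕ) : ℝ) + 1 ≤ (k : ℝ) + 1 := by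
        have : ((k - 1 : ℕ) : ℝ) ≤ k := by exact_mod_cast Nat.sub_le k 1
        linarith
      have hk1 : (1:ℝ) ≤ k := by exact_mod_cast hk
      have h9 : ‖g (k - 1)‖ ≤ ((k : ℝ) + 1) ^ (S.card + T.card) := h7.trans (by gcongr)
      calc ‖g k‖ + ‖be i‖ * ‖g (k - 1)‖ ≤ ((k : ℝ) + 1) ^ (S.card + T.card) +
            1 * ((k : ℝ) + 1) ^ (S.card + T.card) := by
            have := hbe i
            gcongr
        _ ≤ ((k : ℝ) + 1) ^ (S.card + T.card) * ((k : ℝ) + 1) := by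
            have : 0 ≤ ((k : ℝ) + 1) ^ (S.card + T.card) := by positivity
            nlinarith
        _ = _ := by rw [← pow_succ]; rfl

section

variable {m n : ℕ} {f : ℕ → ℂ} {al : ℕ → Fin m → ℂ} {be : ℕ → Fin n → ℂ}

lemma RP.isMul (h : RP f al be) : (af f h.f0).IsMultiplicative :=
  ⟨h.f1, fun {a b} hc => h.mul a b hc⟩

lemma RP.pow_bd (h : RP f al be) {p : ℕ} (hp : p.Prime) (k : ℕ) : ‖f (p ^ k)‖ ≤ ((k : ℝ) + 1) ^ (m + n) := by
  have := rat_bd (al p) (h.ala p) Finset.univ (be p) (h.bea p) Finset.univ (fun k => f (p ^ k)) (h.loc p hp) k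
  simpa using this

/-- the bound `n^ε` -/
lemma RP.ram (h : RP f al be) : ∀ ε : ℝ, 0 < ε → ∃ C : ℝ, ∀ n : ℕ, 1 ≤ n → ‖f n‖ ≤ C * (n : ℝ) ^ ε := by
  intro ε hε
  obtain ⟨C, hC⟩ := divisor_type (m + n) hε
  refine ⟨C, fun k hk => ?_⟩
  have hk0 : k ≠ 0 := by omega
  refine le_trans ?_ (hC k hk0)
  have h1 : f k = k.factorization.prod fun p e => f (p ^ e) := h.isMul.multiplicative_factorization _ hk0
  rw [h1, prod_pp' k (fun q => ((ex q : ℝ) + 1) ^ (m + n)), Finsupp.prod, norm_prod, Nat.support_factorization]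
  apply Finset.prod_le_prod (fun q _ => norm_nonneg _)
  intro p hp
  rw [ex_pow (Nat.prime_of_mem_primeFactors hp) (fac_pos hp)]
  exact h.pow_bd (Nat.prime_of_mem_primeFactors hp) _

lemma RP.summ (h : RP f al be) {s : ℂ} (hs : 1 < s.re) : LSeriesSummable f s := by
  obtain ⟨C, hC⟩ := h.ram ((s.re - 1) / 2) (by linarith)
  refine LSeriesSummable_of_le_const_mul_rpow (x := 1 + (s.re - 1) / 2) (by linarith) ⟨C, fun k hk => ?_⟩
  have := hC k (Nat.one_le_iff_ne_zero.2 hk)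
  rwa [show (1 + (s.re - 1) / 2 - 1 : ℝ) = (s.re - 1) / 2 by ring]

/-- evaluation of a formal identity -/
lemma local_eval2 {f : ℕ → ℂ} {R T : ℂ[X]} (hf : PowerSeries.mk f * (R : PowerSeries ℂ) = (T : PowerSeries ℂ)) {x : ℂ}
    (hs : Summable fun k => ‖f k * x ^ k‖) : (∑' k, f k * x ^ k) * R.eval x = T.eval x := by
  have hR : ∀ R : ℂ[X], Summable fun k => ‖R.coeff k * x ^ k‖ := by
    intro R
    apply summable_of_ne_finset_zero (s := R.support)
    intro k hk
    rw [Polynomial.notMem_support_iff.1 hk]; simp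
  have h1 : ∀ R : ℂ[X], ∑' k, R.coeff k * x ^ k = R.eval x := by
    intro R
    rw [Polynomial.eval_eq_sum, Polynomial.sum, tsum_eq_sum (s := R.support)]
    intro k hk
    rw [Polynomial.notMem_support_iff.1 hk]; simp
  rw [← h1 R, ← h1 T, tsum_mul_tsum_eq_tsum_sum_antidiagonal_of_summable_norm hs (hR R)]
  congr 1
  funext n
  have h3 := congrArg (PowerSeries.coeff n) hf
  rw [PowerSeries.coeff_mul] at h3
  simp only [PowerSeries.coeff_mk, Polynomial.coeff_coe] at h3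
  calc _ = ∑ kl ∈ Finset.HasAntidiagonal.antidiagonal n, (f kl.1 * R.coeff kl.2) * x ^ n := by
        apply Finset.sum_congr rfl
        intro kl hkl
        rw [← Finset.HasAntidiagonal.mem_antidiagonal.1 hkl, pow_add]
        ring
    _ = _ := by rw [← Finset.sum_mul, h3]

/-- the Euler product -/
theorem RP.euler (h : RP f al be) {s : ℂ} (hs0 : 0 < s.re) (hs : LSeriesSummable f s) :
    HasProd (fun p : Nat.Primes => (∏ i, (1 - be p i * ((p : ℕ) : ℂ) ^ (-s))) *
      ∏ j, (1 - al p j * ((p : ℕ) : ℂ) ^ (-s))⁻¹) (LSeries f s) := by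
  have h0 : LSeries.term f s 0 = 0 := LSeries.term_zero _ _
  have h1 : LSeries.term f s 1 = 1 := by
    rw [LSeries.term_of_ne_zero one_ne_zero, h.f1]; simp
  have hmul : ∀ {m n : ℕ}, Nat.Coprime m n →
      LSeries.term f s (m * n) = LSeries.term f s m * LSeries.term f s n := by
    intro m n hc
    rcases Nat.eq_zero_or_pos m with rfl | hm
    · simp
    rcases Nat.eq_zero_or_pos n with rfl | hn
    · simp
    rw [LSeries.term_of_ne_zero (Nat.mul_pos hm hn).ne', LSeries.term_of_ne_zero hm.ne',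
      LSeries.term_of_ne_zero hn.ne', h.mul _ _ hc]
    push_cast
    rw [Complex.natCast_mul_natCast_cpow]
    field_simp
  have hprod := EulerProduct.eulerProduct_hasProd h1 hmul hs.norm h0
  have e : (∑' n, LSeries.term f s n) = LSeries f s := rfl
  rw [e] at hprod
  convert! hprod using 1
  funext p
  have hp := p.2
  set x : ℂ := ((p : ℕ) : ℂ) ^ (-s) with hx
  have hx1 : ‖x‖ < 1 := by
    rw [hx, Complex.norm_natCast_cpow_of_pos hp.pos]
    apply Real.rpow_lt_one_of_one_lt_of_neg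
    · exact_mod_cast hp.one_lt
    · simp; exact hs0
  have hterm : ∀ k : ℕ, LSeries.term f s ((p : ℕ) ^ k) = f ((p : ℕ) ^ k) * x ^ k := by
    intro k
    rw [LSeries.term_of_ne_zero (pow_ne_zero _ hp.ne_zero), div_eq_mul_inv]
    congr 1
    rw [hx, ← Complex.cpow_nat_mul, ← Complex.cpow_neg]
    push_cast
    rw [← Complex.cpow_nat_mul' (by simp [Complex.natCast_arg, Real.pi_pos]) (by simp [Complex.natCast_arg, Real.pi_pos.le])]
  have hsum : Summable fun k => ‖f ((p : ℕ) ^ k) * x ^ k‖ := by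
    have h3 : Summable fun k : ℕ => ‖LSeries.term f s ((p : ℕ) ^ k)‖ :=
      hs.norm.comp_injective (Nat.pow_right_injective hp.two_le)
    refine h3.congr fun k => ?_
    rw [hterm]
  have hle := local_eval2 (h.loc p hp) hsum
  have h4 : (∑' k, LSeries.term f s ((p : ℕ) ^ k)) = ∑' k, f ((p : ℕ) ^ k) * x ^ k := by
    congr 1; funext k; exact hterm k
  rw [h4, Finset.prod_inv_distrib]
  have h5 : ∀ {q : ℕ} (al : Fin q → ℂ), (∏ j, (1 - C (al j) * X) : ℂ[X]).eval x = ∏ j, (1 - al j * x) := by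
    intro q al
    rw [Polynomial.eval_prod]
    simp
  rw [h5, h5] at hle
  have hne : ∏ j, (1 - al p j * x) ≠ 0 := by
    rw [Finset.prod_ne_zero_iff]
    intro j _ h6
    have h7 : al p j * x = 1 := by linear_combination -h6
    have h8 : ‖al p j * x‖ < 1 := by
      rw [norm_mul]
      calc _ ≤ 1 * ‖x‖ := by
            have := h.ala p j
            gcongr
        _ < 1 := by rw [one_mul]; exact hx1
    rw [h7] at h8
    simp at h8
  rw [← hle, mul_assoc, mul_inv_cancel₀ hne, mul_one]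

/-- the coefficients of the logarithm -/
noncomputable def bcq (al : ℕ → Fin m → ℂ) (be : ℕ → Fin n → ℂ) (k : ℕ) : ℂ := bcf al k - bcf be k

/-- the Euler product in exponential form -/
theorem RP.exp (h : RP f al be) {s : ℂ} (hs0 : 0 < s.re) (hs : LSeriesSummable f s) :
    HasProd (fun p : Nat.Primes =>
      Complex.exp (∑' k : ℕ, bcq al be ((p : ℕ) ^ (k + 1)) * ((p : ℕ) : ℂ) ^ (-(((k + 1 : ℕ) : ℂ) * s))))
      (LSeries f s) := by
  convert! h.euler hs0 hs using 1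
  funext p
  have hp := p.2
  set x : ℂ := ((p : ℕ) : ℂ) ^ (-s) with hx
  have hx1 : ‖x‖ < 1 := by
    rw [hx, Complex.norm_natCast_cpow_of_pos hp.pos]
    apply Real.rpow_lt_one_of_one_lt_of_neg
    · exact_mod_cast hp.one_lt
    · simp; exact hs0
  have hxk : ∀ k : ℕ, ((p : ℕ) : ℂ) ^ (-(((k + 1 : ℕ) : ℂ) * s)) = x ^ (k + 1) := by
    intro k
    rw [hx, ← Complex.cpow_nat_mul]
    congr 1
    push_cast
    ring
  have hsm : ∀ {q : ℕ} (ga : Fin q → ℂ), (∀ j, ‖ga j‖ ≤ 1) →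
      Summable fun k : ℕ => (∑ j, ga j ^ (k + 1)) / ((k + 1 : ℕ) : ℂ) * x ^ (k + 1) := by
    intro q ga hga
    have hg : Summable fun k : ℕ => (q : ℝ) * ‖x‖ ^ (k + 1) :=
      ((summable_nat_add_iff 1).2 (summable_geometric_of_lt_one (norm_nonneg x) hx1)).mul_left _
    refine Summable.of_norm_bounded hg fun k => ?_
    rw [norm_mul, norm_pow]
    gcongr
    rw [norm_div, Complex.norm_natCast]
    have hk1 : (1:ℝ) ≤ ((k + 1 : ℕ) : ℝ) := by exact_mod_cast Nat.le_add_left 1 k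
    have h1 : ‖∑ j, ga j ^ (k + 1)‖ ≤ q := by
      refine (norm_sum_le _ _).trans ?_
      calc ∑ j : Fin q, ‖ga j ^ (k + 1)‖ ≤ ∑ _j : Fin q, (1:ℝ) := by
            apply Finset.sum_le_sum
            intro j _
            rw [norm_pow]
            exact pow_le_one₀ (norm_nonneg _) (hga j)
        _ = q := by simp
    calc _ ≤ ‖∑ j, ga j ^ (k + 1)‖ / 1 := by gcongr
      _ ≤ q := by rw [div_one]; exact h1
  have e1 : ∑' k : ℕ, bcq al be ((p : ℕ) ^ (k + 1)) * ((p : ℕ) : ℂ) ^ (-(((k + 1 : ℕ) : ℂ) * s)) =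
      ∑' k : ℕ, (∑ j, al p j ^ (k + 1)) / ((k + 1 : ℕ) : ℂ) * x ^ (k + 1) -
      ∑' k : ℕ, (∑ j, be p j ^ (k + 1)) / ((k + 1 : ℕ) : ℂ) * x ^ (k + 1) := by
    rw [← (hsm (al p) (h.ala p)).tsum_sub (hsm (be p) (h.bea p))]
    congr 1
    funext k
    unfold bcq
    rw [bcf_pow al hp (by omega), bcf_pow be hp (by omega), hxk]
    ring
  rw [e1, Complex.exp_sub, local_exp (al p) (h.ala p) hx1, local_exp (be p) (h.bea p) hx1, Finset.prod_inv_distrib,
    Finset.prod_inv_distrib, div_inv_eq_mul, mul_comm]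

lemma bcq_le (h : RP f al be) {p k : ℕ} (hp : p.Prime) (hk : k ≠ 0) : ‖bcq al be (p ^ k)‖ ≤ m + n := by
  unfold bcq
  refine (norm_sub_le _ _).trans ?_
  exact add_le_add (bcf_le h.ala hp hk) (bcf_le h.bea hp hk)

/-- membership in the Selberg class -/
theorem RP.isSel (h : RP f al be)
    (hc : ∃ (m : ℕ) (G : ℂ → ℂ), Differentiable ℂ G ∧ (∃ A B : ℝ, ∀ z : ℂ, ‖G z‖ ≤ A * Real.exp (‖z‖ ^ B)) ∧
    (∀ s : ℂ, 1 < s.re → G s = (s - 1) ^ m * LSeries f s) ∧
    ∃ (Q : ℝ) (d : ℕ) (α : Fin d → ℝ) (r : Fin d → ℂ) (ε : ℂ), 0 < Q ∧ (∀ j, 0 < α j) ∧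
      (∀ j, 0 ≤ (r j).re) ∧ ‖ε‖ = 1 ∧
      ∀ s : ℂ, s ≠ 0 → s ≠ 1 → NoPole d α r s → NoPole d α r (1 - starRingEnd ℂ s) →
        Phi m G Q d α r s = ε * starRingEnd ℂ (Phi m G Q d α r (1 - starRingEnd ℂ s))) : IsSel (af f h.f0) := by
  refine ⟨h.f1, fun s hs => h.summ hs, hc, h.ram, bcq al be, 0, m + n, by norm_num, fun p l hp hl => ?_, fun s hs => ?_⟩
  · rw [Real.rpow_zero, mul_one]
    exact bcq_le h hp (by omega)
  · exact h.exp (by linarith) (h.summ hs)

end

end Pool.Agent.H616.SP.Q
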