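import Pool.Agent.H483.ZP.Gfun
import Pool.Agent.H616.SQ.Rat
import Pool.Agent.H616.SQ.Eul
import Pool.Agent.H616.SQ.Dat3

set_option autoImplicit false

/-!
# The completed function of a product with poles at the zeros of `ζ`
-/

namespace Pool.Agent.H616.SP.Q

open MeasureTheory Set Filter Topology Complex FourierTransform
open Pool.Agent.H336R4.PF Pool.Agent.H483.FE Pool.Agent.H483.SA Pool.Agent.H483.ZP Pool.Agent.H902R3.PZ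
open scoped ComplexConjugate

/-- **The completed functions.** -/
theorem completedQ {γ X : ℂ → ℂ} {α y0 K Q : ℝ} (A : Adm γ α) (hQ : 0 < Q) (D : Dt γ α y0 K Q)
    (hE : En2 γ α y0 K Q) (hK : 0 < K) (hy0 : y0 ≤ 0) (Pr : (ℕ → ℂ) → Prop)
    (hrel : ∃ R : ℝ, 0 < R ∧ ∀ v : L2, ‖v‖ ≤ R → ∃ f : ℕ → ℂ, Pr f ∧ f 0 = 0 ∧
      (Summable fun n : ℕ => ‖f n‖ ^ 2 * (n : ℝ) ^ (-(2 * α))) ∧
      ∀ h, ∀ hg : Good γ h, HasSum (fun n : ℕ => (f n * h (zz Q n)).re) (inner ℝ v (TS A hQ D ⟨h, hg⟩)))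
    (hγ : ∀ s : ℂ, 0 < s.re → γ s ≠ 0) (hX : Differentiable ℂ X) (hXs : ∀ s, X (1 - conj s) = conj (X s)) (hXb : SB X)
    (hX1 : ∃ s, X s ≠ 0) :
    ∃ (f : ℕ → ℂ) (Λ : ℂ → ℂ), Pr f ∧ f 0 = 0 ∧
      (Summable fun n : ℕ => ‖f n‖ ^ 2 * (n : ℝ) ^ (-(2 * α))) ∧
      Differentiable ℂ Λ ∧ (∀ s, Λ (1 - conj s) = conj (Λ s)) ∧ SB Λ ∧
      (∀ s : ℂ, 1 / 2 + α < s.re → LSeriesSummable f s ∧ Λ s = (Q : ℂ) ^ s * (γ s * X s) * LSeries f s) ∧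
      ∀ ρ : ℂ, X ρ = 0 → |ρ.re - 1 / 2| < α → Λ ρ ≠ 0 := by
  have hα := A.pos
  have hα2 := A.lt
  obtain ⟨R, hR, hrel⟩ := hrel
  have A1 := adm_mul A hX hXs hXb
  set T := TS A hQ D with hT
  set M : Submodule ℝ L2 := ((GS A1).comap (GS A).subtype).map T with hM
  set Z : Set ℂ := {ρ | X ρ = 0} ∩ {ρ | |ρ.re - 1 / 2| < α} with hZ
  have hZc : Z.Countable := (zeros_countable hX hX1).mono inter_subset_left
  have : Countable Z := hZc.to_subtype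
  have hkg : ∀ ρ : Z, Good γ (gof γ (kk X ρ)) := fun ρ =>
    gof_good A (kk_diff hX ρ) (kk_SB hX hXb ρ) (kk_sym hX hXs ρ.2.1)
  obtain ⟨v, hvM, hvR, hv⟩ := hilb M (fun ρ : Z => T ⟨gof γ (kk X ρ), hkg ρ⟩) (by
    intro ρ
    obtain ⟨θ, hθ, h⟩ := sep A hQ D hE hK hy0 hγ hX hXs hXb hX1 ρ.2.2 ρ.2.1 (hkg ρ)
      (fun σ hσ y => gof_rep A (kk_diff hX ρ) (kk_SB hX hXb ρ) hσ y)
    refine ⟨θ, hθ, ?_⟩
    rintro _ ⟨k, hk, rfl⟩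
    exact h (k : ℝ → ℂ) hk) hR
  obtain ⟨f, hf1, hf0, ha4, ha5⟩ := hrel v hvR
  have hr : ∀ h, Good (fun s => γ s * X s) h → HasSum (fun n : ℕ => (f n * h (zz Q n)).re) 0 := by
    intro h hh
    have h1 := ha5 h (good_mul hX hXs hXb hh)
    have h2 : inner ℝ v (T ⟨h, good_mul hX hXs hXb hh⟩) = 0 := by
      rw [real_inner_comm]
      exact (Submodule.mem_orthogonal M v).1 hvM _ ⟨⟨h, good_mul hX hXs hXb hh⟩, hh, rfl⟩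
    rw [h2] at h1
    exact h1
  obtain ⟨Λ, hΛd, hΛf, hΛb, hΛs⟩ := core_of (adm_scale A1 hQ) hf0 ha4 (fun h hg => by
    have h1 := hr _ (good_scale hQ hg)
    refine h1.congr_fun fun n => ?_
    unfold zz
    simp)
  have hsym : ∀ s, Λ (1 - conj s) = conj (Λ s) := by
    intro s
    have := hΛf (1 - conj s)
    rw [cc_eq] at this
    exact this
  have hser : ∀ s : ℂ, 1 / 2 + α < s.re →
      LSeriesSummable f s ∧ Λ s = (Q : ℂ) ^ s * (γ s * X s) * LSeries f s := hΛs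
  refine ⟨f, Λ, hf1, hf0, ha4, hΛd, hsym, hΛb, hser, ?_⟩
  intro ρ hXρ hρ hΛρ
  have hab := abs_lt.1 hρ
  have h1 := lemN A hQ hf0 ha4 hX hXs hXb hΛd hsym hΛb (fun s hs => (hser s hs).2) (ρ := ρ) (by linarith)
    (by linarith) hXρ hΛρ (g := gof γ (kk X ρ))
    (fun σ hσ y => gof_rep A (kk_diff hX ρ) (kk_SB hX hXb ρ) hσ y)
  have h2 := ha5 _ (hkg ⟨ρ, hXρ, hρ⟩)
  exact hv ⟨ρ, hXρ, hρ⟩ (h2.unique h1)

/-- a function with the prescribed local behaviour -/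
structure LF (c : ℕ → ℂ → ℕ → ℂ) (f : ℕ → ℂ) (a : ℕ → ℂ) (P0 : ℝ) : Prop where
  f0 : f 0 = 0
  f1 : f 1 = 1
  mul : ∀ x y : ℕ, Nat.Coprime x y → f (x * y) = f x * f y
  big : ∀ p : ℕ, p.Prime → P0 < p → ∀ k, f (p ^ k) = c p (a p) k
  small : ∀ p : ℕ, p.Prime → (p : ℝ) ≤ P0 → ∀ k, k ≠ 0 → f (p ^ k) = 0
  abd : ∀ p, ‖a p‖ ≤ 1
  dec : ∃ C : ℝ, ∀ p : ℕ, ‖a p‖ ^ 2 ≤ C * (p : ℝ) ^ (4 * (77 / 400 : ℝ) - 1)
  val : ∀ p : ℕ, p.Prime → f p = a p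

lemma LF_mf {c : ℕ → ℂ → ℕ → ℂ} {A : ℝ} (hc : Loc c A) {Q y0 : ℝ} {a : ℕ → ℂ} (ha0 : ∀ p, ¬ Big Q y0 p → a p = 0)
    (ha : ∀ p, ‖a p‖ ≤ 1) (hd : ∃ C : ℝ, ∀ p : ℕ, ‖a p‖ ^ 2 ≤ C * (p : ℝ) ^ (4 * (77 / 400 : ℝ) - 1)) :
    LF c (mf c Q y0 a) a (Q * Real.exp y0) := by
  refine ⟨mf_zero _ _ _ _, mf_one _ _ _ _, fun x y h => mf_mul h, fun p hp hlt k => ?_, fun p hp hle k hk => ?_, ha, hd,
    fun p hp => ?_⟩
  · rcases Nat.eq_zero_or_pos k with rfl | hk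
    · rw [pow_zero, mf_one, hc.zero]
    · rw [mf_pow hp hk.ne', if_pos ⟨hp, hlt⟩]
  · rw [mf_pow hp hk, if_neg (fun h => absurd h.2 (not_lt.2 hle))]
  · have h2 := mf_pow (c := c) (Q := Q) (y0 := y0) (a := a) hp one_ne_zero
    rw [pow_one] at h2
    rw [h2]
    split_ifs with hb
    · exact hc.one p (a p)
    · exact (ha0 p hb).symm

/-- **The family with poles at the zeros of `ζ`.** -/
theorem family_pole {r : ℕ} {lam : Fin r → ℝ} {mu : Fin r → ℂ} (hl : ∀ j, 0 < lam j) (hm : ∀ j, 0 ≤ (mu j).re) {m : ℕ}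
    (hm1 : 1 ≤ m) (h1 : (m : ℝ) + 400 / 77 < 2 * ∑ j, lam j) {c : ℕ → ℂ → ℕ → ℂ} {A : ℝ} (hc : Loc c A) :
    ∃ Q₀ : ℝ, 1 ≤ Q₀ ∧ ∀ Q : ℝ, Q₀ ≤ Q → ∀ e : ℂ, ‖e‖ = 1 → ∃ (f a : ℕ → ℂ) (P0 : ℝ) (Λ : ℂ → ℂ),
      LF c f a P0 ∧
      (Summable fun n : ℕ => ‖f n‖ ^ 2 * (n : ℝ) ^ (-(2 * (77 / 400 : ℝ)))) ∧
      Differentiable ℂ Λ ∧ (∀ s, Λ (1 - conj s) = conj (Λ s)) ∧ SB Λ ∧
      (∀ s : ℂ, 1 / 2 + (77 / 400 : ℝ) < s.re → LSeriesSummable f s ∧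
        Λ s = (Q : ℂ) ^ s * (gm e lam mu s * (s * Zf s) ^ m) * LSeries f s) ∧
      ∀ ρ : ℂ, riemannZeta ρ = 0 → |ρ.re - 1 / 2| < (77 / 400 : ℝ) → Λ ρ ≠ 0 := by
  set α : ℝ := 77 / 400 with hαdef
  have hα0 : 0 < α := by rw [hαdef]; norm_num
  have hα2 : α < 1 / 2 := by rw [hαdef]; norm_num
  have h1' : 1 < (∑ j, lam j - m / 2) * (2 * α) := by
    rw [hαdef]
    linarith
  have hA : ∀ c : ℂ, c ≠ 0 → Adm (g2 c lam mu m) α := fun c hc => g2_Adm hc hl hm m hα0 hα2 h1'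
  obtain ⟨C, hC, hR⟩ := g2_Rho one_ne_zero hl hm m hα0 hα2 h1'
  obtain ⟨y0, K, Q₁, hy0, hK, hQ₁, hdat⟩ := data3 (α := α) (E := 50 * (4 * C ^ 2)) (θ := 0.615) hα0
    (by rw [hαdef]; norm_num) (by positivity) (by norm_num) (by norm_num) (by rw [hαdef]; norm_num) pi_main
  obtain ⟨Q₂, hQ₂, hrel⟩ := relations3 (α := α) (y0 := y0) (K := K) hc hαdef.ge (by rw [hαdef]; norm_num) hK
  refine ⟨max Q₁ Q₂, hQ₁.trans (le_max_left _ _), fun Q hQ e he => ?_⟩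
  have hQ1 : 1 ≤ Q := (hQ₁.trans (le_max_left _ _)).trans hQ
  have hQ0 : 0 < Q := by linarith
  have he0 : e ≠ 0 := by rintro rfl; simp at he
  have hAc := hA e he0
  have hRc : Rho (g2 e lam mu m) α C := rho_unit he (fun s => g2_mul e lam mu m s) hR
  obtain ⟨hD, hE⟩ := hdat Q ((le_max_left _ _).trans hQ) (g2 e lam mu m) (by
    intro h hg
    obtain ⟨f', g1, g2, g3, g4, g5⟩ := dv_energy hAc hC hRc h hg
    exact ⟨f', ⟨g1, g2, g3, g4, g5⟩⟩)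
  obtain ⟨R₁, hR₁, hr⟩ := hrel Q ((le_max_right _ _).trans hQ) _ hAc hQ0 hD
  obtain ⟨f, Λ, ⟨a, k1⟩, -, k3, k4, k5, k6, k7, k8⟩ := completedQ (X := XX m) hAc hQ0 hD.toDt hE hK hy0
    (fun f => ∃ a, LF c f a (Q * Real.exp y0))
    ⟨R₁, hR₁, fun v hv => by
      obtain ⟨a, ha1, ha2, ha3, -, ha4, ha5⟩ := hr v hv
      exact ⟨mf c Q y0 a, ⟨a, LF_mf hc ha1 ha2 ha3⟩, mf_zero _ _ _ _, ha4, ha5⟩⟩
    (fun s hs => g2_ne he0 hl hm m hs) (XX_diff m) (XX_sym m)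
    (XX_SB m) ⟨1, by rw [XX_one]; exact one_ne_zero⟩
  refine ⟨f, a, Q * Real.exp y0, Λ, k1, k3, k4, k5, k6, fun s hs => ?_, fun ρ hρ hρ2 => ?_⟩
  · have h2 := k7 s hs
    have h3 := g1_eq e lam mu m (s := s) (by linarith)
    unfold g1 at h3
    rw [h3] at h2
    exact h2
  · refine k8 ρ (XX_zero hm1 ?_ hρ) hρ2
    have := (abs_lt.1 hρ2).1
    linarith

/-- **The family without poles.** -/
theorem family_entire {r : ℕ} {lam : Fin r → ℝ} {mu : Fin r → ℂ} (hl : ∀ j, 0 < lam j) (hm : ∀ j, 0 ≤ (mu j).re)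
    (h1 : 400 / 77 < 2 * ∑ j, lam j) {c : ℕ → ℂ → ℕ → ℂ} {A : ℝ} (hc : Loc c A) :
    ∃ Q₀ : ℝ, 1 ≤ Q₀ ∧ ∀ Q : ℝ, Q₀ ≤ Q → ∀ ω : ℂ, ‖ω‖ = 1 → ∃ (f a : ℕ → ℂ) (P0 : ℝ) (G : ℂ → ℂ),
      LF c f a P0 ∧ Differentiable ℂ G ∧ Gr G ∧
      (∀ s : ℂ, 277 / 400 < s.re → LSeriesSummable f s ∧ G s = LSeries f s) ∧
      ∀ s : ℂ, NoPole r lam mu s → NoPole r lam mu (1 - conj s) →
        Phi 0 G Q r lam mu s = ω * conj (Phi 0 G Q r lam mu (1 - conj s)) := by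
  set α : ℝ := 77 / 400 with hαdef
  have hα0 : 0 < α := by rw [hαdef]; norm_num
  have hα2 : α < 1 / 2 := by rw [hαdef]; norm_num
  have h1' : 1 < (2 * ∑ j, lam j) * α := by
    rw [hαdef]
    have : (400 / 77 : ℝ) * (77 / 400) = 1 := by norm_num
    nlinarith
  have hA : ∀ c : ℂ, c ≠ 0 → Adm2 (gm c lam mu) α := fun c hc => gm_Adm2 hc hl hm hα0 hα2 (by linarith)
  obtain ⟨C, hC, hR⟩ := (hA 1 one_ne_zero).rho'
  obtain ⟨y0, K, Q₁, -, hK, hQ₁, hdat⟩ := data3 (α := α) (E := 50 * (4 * C ^ 2)) (θ := 0.615) hα0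
    (by rw [hαdef]; norm_num) (by positivity) (by norm_num) (by norm_num) (by rw [hαdef]; norm_num) pi_main
  obtain ⟨Q₂, hQ₂, hrel⟩ := relations3 (α := α) (y0 := y0) (K := K) hc hαdef.ge (by rw [hαdef]; norm_num) hK
  refine ⟨max Q₁ Q₂, hQ₁.trans (le_max_left _ _), fun Q hQ ω hω => ?_⟩
  have hQ1 : 1 ≤ Q := (hQ₁.trans (le_max_left _ _)).trans hQ
  have hQ0 : 0 < Q := by linarith
  obtain ⟨e, he, heω⟩ := exists_root hω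
  have he0 : e ≠ 0 := by rintro rfl; simp at he
  have hAc := (hA e he0).toAdm
  obtain ⟨hD, -⟩ := hdat Q ((le_max_left _ _).trans hQ) _ (by
    intro h hg
    obtain ⟨f', g1, g2, g3, g4, g5⟩ := dv_energy hAc hC (gm_Rho hR he) h hg
    exact ⟨f', ⟨g1, g2, g3, g4, g5⟩⟩)
  obtain ⟨R₁, hR₁, hr⟩ := hrel Q ((le_max_right _ _).trans hQ) _ hAc hQ0 hD
  obtain ⟨a, ha1, ha2, ha3, -, ha4, ha5⟩ := hr 0 (by rw [norm_zero]; exact hR₁.le)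
  obtain ⟨G, hG1, hG2, hG3, hG4⟩ := series_of he0 hQ0 hl hm hAc (mf_zero c Q y0 a) ha4 (fun h hg => by
    have := ha5 h hg
    rwa [inner_zero_left] at this)
  rw [heω] at hG4
  refine ⟨mf c Q y0 a, a, Q * Real.exp y0, G, LF_mf hc ha1 ha2 ha3, hG1, hG2, fun s hs => ?_, fun s k1 k2 => ?_⟩
  · apply hG3
    rw [hαdef]
    linarith
  · have := hG4 s k1 k2
    unfold Phi
    rw [pow_zero, div_one, pow_zero, div_one]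
    calc _ = G s * (Q : ℂ) ^ s * ∏ j, Gamma ((lam j : ℂ) * s + mu j) := by ring
      _ = _ := this
      _ = _ := by congr 2; ring

end Pool.Agent.H616.SP.Q
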