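import Pool.Agent.H616.SQ.Zm

set_option autoImplicit false

/-!
# Local families with a numerator `1 - X` at some of the primes
-/

namespace Pool.Agent.H616.SP.Q

open Filter Topology Polynomial Complex

/-! ### the second cubic -/

/-- the self-inversive cubic -/
noncomputable def cubm (a : ℂ) : ℂ[X] := 1 - C a * X - C (starRingEnd ℂ a) * X ^ 2 + X ^ 3

lemma cubm_coeff (a : ℂ) (i : ℕ) : (cubm a).coeff i =
    if i = 0 then 1 else if i = 1 then -a else if i = 2 then -starRingEnd ℂ a else if i = 3 then 1 else 0 := by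
  unfold cubm
  rw [coeff_add, coeff_sub, coeff_sub, coeff_one, coeff_C_mul, coeff_X, coeff_C_mul, coeff_X_pow, coeff_X_pow]
  rcases i with _ | _ | _ | _ | i <;> simp

lemma PF_cubm : PF cubm 1 := by
  refine ⟨le_rfl, fun a => by rw [cubm_coeff]; simp, fun a => by rw [cubm_coeff]; simp, by rw [cubm_coeff]; simp, ?_, ?_⟩
  · intro a ha i
    rw [cubm_coeff]
    split_ifs <;> simp [ha]
  · intro a b _ _ i
    rw [cubm_coeff, cubm_coeff, one_mul]
    split_ifs
    · simp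
    · rw [neg_sub_neg, norm_sub_rev]
    · rw [neg_sub_neg, ← map_sub, Complex.norm_conj, norm_sub_rev]
    · simp
    · simp

lemma cubm_roots {a : ℂ} (ha : ‖a‖ ≤ 1) : ∃ al : Fin 3 → ℂ, (∀ j, ‖al j‖ = 1) ∧
    cubm a = ∏ j, (1 - C (al j) * X) := by
  obtain ⟨x, y, z, hx, hy, hz, h⟩ := cub_roots (a := -a) (by rwa [norm_neg])
  refine ⟨![-x, -y, -z], ?_, ?_⟩
  · intro j
    fin_cases j
    · simpa using hx
    · simpa using hy
    · simpa using hz
  · have h1 := congrArg (fun p : ℂ[X] => p.comp (-X)) h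
    have e1 : (cub (-a)).comp (-X) = cubm a := by
      unfold cub cubm
      simp only [sub_comp, add_comp, mul_comp, pow_comp, neg_comp, C_comp, X_comp, one_comp, map_neg]
      ring
    beta_reduce at h1
    rw [e1] at h1
    rw [h1, Fin.prod_univ_three]
    simp only [sub_comp, mul_comp, C_comp, X_comp, one_comp, Matrix.cons_val_zero, Matrix.cons_val_one, Matrix.cons_val, map_neg]
    ring

lemma cubm_eval {a : ℂ} (ha : ‖a‖ < 1) : (cubm a).eval 1 ≠ 0 := by
  unfold cubm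
  simp only [eval_add, eval_sub, eval_one, eval_mul, eval_C, eval_X, eval_pow]
  intro h
  have h1 := congrArg Complex.re h
  simp at h1
  have h2 := (Complex.abs_re_le_norm a)
  have h3 := le_abs_self a.re
  linarith

/-! ### the fixed polynomial of degree six -/

/-- the product of the cyclotomic polynomials of order `6` and `12` -/
noncomputable def R6 : ℂ[X] := (1 - X + X ^ 2) * (1 - X ^ 2 + X ^ 4)

lemma R6_eval : R6.eval 1 = 1 := by
  unfold R6
  simp

lemma R6_eq : R6 = 1 - X + X ^ 3 - X ^ 5 + X ^ 6 := by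
  unfold R6; ring

lemma R6_roots : ∃ be : Fin 6 → ℂ, (∀ j, ‖be j‖ = 1) ∧ R6 = ∏ j, (1 - C (be j) * X) := by
  set r3 : ℝ := Real.sqrt 3 with hr3
  have h3 : r3 ^ 2 = 3 := Real.sq_sqrt (by norm_num)
  set w : ℂ := ⟨1 / 2, r3 / 2⟩ with hw
  set v : ℂ := ⟨r3 / 2, 1 / 2⟩ with hv
  have hnw : ‖w‖ = 1 := by
    have : ‖w‖ ^ 2 = 1 := by
      rw [← Complex.normSq_eq_norm_sq, Complex.normSq_mk]
      nlinarith
    nlinarith [norm_nonneg w, this]
  have hnv : ‖v‖ = 1 := by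
    have : ‖v‖ ^ 2 = 1 := by
      rw [← Complex.normSq_eq_norm_sq, Complex.normSq_mk]
      nlinarith
    nlinarith [norm_nonneg v, this]
  set w' := starRingEnd ℂ w with hw'
  set v' := starRingEnd ℂ v with hv'
  have e1 : w + w' = 1 := by
    apply Complex.ext <;> simp [hw', hw]
    norm_num
  have e2 : w * w' = 1 := by
    rw [hw', Complex.mul_conj, Complex.normSq_eq_norm_sq, hnw]; simp
  have e3 : (v + v') ^ 2 = 3 := by
    have : v + v' = (r3 : ℂ) := by
      apply Complex.ext <;> simp [hv', hv]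
    rw [this]
    exact_mod_cast h3
  have e4 : v * v' = 1 := by
    rw [hv', Complex.mul_conj, Complex.normSq_eq_norm_sq, hnv]; simp
  refine ⟨![w, w', v, v', -v, -v'], ?_, ?_⟩
  · intro j
    fin_cases j
    · exact hnw
    · show ‖w'‖ = 1
      rw [hw', Complex.norm_conj, hnw]
    · exact hnv
    · show ‖v'‖ = 1
      rw [hv', Complex.norm_conj, hnv]
    · show ‖-v‖ = 1
      rw [norm_neg, hnv]
    · show ‖-v'‖ = 1
      rw [norm_neg, hv', Complex.norm_conj, hnv]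
  · have f1 : (1 - X + X ^ 2 : ℂ[X]) = (1 - C w * X) * (1 - C w' * X) := by
      have c1 : (C w + C w' : ℂ[X]) = 1 := by rw [← C_add, e1, C_1]
      have c2 : (C w * C w' : ℂ[X]) = 1 := by rw [← C_mul, e2, C_1]
      linear_combination X * c1 - X ^ 2 * c2
    have f2 : (1 - X ^ 2 + X ^ 4 : ℂ[X]) = (1 - C v * X) * (1 - C v' * X) * ((1 - C (-v) * X) * (1 - C (-v') * X)) := by
      have c1 : ((C v + C v') ^ 2 : ℂ[X]) = 3 := by
        rw [← C_add, ← C_pow, e3]; rfl
      have c2 : (C v * C v' : ℂ[X]) = 1 := by rw [← C_mul, e4, C_1]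
      rw [C_neg, C_neg]
      linear_combination (X ^ 2) * c1 - (2 * X ^ 2 + X ^ 4 * (C v * C v' + 1)) * c2
    unfold R6
    rw [f1, f2]
    simp only [Fin.prod_univ_six, Matrix.cons_val_zero, Matrix.cons_val_one, Matrix.cons_val]
    ring

/-! ### convolution of local families -/

/-- the product of a local family with a fixed series -/
noncomputable def cvl (u : ℕ → ℂ) (c : ℂ → ℕ → ℂ) (a : ℂ) (k : ℕ) : ℂ := ∑ i ∈ Finset.range (k + 1), u i * c a (k - i)

lemma mk_cvl (u : ℕ → ℂ) (c : ℂ → ℕ → ℂ) (a : ℂ) :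
    PowerSeries.mk (cvl u c a) = PowerSeries.mk u * PowerSeries.mk (c a) := by
  ext k
  rw [PowerSeries.coeff_mul, PowerSeries.coeff_mk, Finset.Nat.sum_antidiagonal_eq_sum_range_succ_mk]
  simp only [PowerSeries.coeff_mk]
  rfl

lemma sum_pow_le {A B : ℝ} (hA : 0 ≤ A) (hB : 1 ≤ B) (k : ℕ) :
    ∑ i ∈ Finset.range (k + 1), B ^ i * A ^ (k - i) ≤ (B + A) ^ k := by
  rw [add_pow]
  apply Finset.sum_le_sum
  intro i hi
  have h1 : (1:ℝ) ≤ (k.choose i : ℝ) := by
    exact_mod_cast Nat.choose_pos (Nat.lt_succ_iff.1 (Finset.mem_range.1 hi))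
  have h2 : 0 ≤ B ^ i * A ^ (k - i) := by positivity
  nlinarith

lemma Loc_cvl {u : ℕ → ℂ} {B : ℝ} (hB : 1 ≤ B) (u0 : u 0 = 1) (u1 : u 1 = 0) (u2 : u 2 = 0) (hu : ∀ k, ‖u k‖ ≤ B ^ k)
    {c : ℂ → ℕ → ℂ} {A : ℝ} (hc : SP.Loc c A) : SP.Loc (cvl u c) (B + A) := by
  have hA := hc.one_le
  refine ⟨by linarith, fun a => ?_, fun a => ?_, ?_, fun a ha k => ?_, fun a b ha hb k => ?_⟩
  · simp [cvl, u0, hc.zero]
  · simp [cvl, Finset.sum_range_succ, u0, u1, hc.one]
  · simp [cvl, Finset.sum_range_succ, u0, u1, u2, hc.two]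
  · unfold cvl
    refine (norm_sum_le _ _).trans (le_trans (Finset.sum_le_sum fun i _ => ?_) (sum_pow_le (by linarith) hB k))
    rw [norm_mul]
    have h1 := hu i
    have h2 := hc.bd a ha (k - i)
    gcongr
  · unfold cvl
    rw [← Finset.sum_sub_distrib]
    refine (norm_sum_le _ _).trans ?_
    have h3 : ∀ i ∈ Finset.range (k + 1), ‖u i * c a (k - i) - u i * c b (k - i)‖ ≤ B ^ i * A ^ (k - i) * ‖a - b‖ := by
      intro i _
      rw [← mul_sub, norm_mul, mul_assoc]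
      have h1 := hu i
      have h2 := hc.lip a b ha hb (k - i)
      gcongr
    refine (Finset.sum_le_sum h3).trans ?_
    rw [← Finset.sum_mul]
    have := sum_pow_le (A := A) (B := B) (by linarith) hB k
    gcongr

lemma succ_le_two_pow (k : ℕ) : ((k : ℝ) + 1) ≤ 2 ^ k := by
  have := Nat.lt_two_pow_self (n := k)
  exact_mod_cast this

/-- the first series -/
lemma exists_u1 : ∃ u : ℕ → ℂ, u 0 = 1 ∧ u 1 = 0 ∧ u 2 = 0 ∧ (∀ k, ‖u k‖ ≤ 128 ^ k) ∧
    PowerSeries.mk u * (R6 : PowerSeries ℂ) = ((1 - X : ℂ[X]) : PowerSeries ℂ) := by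
  set E : PowerSeries ℂ := ((1 - X : ℂ[X]) : PowerSeries ℂ) * (R6 : PowerSeries ℂ)⁻¹ with hE
  set u : ℕ → ℂ := fun k => PowerSeries.coeff k E with hu
  have hum : PowerSeries.mk u = E := by ext k; rw [PowerSeries.coeff_mk]
  have hR0 : PowerSeries.constantCoeff (R6 : PowerSeries ℂ) ≠ 0 := by
    rw [← PowerSeries.coeff_zero_eq_constantCoeff_apply, Polynomial.coeff_coe, R6_eq]
    simp
  have h1 : PowerSeries.mk u * (R6 : PowerSeries ℂ) = ((1 - X : ℂ[X]) : PowerSeries ℂ) := by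
    rw [hum, hE, mul_assoc, PowerSeries.inv_mul_cancel _ hR0, mul_one]
  have hcoef : ∀ k, ∑ i ∈ Finset.range (k + 1), u i * R6.coeff (k - i) = (1 - X : ℂ[X]).coeff k := by
    intro k
    have h2 := congrArg (PowerSeries.coeff k) h1
    rw [PowerSeries.coeff_mul, Finset.Nat.sum_antidiagonal_eq_sum_range_succ_mk, Polynomial.coeff_coe] at h2
    simpa only [PowerSeries.coeff_mk, Polynomial.coeff_coe] using h2
  have r0 : R6.coeff 0 = 1 := by rw [R6_eq]; simp [coeff_X, coeff_one]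
  have r1 : R6.coeff 1 = -1 := by rw [R6_eq]; simp [coeff_X, coeff_one, coeff_X_pow]
  have r2 : R6.coeff 2 = 0 := by rw [R6_eq]; simp [coeff_X, coeff_one, coeff_X_pow]
  have u0 : u 0 = 1 := by
    have := hcoef 0
    simpa [r0] using this
  have u1 : u 1 = 0 := by
    have := hcoef 1
    simp [Finset.sum_range_succ, r0, r1, u0, coeff_X, coeff_one] at this
    exact this
  have u2 : u 2 = 0 := by
    have := hcoef 2
    simp [Finset.sum_range_succ, r0, r1, r2, u0, u1, coeff_X, coeff_one] at this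
    exact this
  refine ⟨u, u0, u1, u2, fun k => ?_, h1⟩
  obtain ⟨be, hb1, hb2⟩ := R6_roots
  have h2 := rat_bd be (fun j => (hb1 j).le) Finset.univ (fun _ : Fin 1 => (1:ℂ)) (fun _ => by simp) Finset.univ u (by
    rw [← hb2, h1]
    simp) k
  refine h2.trans ?_
  have h3 := succ_le_two_pow k
  have h4 : (Finset.univ : Finset (Fin 6)).card + (Finset.univ : Finset (Fin 1)).card = 7 := by simp
  rw [h4]
  calc ((k : ℝ) + 1) ^ 7 ≤ (2 ^ k) ^ 7 := by gcongr
    _ = 128 ^ k := by rw [← pow_mul, mul_comm, pow_mul]; norm_num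

lemma root5 : ∃ be : Fin 5 → ℂ, (∀ j, ‖be j‖ = 1) ∧ (1 - X ^ 5 : ℂ[X]) = ∏ j, (1 - C (be j) * X) := by
  refine ⟨fun j => Complex.exp (2 * Real.pi * Complex.I / (5 : ℕ)) ^ (j : ℕ), fun j => ?_, one_sub_pow (l := 5) (by norm_num)⟩
  rw [norm_pow]
  have : ‖Complex.exp (2 * Real.pi * Complex.I / (5 : ℕ))‖ = 1 := by
    have e : (2 * Real.pi * Complex.I / (5 : ℕ) : ℂ) = ((2 * Real.pi / (5 : ℕ) : ℝ) : ℂ) * Complex.I := by
      push_cast; ring
    rw [e, Complex.norm_exp_ofReal_mul_I]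
  rw [this, one_pow]

/-- the second series -/
lemma exists_u2 : ∃ u : ℕ → ℂ, u 0 = 1 ∧ u 1 = 0 ∧ u 2 = 0 ∧ (∀ k, ‖u k‖ ≤ 128 ^ k) ∧
    PowerSeries.mk u * ((1 - X ^ 5 : ℂ[X]) : PowerSeries ℂ) = 1 := by
  set E : PowerSeries ℂ := (((1 - X ^ 5 : ℂ[X]) : PowerSeries ℂ))⁻¹ with hE
  set u : ℕ → ℂ := fun k => PowerSeries.coeff k E with hu
  have hum : PowerSeries.mk u = E := by ext k; rw [PowerSeries.coeff_mk]
  have hR0 : PowerSeries.constantCoeff ((1 - X ^ 5 : ℂ[X]) : PowerSeries ℂ) ≠ 0 := by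
    rw [← PowerSeries.coeff_zero_eq_constantCoeff_apply, Polynomial.coeff_coe]
    simp
  have h1 : PowerSeries.mk u * ((1 - X ^ 5 : ℂ[X]) : PowerSeries ℂ) = 1 := by
    rw [hum, hE, PowerSeries.inv_mul_cancel _ hR0]
  have hcoef : ∀ k, ∑ i ∈ Finset.range (k + 1), u i * (1 - X ^ 5 : ℂ[X]).coeff (k - i) = if k = 0 then 1 else 0 := by
    intro k
    have h2 := congrArg (PowerSeries.coeff k) h1
    rw [PowerSeries.coeff_mul, Finset.Nat.sum_antidiagonal_eq_sum_range_succ_mk, PowerSeries.coeff_one] at h2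
    simpa only [PowerSeries.coeff_mk, Polynomial.coeff_coe] using h2
  have r0 : (1 - X ^ 5 : ℂ[X]).coeff 0 = 1 := by simp [coeff_one]
  have r1 : (1 - X ^ 5 : ℂ[X]).coeff 1 = 0 := by simp [coeff_one, coeff_X_pow]
  have r2 : (1 - X ^ 5 : ℂ[X]).coeff 2 = 0 := by simp [coeff_one, coeff_X_pow]
  have u0 : u 0 = 1 := by
    have := hcoef 0
    simpa [r0] using this
  have u1 : u 1 = 0 := by
    have := hcoef 1
    simpa [Finset.sum_range_succ, r0, r1, u0, coeff_one, coeff_X_pow] using this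
  have u2 : u 2 = 0 := by
    have := hcoef 2
    simpa [Finset.sum_range_succ, r0, r1, r2, u0, u1, coeff_one, coeff_X_pow] using this
  refine ⟨u, u0, u1, u2, fun k => ?_, h1⟩
  obtain ⟨be, hb1, hb2⟩ := root5
  have h2 := inv_prod_bd be (fun j => (hb1 j).le) Finset.univ u (by rw [← hb2, h1]) k
  refine h2.trans ?_
  have h3 := succ_le_two_pow k
  have h4 : (Finset.univ : Finset (Fin 5)).card = 5 := by simp
  rw [h4]
  have h5 : (1:ℝ) ≤ 2 ^ k := one_le_pow₀ (by norm_num)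
  calc ((k : ℝ) + 1) ^ 5 ≤ (2 ^ k) ^ 5 := by gcongr
    _ ≤ (2 ^ k) ^ 7 := pow_le_pow_right₀ h5 (by norm_num)
    _ = 128 ^ k := by rw [← pow_mul, mul_comm, pow_mul]; norm_num

/-! ### the local family depending on a set of primes -/

/-- **the local family**: numerator `1 - X` for `p` in `A` -/
theorem exists_loc (A : ℕ → Prop) : ∃ (c : ℕ → ℂ → ℕ → ℂ) (B : ℝ), Loc c B ∧
    (∀ p a, A p → PowerSeries.mk (c p a) * ((R6 * cubm a : ℂ[X]) : PowerSeries ℂ) = ((1 - X : ℂ[X]) : PowerSeries ℂ)) ∧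
    (∀ p a, ¬ A p → PowerSeries.mk (c p a) * (((1 - X ^ 5) * cubm a : ℂ[X]) : PowerSeries ℂ) = 1) := by
  classical
  obtain ⟨u, a0, a1, a2, a3, a4⟩ := exists_u1
  obtain ⟨v, b0, b1, b2, b3, b4⟩ := exists_u2
  have h1 := Loc_cvl (B := 128) (by norm_num) a0 a1 a2 a3 PF_cubm.loc
  have h2 := Loc_cvl (B := 128) (by norm_num) b0 b1 b2 b3 PF_cubm.loc
  refine ⟨fun p => if A p then cvl u (cof cubm) else cvl v (cof cubm), 128 + (2 + 2 * 1), ?_, ?_, ?_⟩
  · refine ⟨h1.one_le, fun p a => ?_, fun p a => ?_, fun p => ?_, fun p a ha k => ?_, fun p a b ha hb k => ?_⟩ <;>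
      beta_reduce <;> split_ifs
    · exact h1.zero a
    · exact h2.zero a
    · exact h1.one a
    · exact h2.one a
    · exact h1.two
    · exact h2.two
    · exact h1.bd a ha k
    · exact h2.bd a ha k
    · exact h1.lip a b ha hb k
    · exact h2.lip a b ha hb k
  · intro p a hp
    beta_reduce
    rw [if_pos hp, mk_cvl, Polynomial.coe_mul, mul_mul_mul_comm, a4, cof_mul (PF_cubm.c0 a), mul_one]
  · intro p a hp
    beta_reduce
    rw [if_neg hp, mk_cvl, Polynomial.coe_mul, mul_mul_mul_comm, b4, cof_mul (PF_cubm.c0 a), mul_one]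

end Pool.Agent.H616.SP.Q
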