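import Pool.Agent.H616.SQ.Std

set_option autoImplicit false

/-!
# Local families with a numerator `1 - w_p X`
-/

namespace Pool.Agent.H616.SP.Q

open Filter Topology Polynomial Complex

lemma PF_cub : PF cub 1 := by
  refine ⟨le_rfl, fun a => by rw [cub_coeff]; simp, fun a => by rw [cub_coeff]; simp, by rw [cub_coeff]; simp, ?_, ?_⟩
  · intro a ha i
    rw [cub_coeff]
    split_ifs <;> simp [ha]
  · intro a b _ _ i
    rw [cub_coeff, cub_coeff, one_mul]
    split_ifs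
    · simp
    · rw [neg_sub_neg, norm_sub_rev]
    · rw [← map_sub, Complex.norm_conj]
    · simp
    · simp

/-- the cubic used at a prime with the numerator `1 - w X` -/
noncomputable def cubx (w : ℂ) : ℂ → ℂ[X] := if 1 ≤ ‖1 + w ^ 3‖ then cubm else cub

lemma PF_cubx (w : ℂ) : PF (cubx w) 1 := by
  unfold cubx
  split_ifs
  · exact PF_cubm
  · exact PF_cub

lemma cubx_roots (w : ℂ) {a : ℂ} (ha : ‖a‖ ≤ 1) : ∃ al : Fin 3 → ℂ, (∀ j, ‖al j‖ = 1) ∧
    cubx w a = ∏ j, (1 - C (al j) * X) := by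
  unfold cubx
  split_ifs
  · exact cubm_roots ha
  · obtain ⟨x, y, z, hx, hy, hz, h⟩ := cub_roots ha
    refine ⟨![x, y, z], ?_, ?_⟩
    · intro j
      fin_cases j
      · exact hx
      · exact hy
      · exact hz
    · rw [h, Fin.prod_univ_three]
      simp

lemma cubx_eval {w a : ℂ} (hw0 : w ≠ 0) (hw : ‖w‖ ≤ 1) (ha : ‖a‖ < 1 / 4) : (cubx w a).eval w⁻¹ ≠ 0 := by
  rcases hw.lt_or_eq with hlt | heq
  · obtain ⟨al, h1, h2⟩ := cubx_roots w (a := a) (by linarith)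
    rw [h2, eval_prod, Finset.prod_ne_zero_iff]
    intro j _ h3
    simp only [eval_sub, eval_one, eval_mul, eval_C, eval_X] at h3
    have h4 : al j * w⁻¹ = 1 := by linear_combination -h3
    have h5 : al j = w := by
      rw [mul_inv_eq_one₀ hw0] at h4
      exact h4
    rw [← h5, h1] at hlt
    exact lt_irrefl _ hlt
  · have hi : ‖w⁻¹‖ = 1 := by rw [norm_inv, heq, inv_one]
    have h1 : ‖a * w⁻¹‖ ≤ 1 / 4 := by rw [norm_mul, hi, mul_one]; exact ha.le
    have h2 : ‖starRingEnd ℂ a * w⁻¹ ^ 2‖ ≤ 1 / 4 := by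
      rw [norm_mul, norm_pow, hi, one_pow, mul_one, Complex.norm_conj]; exact ha.le
    have hw3 : ‖w ^ 3‖ = 1 := by rw [norm_pow, heq, one_pow]
    unfold cubx
    split_ifs with h
    · intro h3
      unfold cubm at h3
      simp only [eval_sub, eval_one, eval_mul, eval_C, eval_X, eval_add, eval_pow] at h3
      have h4 : 1 + w ^ 3 = (a * w⁻¹ + starRingEnd ℂ a * w⁻¹ ^ 2) * w ^ 3 := by
        have h5 : w⁻¹ ^ 3 * w ^ 3 = 1 := by rw [← mul_pow, inv_mul_cancel₀ hw0, one_pow]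
        linear_combination w ^ 3 * h3 - h5
      have h6 : ‖1 + w ^ 3‖ ≤ 1 / 4 + 1 / 4 := by
        rw [h4, norm_mul, hw3, mul_one]
        exact (norm_add_le _ _).trans (add_le_add h1 h2)
      linarith
    · intro h3
      unfold cub at h3
      simp only [eval_sub, eval_one, eval_mul, eval_C, eval_X, eval_add, eval_pow] at h3
      have h4 : 1 - w ^ 3 = (a * w⁻¹ - starRingEnd ℂ a * w⁻¹ ^ 2) * (- w ^ 3) := by
        have h5 : w⁻¹ ^ 3 * w ^ 3 = 1 := by rw [← mul_pow, inv_mul_cancel₀ hw0, one_pow]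
        linear_combination (- w ^ 3) * h3 - h5
      have h6 : ‖1 - w ^ 3‖ ≤ 1 / 4 + 1 / 4 := by
        rw [h4, norm_mul, norm_neg, hw3, mul_one]
        exact (norm_sub_le _ _).trans (add_le_add h1 h2)
      have h7 : ‖(2 : ℂ)‖ ≤ ‖1 + w ^ 3‖ + ‖1 - w ^ 3‖ := by
        have : (2 : ℂ) = (1 + w ^ 3) + (1 - w ^ 3) := by ring
        rw [this]
        exact norm_add_le _ _
      rw [Complex.norm_ofNat] at h7
      linarith

/-! ### the fixed factor -/

/-- `R₆(w X)` -/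
noncomputable def R6w (w : ℂ) : ℂ[X] := R6.comp (C w * X)

lemma R6w_eval {w : ℂ} (hw0 : w ≠ 0) : (R6w w).eval w⁻¹ = 1 := by
  unfold R6w
  rw [eval_comp, eval_mul, eval_C, eval_X, mul_inv_cancel₀ hw0, R6_eval]

lemma R6w_roots : ∃ be : Fin 6 → ℂ, (∀ j, ‖be j‖ = 1) ∧ ∀ w : ℂ, R6w w = ∏ j, (1 - C (be j * w) * X) := by
  obtain ⟨be, h1, h2⟩ := R6_roots
  refine ⟨be, h1, fun w => ?_⟩
  unfold R6w
  rw [h2, Polynomial.prod_comp]
  apply Finset.prod_congr rfl
  intro j _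
  rw [sub_comp, one_comp, mul_comp, C_comp, X_comp, C_mul, mul_assoc]

lemma coe_comp (P : ℂ[X]) (w : ℂ) : ((P.comp (C w * X) : ℂ[X]) : PowerSeries ℂ) = PowerSeries.rescale w (P : PowerSeries ℂ) := by
  ext k
  rw [Polynomial.coeff_coe, Polynomial.comp_C_mul_X_coeff, PowerSeries.coeff_rescale, Polynomial.coeff_coe, mul_comm]

/-- the series `(1 - w X) / R₆(w X)` -/
lemma u1w {u : ℕ → ℂ} (hu : PowerSeries.mk u * (R6 : PowerSeries ℂ) = ((1 - X : ℂ[X]) : PowerSeries ℂ)) (w : ℂ) :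
    PowerSeries.mk (fun k => u k * w ^ k) * (R6w w : PowerSeries ℂ) = ((1 - C w * X : ℂ[X]) : PowerSeries ℂ) := by
  have h1 : PowerSeries.mk (fun k => u k * w ^ k) = PowerSeries.rescale w (PowerSeries.mk u) := by
    ext k
    rw [PowerSeries.coeff_mk, PowerSeries.coeff_rescale, PowerSeries.coeff_mk, mul_comm]
  have h2 : (1 - C w * X : ℂ[X]) = (1 - X : ℂ[X]).comp (C w * X) := by
    rw [sub_comp, one_comp, X_comp]
  rw [h1, h2]
  unfold R6w
  rw [coe_comp, coe_comp, ← map_mul, hu]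

/-! ### the local family -/

/-- **the local family**: numerator `1 - w_p X` -/
theorem exists_locG (w : ℕ → ℂ) (hw : ∀ p, ‖w p‖ ≤ 1) : ∃ (c : ℕ → ℂ → ℕ → ℂ) (B : ℝ), Loc c B ∧
    (∀ p a, w p ≠ 0 → PowerSeries.mk (c p a) * ((R6w (w p) * cubx (w p) a : ℂ[X]) : PowerSeries ℂ) =
      ((1 - C (w p) * X : ℂ[X]) : PowerSeries ℂ)) ∧
    (∀ p a, w p = 0 → PowerSeries.mk (c p a) * (((1 - X ^ 5) * cubm a : ℂ[X]) : PowerSeries ℂ) = 1) := by
  classical
  obtain ⟨u, a0, a1, a2, a3, a4⟩ := exists_u1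
  obtain ⟨v, b0, b1, b2, b3, b4⟩ := exists_u2
  have h1 : ∀ z : ℂ, ‖z‖ ≤ 1 → SP.Loc (cvl (fun k => u k * z ^ k) (cof (cubx z))) (128 + (2 + 2 * 1)) := by
    intro z hz
    refine Loc_cvl (B := 128) (by norm_num) ?_ ?_ ?_ ?_ (PF_cubx z).loc
    · beta_reduce; rw [a0, pow_zero, mul_one]
    · beta_reduce; rw [a1, zero_mul]
    · beta_reduce; rw [a2, zero_mul]
    · intro k
      rw [norm_mul, norm_pow]
      calc ‖u k‖ * ‖z‖ ^ k ≤ 128 ^ k * 1 := by
            have := a3 k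
            have h2 : ‖z‖ ^ k ≤ 1 := pow_le_one₀ (norm_nonneg _) hz
            gcongr
        _ = 128 ^ k := mul_one _
  have h2 := Loc_cvl (B := 128) (by norm_num) b0 b1 b2 b3 PF_cubm.loc
  refine ⟨fun p => if w p = 0 then cvl v (cof cubm) else cvl (fun k => u k * (w p) ^ k) (cof (cubx (w p))), 128 + (2 + 2 * 1), ?_, ?_, ?_⟩
  · refine ⟨h2.one_le, fun p a => ?_, fun p a => ?_, fun p => ?_, fun p a ha k => ?_, fun p a b ha hb k => ?_⟩ <;>
      beta_reduce <;> split_ifs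
    · exact h2.zero a
    · exact (h1 _ (hw p)).zero a
    · exact h2.one a
    · exact (h1 _ (hw p)).one a
    · exact h2.two
    · exact (h1 _ (hw p)).two
    · exact h2.bd a ha k
    · exact (h1 _ (hw p)).bd a ha k
    · exact h2.lip a b ha hb k
    · exact (h1 _ (hw p)).lip a b ha hb k
  · intro p a hp
    beta_reduce
    rw [if_neg hp, mk_cvl, Polynomial.coe_mul, mul_mul_mul_comm, u1w a4, cof_mul ((PF_cubx _).c0 a), mul_one]
  · intro p a hp
    beta_reduce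
    rw [if_pos hp, mk_cvl, Polynomial.coe_mul, mul_mul_mul_comm, b4, cof_mul (PF_cubm.c0 a), mul_one]

end Pool.Agent.H616.SP.Q
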