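import Pool.Agent.H616.SQ.Std

set_option autoImplicit false

/-!
# Non-unique factorisation in every class between the standard class and the polynomial class
-/

namespace Pool.Agent.H616.SP.Q

open Filter Topology Polynomial Complex
open Pool.Agent.H483.UF (S)

/-- cancellation of zeta -/
lemma zt_cancel {a b : ArithmeticFunction ℂ} (h : zt * a = zt * b) : a = b := by
  have h1 : ((ArithmeticFunction.moebius : ArithmeticFunction ℤ) : ArithmeticFunction ℂ) * zt = 1 :=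
    ArithmeticFunction.coe_moebius_mul_coe_zeta
  have h2 := congrArg (fun x => ((ArithmeticFunction.moebius : ArithmeticFunction ℤ) : ArithmeticFunction ℂ) * x) h
  simp only [← mul_assoc, h1, one_mul] at h2
  exact h2

lemma Std_one : Std 1 := by
  refine ⟨SPo_one.1, SPo_one.2.1, 0, 1, ⟨one_pos, 0, fun _ => 1, by fun_prop, ⟨1, 0, fun z => ?_⟩, fun s hs => ?_,
    fun s h1 h2 => ?_⟩, 0, fun p hp => ⟨0, le_rfl, fun _ => rfl, ?_⟩⟩
  · rw [norm_one, one_mul]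
    exact Real.one_le_exp (by positivity)
  · rw [pow_zero, one_mul]
    have e : LSeries (fun n => (1 : ArithmeticFunction ℂ) n) s = LSeries LSeries.delta s := by
      apply LSeries_congr
      intro n hn
      rw [ArithmeticFunction.one_apply]
      rfl
    rw [e, LSeries_delta]
    rfl
  · unfold Lam
    simp
  · have e : (PowerSeries.mk fun i => (1 : ArithmeticFunction ℂ) (p ^ i)) = 1 := by
      ext k
      rw [PowerSeries.coeff_mk, PowerSeries.coeff_one, ArithmeticFunction.one_apply]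
      rcases Nat.eq_zero_or_pos k with rfl | hk
      · simp
      · rw [if_neg (by intro h; exact hk.ne' ((Nat.pow_eq_one.1 h).resolve_left hp.one_lt.ne')), if_neg hk.ne']
    rw [e]
    exact Ul_one

/-- infinitely many primes in both classes -/
lemma primes_mod (x : ℝ) : (∃ p : ℕ, p.Prime ∧ x < p ∧ p % 4 = 1) ∧ ∃ p : ℕ, p.Prime ∧ x < p ∧ ¬ p % 4 = 1 := by
  obtain ⟨n, hn⟩ := exists_nat_ge x
  constructor
  · obtain ⟨p, h1, h2, h3⟩ := Nat.forall_exists_prime_gt_and_modEq (n := n) (q := 4) (a := 1) (by norm_num) (by norm_num)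
    refine ⟨p, h2, ?_, h3⟩
    have : (n : ℝ) < p := by exact_mod_cast h1
    linarith
  · obtain ⟨p, h1, h2, h3⟩ := Nat.forall_exists_prime_gt_and_modEq (n := n) (q := 4) (a := 3) (by norm_num) (by norm_num)
    refine ⟨p, h2, ?_, ?_⟩
    · have : (n : ℝ) < p := by exact_mod_cast h1
      linarith
    · have h4 : p % 4 = 3 := h3
      omega

/-- **The elements.** -/
theorem exists_three : ∃ F₁ F₂ G : ArithmeticFunction ℂ, Std F₁ ∧ Std F₂ ∧ Std G ∧ F₁ * F₂ = zt * G ∧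
    (¬ ∃ K, SPo K ∧ F₁ = zt * K) ∧ (¬ ∃ K, SPo K ∧ F₂ = zt * K) := by
  obtain ⟨H₁, N₁, P₁, a1, a2, a3, a4, a5, a6, a7⟩ := exists_H (fun p => p % 4 = 1)
  obtain ⟨H₂, N₂, P₂, b1, b2, b3, b4, b5, b6, b7⟩ := exists_H (fun p => ¬ p % 4 = 1)
  -- local factors of `ζ H`
  have key : ∀ (A : ℕ → Prop) (H : ArithmeticFunction ℂ) (P0 : ℝ),
      (∀ p : ℕ, p.Prime → P0 < p → A p → ∃ al : Fin 9 → ℂ, (∀ j, ‖al j‖ = 1) ∧
      (PowerSeries.mk fun k => H (p ^ k)) * ((∏ j, (1 - C (al j) * X) : ℂ[X]) : PowerSeries ℂ) =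
        ((1 - X : ℂ[X]) : PowerSeries ℂ)) →
      (∀ p : ℕ, p.Prime → (p : ℝ) ≤ P0 → (PowerSeries.mk fun k => H (p ^ k)) = 1) →
      ∀ p : ℕ, p.Prime → A p → ∃ k : ℕ, k ≤ 9 ∧ (P0 < p → k = 9) ∧ Ul k (PowerSeries.mk fun i => (zt * H) (p ^ i)) := by
    intro A H P0 h1 h2 p hp hA
    rw [mk_mul _ _ hp]
    rcases lt_or_ge P0 (p : ℝ) with hlt | hle
    · obtain ⟨al, e1, e2⟩ := h1 p hp hlt hA
      refine ⟨9, le_rfl, fun _ => rfl, al, e1, ?_⟩
      rw [mul_assoc, e2]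
      have := zt_loc hp 1
      rwa [pow_one, pow_one] at this
    · rw [h2 p hp hle, mul_one]
      exact ⟨1, by norm_num, fun h => absurd h (not_lt.2 hle), Ul_zeta hp⟩
  have key2 : ∀ (A : ℕ → Prop) (H : ArithmeticFunction ℂ) (P0 : ℝ),
      (∀ p : ℕ, p.Prime → P0 < p → ¬ A p → Ul 8 (PowerSeries.mk fun k => H (p ^ k))) →
      (∀ p : ℕ, p.Prime → (p : ℝ) ≤ P0 → (PowerSeries.mk fun k => H (p ^ k)) = 1) →
      ∀ p : ℕ, p.Prime → ¬ A p → ∃ k : ℕ, k ≤ 8 ∧ (P0 < p → k = 8) ∧ Ul k (PowerSeries.mk fun i => H (p ^ i)) := by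
    intro A H P0 h1 h2 p hp hA
    rcases lt_or_ge P0 (p : ℝ) with hlt | hle
    · exact ⟨8, le_rfl, fun _ => rfl, h1 p hp hlt hA⟩
    · rw [h2 p hp hle]
      exact ⟨0, by norm_num, fun h => absurd h (not_lt.2 hle), Ul_one⟩
  have u1 := key _ H₁ P₁ a4 a6
  have u2 := key2 _ H₁ P₁ a5 a6
  have v1 := key _ H₂ P₂ b4 b6
  have v2 := key2 _ H₂ P₂ b5 b6
  have sel_mul : ∀ {a b : ArithmeticFunction ℂ}, IsSel a → IsSel b → IsSel (a * b) := fun ha hb =>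
    (isSel_iff _).2 (((isSel_iff _).1 ha).mul ((isSel_iff _).1 hb))
  -- `ζ H` is standard
  have std : ∀ (A : ℕ → Prop) (H : ArithmeticFunction ℂ) (N : ℕ) (P0 : ℝ), IsSel H → H.IsMultiplicative → StdFE H 8 N →
      (∀ p : ℕ, p.Prime → A p → ∃ k : ℕ, k ≤ 9 ∧ (P0 < p → k = 9) ∧ Ul k (PowerSeries.mk fun i => (zt * H) (p ^ i))) →
      (∀ p : ℕ, p.Prime → ¬ A p → ∃ k : ℕ, k ≤ 8 ∧ (P0 < p → k = 8) ∧ Ul k (PowerSeries.mk fun i => H (p ^ i))) →
      Std (zt * H) := by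
    intro A H N P0 s1 s2 s3 s4 s5
    refine ⟨sel_mul Std_zeta.1 s1, zt_mul.mul s2, 1 + 8, 1 * N,
      StdFE_zeta.mul ((isSel_iff _).1 Std_zeta.1) ((isSel_iff _).1 s1) s3, P0, fun p hp => ?_⟩
    by_cases hA : A p
    · exact s4 p hp hA
    · obtain ⟨k, k1, k2, k3⟩ := s5 p hp hA
      refine ⟨1 + k, by omega, fun h => by rw [k2 h], ?_⟩
      rw [mk_mul _ _ hp]
      exact (Ul_zeta hp).mul k3
  have t1 := std _ H₁ N₁ P₁ a1 a2 a3 u1 u2
  have t2 := std _ H₂ N₂ P₂ b1 b2 b3 v1 v2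
  refine ⟨zt * H₁, zt * H₂, zt * H₁ * H₂, t1, t2, ⟨sel_mul t1.1 b1, t1.2.1.mul b2, 9 + 8, (1 * N₁) * N₂, ?_,
    max P₁ P₂, fun p hp => ?_⟩, by ring, ?_, ?_⟩
  · exact (StdFE_zeta.mul ((isSel_iff _).1 Std_zeta.1) ((isSel_iff _).1 a1) a3).mul ((isSel_iff _).1 t1.1)
      ((isSel_iff _).1 b1) b3
  · by_cases hA : p % 4 = 1
    · obtain ⟨k, k1, k2, k3⟩ := u1 p hp hA
      obtain ⟨l, l1, l2, l3⟩ := v2 p hp (not_not.2 hA)
      refine ⟨k + l, by omega, fun h => ?_, ?_⟩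
      · rw [k2 (lt_of_le_of_lt (le_max_left _ _) h), l2 (lt_of_le_of_lt (le_max_right _ _) h)]
      · rw [mk_mul _ _ hp]
        exact k3.mul l3
    · obtain ⟨k, k1, k2, k3⟩ := v1 p hp hA
      obtain ⟨l, l1, l2, l3⟩ := u2 p hp hA
      refine ⟨k + l, by omega, fun h => ?_, ?_⟩
      · rw [k2 (lt_of_le_of_lt (le_max_right _ _) h), l2 (lt_of_le_of_lt (le_max_left _ _) h)]
      · rw [show zt * H₁ * H₂ = (zt * H₂) * H₁ by ring, mk_mul _ _ hp]
        exact k3.mul l3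
  · rintro ⟨K, hK, he⟩
    have hK' := zt_cancel he
    obtain ⟨P, hP⟩ := a7
    obtain ⟨⟨p, p1, p2, p3⟩, -⟩ := primes_mod P
    obtain ⟨m, hm⟩ := hK.2.2
    obtain ⟨T, -, hT⟩ := hm p p1
    rw [← hK'] at hT
    exact hP p p1 p2 p3 ⟨T, hT⟩
  · rintro ⟨K, hK, he⟩
    have hK' := zt_cancel he
    obtain ⟨P, hP⟩ := b7
    obtain ⟨-, p, p1, p2, p3⟩ := primes_mod P
    obtain ⟨m, hm⟩ := hK.2.2
    obtain ⟨T, -, hT⟩ := hm p p1
    rw [← hK'] at hT
    exact hP p p1 p2 p3 ⟨T, hT⟩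

/-! ### factorisation in subclasses -/

/-- primitive elements of a subclass -/
def PrimIn (𝒞 : ArithmeticFunction ℂ → Prop) (a : ArithmeticFunction ℂ) : Prop :=
  𝒞 a ∧ a ≠ 1 ∧ ∀ f g : ArithmeticFunction ℂ, 𝒞 f → 𝒞 g → a = f * g → f = 1 ∨ g = 1

section

variable {𝒞 : ArithmeticFunction ℂ → Prop}

/-- factorisation into primitive elements -/
theorem factor_in_aux (hS : ∀ a, 𝒞 a → S a) : ∀ (n : ℕ) (a : ArithmeticFunction ℂ) (d : ℝ), 𝒞 a →
    Pool.Agent.H336R4.PF.Cls (fun n => a n) d → d < n + 1 →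
    ∃ M : Multiset (ArithmeticFunction ℂ), (∀ p ∈ M, PrimIn 𝒞 p) ∧ M.prod = a := by
  intro n
  induction n with
  | zero =>
    intro a d ha hd hlt
    by_cases h : a = 1
    · exact ⟨0, by simp, by simp [h]⟩
    · have := Pool.Agent.H483.UF.degree_ge (hS a ha) h hd
      norm_num at hlt
      linarith
  | succ n ih =>
    intro a d ha hd hlt
    by_cases h : a = 1
    · exact ⟨0, by simp, by simp [h]⟩
    · by_cases hP : PrimIn 𝒞 a
      · exact ⟨{a}, by simpa using hP, by simp⟩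
      · have : ∃ f g : ArithmeticFunction ℂ, 𝒞 f ∧ 𝒞 g ∧ a = f * g ∧ f ≠ 1 ∧ g ≠ 1 := by
          by_contra hno
          apply hP
          refine ⟨ha, h, fun f g hf hg hfg => ?_⟩
          by_contra hcon
          rw [not_or] at hcon
          exact hno ⟨f, g, hf, hg, hfg, hcon.1, hcon.2⟩
        obtain ⟨f, g, hf, hg, hfg, hf1, hg1⟩ := this
        obtain ⟨d₁, hd₁⟩ := Pool.Agent.H177R3.PFV.ss_cls (hS f hf)
        obtain ⟨d₂, hd₂⟩ := Pool.Agent.H177R3.PFV.ss_cls (hS g hg)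
        have hadd := Pool.Agent.H336R4.PF.degAdd _ _ _ d d₁ d₂ hd hd₁ hd₂ (fun s hs => by
          rw [← Pool.Agent.H483.UF.LS_mul (hS f hf) (hS g hg) hs, ← hfg])
        have h1 := Pool.Agent.H483.UF.degree_ge (hS f hf) hf1 hd₁
        have h2 := Pool.Agent.H483.UF.degree_ge (hS g hg) hg1 hd₂
        push_cast at hlt
        obtain ⟨M₁, m1, m2⟩ := ih f d₁ hf hd₁ (by linarith)
        obtain ⟨M₂, m3, m4⟩ := ih g d₂ hg hd₂ (by linarith)
        refine ⟨M₁ + M₂, ?_, by rw [Multiset.prod_add, m2, m4, hfg]⟩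
        intro p hp
        rcases Multiset.mem_add.1 hp with hp | hp
        · exact m1 p hp
        · exact m3 p hp

theorem factor_in (hS : ∀ a, 𝒞 a → S a) {a : ArithmeticFunction ℂ} (ha : 𝒞 a) :
    ∃ M : Multiset (ArithmeticFunction ℂ), (∀ p ∈ M, PrimIn 𝒞 p) ∧ M.prod = a := by
  obtain ⟨d, hd⟩ := Pool.Agent.H177R3.PFV.ss_cls (hS a ha)
  exact factor_in_aux hS ⌈d⌉₊ a d ha hd (lt_of_le_of_lt (Nat.le_ceil d) (by linarith))

lemma prim_zeta (hS : ∀ a, 𝒞 a → S a) (hz : 𝒞 zt) : PrimIn 𝒞 zt := by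
  obtain ⟨-, h1, h2⟩ := Pool.Agent.H483.UF.P_zeta
  exact ⟨hz, h1, fun f g hf hg h => h2 f g (hS f hf) (hS g hg) h⟩

lemma prod_in (h1 : 𝒞 1) (hm : ∀ a b, 𝒞 a → 𝒞 b → 𝒞 (a * b)) {M : Multiset (ArithmeticFunction ℂ)}
    (h : ∀ p ∈ M, 𝒞 p) : 𝒞 M.prod := by
  induction M using Multiset.induction_on with
  | empty => simpa using h1
  | cons a M ih =>
    rw [Multiset.prod_cons]
    exact hm _ _ (h a (Multiset.mem_cons_self a M)) (ih fun p hp => h p (Multiset.mem_cons_of_mem hp))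

end

end Pool.Agent.H616.SP.Q
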