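import Pool.Agent.H616.SQ.StdG
import Pool.Agent.H616.SQ.Uf

set_option autoImplicit false

/-!
# The set of the primes with a nontrivial local factor is infinite
-/

namespace Pool.Agent.H616.SP.Q

open Filter Topology Polynomial Complex
open Pool.Agent.H483.UF (S)

/-- cancellation -/
lemma af_cancel {F a b : ArithmeticFunction ℂ} (h1 : F 1 = 1) (h : F * a = F * b) : a = b := by
  have hu : IsUnit F := ArithmeticFunction.isUnit_iff_isUnit_apply_one.2 (by rw [h1]; exact isUnit_one)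
  exact hu.mul_left_cancel h

/-- roots of the local polynomials -/
lemma root_ge {F : ArithmeticFunction ℂ} (hF : IsSel F) {p : ℕ} (hp : p.Prime) {R : ℂ[X]}
    (hR : (PowerSeries.mk fun k => F (p ^ k)) * (R : PowerSeries ℂ) = 1) {z : ℂ} (hz : R.eval z = 0) : 1 ≤ ‖z‖ := by
  by_contra hlt
  rw [not_le] at hlt
  have hp0 : (0:ℝ) < p := by exact_mod_cast hp.pos
  obtain ⟨ε, hε1, hε⟩ : ∃ ε : ℝ, (p : ℝ) ^ ε * ‖z‖ < 1 ∧ 0 < ε := by
    have ht : Tendsto (fun ε : ℝ => (p : ℝ) ^ ε * ‖z‖) (𝓝[>] 0) (𝓝 ((p : ℝ) ^ (0:ℝ) * ‖z‖)) := by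
      refine Tendsto.mul_const _ ?_
      exact (Real.continuous_const_rpow hp0.ne').tendsto 0 |>.mono_left nhdsWithin_le_nhds
    rw [Real.rpow_zero, one_mul] at ht
    exact ((ht.eventually_lt_const hlt).and self_mem_nhdsWithin).exists
  obtain ⟨C, hC⟩ := hF.ramanujan ε hε
  have hs : Summable fun k => ‖F (p ^ k) * z ^ k‖ := by
    refine Summable.of_nonneg_of_le (fun _ => norm_nonneg _) (fun k => ?_)
      ((summable_geometric_of_lt_one (by positivity) hε1).mul_left C)
    rw [norm_mul, norm_pow]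
    have h1 := hC (p ^ k) (Nat.one_le_pow _ _ hp.pos)
    calc ‖F (p ^ k)‖ * ‖z‖ ^ k ≤ (C * ((p ^ k : ℕ) : ℝ) ^ ε) * ‖z‖ ^ k := by gcongr
      _ = C * ((p : ℝ) ^ ε * ‖z‖) ^ k := by
        rw [mul_pow, Nat.cast_pow, ← Real.rpow_natCast, ← Real.rpow_mul hp0.le, mul_comm (k : ℝ) ε,
          Real.rpow_mul hp0.le, Real.rpow_natCast]
        ring
  have h2 := local_eval hR hs
  rw [hz, mul_zero] at h2
  exact zero_ne_one h2

/-- constant coefficient of the local polynomial -/
lemma loc_coeff {F : ArithmeticFunction ℂ} (hF : F 1 = 1) {p : ℕ} {R : ℂ[X]}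
    (hR : (PowerSeries.mk fun k => F (p ^ k)) * (R : PowerSeries ℂ) = 1) : R.eval 0 = 1 := by
  have h := congrArg PowerSeries.constantCoeff hR
  rw [map_mul, map_one, ← PowerSeries.coeff_zero_eq_constantCoeff_apply, ← PowerSeries.coeff_zero_eq_constantCoeff_apply,
    PowerSeries.coeff_mk, pow_zero, hF, one_mul, Polynomial.coeff_coe] at h
  rw [← Polynomial.coeff_zero_eq_eval_zero, h]

/-- a factor of the local polynomial -/
lemma exists_factor {F : ArithmeticFunction ℂ} (hF : IsSel F) {m : ℕ} {p : ℕ} (hp : p.Prime) {R : ℂ[X]}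
    (hd : R.natDegree ≤ m) (hR : (PowerSeries.mk fun k => F (p ^ k)) * (R : PowerSeries ℂ) = 1)
    (hne : (PowerSeries.mk fun k => F (p ^ k)) ≠ 1) :
    ∃ (w : ℂ) (T : ℂ[X]), w ≠ 0 ∧ ‖w‖ ≤ 1 ∧ T.natDegree ≤ m ∧ R.eval w⁻¹ = 0 ∧
      (PowerSeries.mk fun k => F (p ^ k)) * (((1 - C w * X) * T : ℂ[X]) : PowerSeries ℂ) = 1 := by
  have h1 : F (p ^ 0) = 1 := by rw [pow_zero, hF.one]
  have hd0 : R.natDegree ≠ 0 := by
    intro h
    have := deg_zero (f := fun k => F (p ^ k)) h1 hR h
    rw [this, Polynomial.coe_one, mul_one] at hR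
    exact hne hR
  have hR0 : R ≠ 0 := by
    rintro rfl
    simp at hd0
  obtain ⟨z, hz⟩ := Complex.exists_root (f := R) (Polynomial.natDegree_pos_iff_degree_pos.1 (Nat.pos_of_ne_zero hd0))
  have hz1 := root_ge hF hp hR hz
  have hz0 : z ≠ 0 := by
    rintro rfl
    rw [norm_zero] at hz1
    linarith
  obtain ⟨T, hT⟩ := Polynomial.dvd_iff_isRoot.2 hz
  have hT0 : T ≠ 0 := by
    rintro rfl
    rw [mul_zero] at hT
    exact hR0 hT
  have hRd : R.natDegree = 1 + T.natDegree := by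
    rw [hT, Polynomial.natDegree_mul (Polynomial.X_sub_C_ne_zero z) hT0, Polynomial.natDegree_X_sub_C]
  refine ⟨z⁻¹, C (-z) * T, inv_ne_zero hz0, ?_, ?_, ?_, ?_⟩
  · rw [norm_inv]
    exact inv_le_one_of_one_le₀ hz1
  · refine (Polynomial.natDegree_C_mul_le _ _).trans ?_
    omega
  · rw [inv_inv]
    exact hz
  · have e : (1 - C z⁻¹ * X) * (C (-z) * T) = R := by
      rw [hT, ← mul_assoc]
      congr 1
      rw [sub_mul, one_mul, mul_right_comm, ← Polynomial.C_mul, mul_neg, inv_mul_cancel₀ hz0]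
      simp only [Polynomial.C_neg, Polynomial.C_1]
      ring
    rw [e]
    exact hR

/-- the Euler product -/
lemma euler_spo {F : ArithmeticFunction ℂ} (hF : IsSel F) (hm : F.IsMultiplicative) (R : ℕ → ℂ[X])
    (hR : ∀ p : ℕ, p.Prime → (PowerSeries.mk fun k => F (p ^ k)) * (R p : PowerSeries ℂ) = 1) {s : ℂ} (hs : 1 < s.re) :
    HasProd (fun p : Nat.Primes => ((R p).eval (((p : ℕ) : ℂ) ^ (-s)))⁻¹) (LSeries (fun n => F n) s) := by
  set f : ℕ → ℂ := fun n => F n with hf
  have hsum := hF.conv s hs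
  have h0 : LSeries.term f s 0 = 0 := LSeries.term_zero _ _
  have h1 : LSeries.term f s 1 = 1 := by
    rw [LSeries.term_of_ne_zero one_ne_zero, hf]
    simp [hF.one]
  have hmul : ∀ {m n : ℕ}, Nat.Coprime m n →
      LSeries.term f s (m * n) = LSeries.term f s m * LSeries.term f s n := by
    intro m n h
    rcases Nat.eq_zero_or_pos m with rfl | hm0
    · simp
    rcases Nat.eq_zero_or_pos n with rfl | hn0
    · simp
    rw [LSeries.term_of_ne_zero (Nat.mul_pos hm0 hn0).ne', LSeries.term_of_ne_zero hm0.ne',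
      LSeries.term_of_ne_zero hn0.ne', hf]
    simp only
    rw [hm.2 h]
    push_cast
    rw [Complex.natCast_mul_natCast_cpow]
    field_simp
  have hprod := EulerProduct.eulerProduct_hasProd h1 hmul hsum.norm h0
  have e : (∑' n, LSeries.term f s n) = LSeries f s := rfl
  rw [e] at hprod
  convert! hprod using 1
  funext p
  have hp := p.2
  set x : ℂ := ((p : ℕ) : ℂ) ^ (-s) with hx
  have hterm : ∀ k : ℕ, LSeries.term f s ((p : ℕ) ^ k) = f ((p : ℕ) ^ k) * x ^ k := by
    intro k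
    rw [LSeries.term_of_ne_zero (pow_ne_zero _ hp.ne_zero), div_eq_mul_inv]
    congr 1
    rw [hx, ← Complex.cpow_nat_mul, ← Complex.cpow_neg]
    push_cast
    rw [← Complex.cpow_nat_mul' (by simp [Complex.natCast_arg, Real.pi_pos]) (by simp [Complex.natCast_arg, Real.pi_pos.le])]
  have hsum2 : Summable fun k => ‖f ((p : ℕ) ^ k) * x ^ k‖ := by
    have h3 : Summable fun k : ℕ => ‖LSeries.term f s ((p : ℕ) ^ k)‖ :=
      hsum.norm.comp_injective (Nat.pow_right_injective hp.two_le)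
    refine h3.congr fun k => ?_
    rw [hterm]
  have hle := local_eval (hR p hp) hsum2
  have h4 : (∑' k, LSeries.term f s ((p : ℕ) ^ k)) = ∑' k, f ((p : ℕ) ^ k) * x ^ k := by
    congr 1; funext k; exact hterm k
  rw [h4]
  exact (eq_inv_of_mul_eq_one_left hle).symm

/-- **The set of the primes with a nontrivial local factor is infinite.** -/
theorem infinite_loc {F : ArithmeticFunction ℂ} (hF : SPo F) (hne : F ≠ 1) :
    {p : ℕ | p.Prime ∧ (PowerSeries.mk fun k => F (p ^ k)) ≠ 1}.Infinite := by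
  classical
  intro hfin
  obtain ⟨hSel, hmul, m, hloc⟩ := hF
  have hloc' : ∀ p : ℕ, ∃ R : ℂ[X], R.natDegree ≤ m ∧ (p.Prime → (PowerSeries.mk fun k => F (p ^ k)) * (R : PowerSeries ℂ) = 1) := by
    intro p
    by_cases hp : p.Prime
    · obtain ⟨R, h1, h2⟩ := hloc p hp
      exact ⟨R, h1, fun _ => h2⟩
    · exact ⟨1, by simp, fun h => absurd h hp⟩
  choose R hRd hR using hloc'
  have hR1 : ∀ p : ℕ, p.Prime → (PowerSeries.mk fun k => F (p ^ k)) = 1 → R p = 1 := by
    intro p hp h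
    have := hR p hp
    rw [h, one_mul] at this
    exact Polynomial.coe_injective ℂ (by rw [this, Polynomial.coe_one])
  -- the finite set
  set T : Finset Nat.Primes := hfin.toFinset.preimage (fun p : Nat.Primes => (p : ℕ)) Nat.Primes.coe_nat_injective.injOn with hT
  have hTm : ∀ p : Nat.Primes, p ∈ T ↔ (PowerSeries.mk fun k => F ((p : ℕ) ^ k)) ≠ 1 := by
    intro p
    rw [hT, Finset.mem_preimage, Set.Finite.mem_toFinset, Set.mem_setOf_eq]
    exact ⟨fun h => h.2, fun h => ⟨p.2, h⟩⟩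
  set D : ℂ → ℂ := fun s => ∏ p ∈ T, (R p).eval (((p : ℕ) : ℂ) ^ (-s)) with hD
  have hDd : Differentiable ℂ D := by
    rw [hD]
    refine Differentiable.fun_finset_prod fun p hp => ?_
    have hp0 : ((p : ℕ) : ℂ) ≠ 0 := by exact_mod_cast p.2.ne_zero
    have h1 : Differentiable ℂ fun s : ℂ => ((p : ℕ) : ℂ) ^ (-s) := by
      intro s
      exact (differentiableAt_id.neg).const_cpow (Or.inl hp0)
    exact (Polynomial.differentiable (R p)).comp h1
  obtain ⟨n, G, hG, -, hG2, -⟩ := hSel.cont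
  have h1 : ∀ s : ℂ, 1 < s.re → G s * D s = (s - 1) ^ n := by
    intro s hs
    have h2 := euler_spo hSel hmul R hR hs
    have h3 : HasProd (fun p : Nat.Primes => ((R p).eval (((p : ℕ) : ℂ) ^ (-s)))⁻¹)
        (∏ p ∈ T, ((R p).eval (((p : ℕ) : ℂ) ^ (-s)))⁻¹) := by
      apply hasProd_prod_of_ne_finset_one
      intro p hp
      rw [hTm, not_not] at hp
      rw [hR1 p p.2 hp]
      simp
    have h4 := h2.unique h3
    have h5 : D s ≠ 0 := by
      rw [hD]
      simp only
      rw [Finset.prod_ne_zero_iff]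
      intro p hp h6
      have h7 := root_ge hSel p.2 (hR p p.2) h6
      have h8 : ‖((p : ℕ) : ℂ) ^ (-s)‖ < 1 := by
        rw [Complex.norm_natCast_cpow_of_pos p.2.pos]
        apply Real.rpow_lt_one_of_one_lt_of_neg
        · exact_mod_cast p.2.one_lt
        · simp; linarith
      linarith
    rw [hG2 s hs, h4, Finset.prod_inv_distrib, mul_assoc, inv_mul_cancel₀ h5, mul_one]
  have h2 : ∀ s : ℂ, G s * D s = (s - 1) ^ n := by
    have hev : (fun s => G s * D s) =ᶠ[𝓝 (2:ℂ)] fun s : ℂ => (s - 1) ^ n := by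
      have : {s : ℂ | 1 < s.re} ∈ 𝓝 (2 : ℂ) := (isOpen_lt continuous_const Complex.continuous_re).mem_nhds (by simp)
      filter_upwards [this] with s hs using h1 s hs
    have hd1 : Differentiable ℂ fun s => G s * D s := hG.mul hDd
    have hd2 : Differentiable ℂ fun s : ℂ => (s - 1) ^ n := by fun_prop
    have h3 : (fun s => G s * D s) = fun s : ℂ => (s - 1) ^ n :=
      AnalyticOnNhd.eq_of_eventuallyEq (hd1.differentiableOn.analyticOnNhd isOpen_univ)
        (hd2.differentiableOn.analyticOnNhd isOpen_univ) hev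
    exact fun s => congrFun h3 s
  -- a zero of `D`
  have hex : ∃ p : ℕ, p.Prime ∧ (PowerSeries.mk fun k => F (p ^ k)) ≠ 1 := by
    by_contra hcon
    push Not at hcon
    apply hne
    ext k
    rw [ArithmeticFunction.one_apply]
    rcases Nat.eq_zero_or_pos k with rfl | hk
    · simp
    by_cases hk1 : k = 1
    · rw [hk1, hSel.one]; simp
    rw [if_neg hk1]
    obtain ⟨q, hq, hqk⟩ := Nat.exists_prime_and_dvd hk1
    have hfac := hmul.multiplicative_factorization F hk.ne'
    rw [hfac]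
    have hqs : q ∈ k.factorization.support := by
      rw [Nat.support_factorization]
      exact Nat.mem_primeFactors.2 ⟨hq, hqk, hk.ne'⟩
    apply Finset.prod_eq_zero hqs
    have h3 := congrArg (PowerSeries.coeff (k.factorization q)) (hcon q hq)
    rw [PowerSeries.coeff_mk, PowerSeries.coeff_one, if_neg (Finsupp.mem_support_iff.1 hqs)] at h3
    exact h3
  obtain ⟨p, hp, hpE⟩ := hex
  obtain ⟨w, T', hw0, hw1, -, hz, -⟩ := exists_factor hSel hp (hRd p) (hR p hp) hpE
  have hp0 : (p : ℂ) ≠ 0 := by exact_mod_cast hp.ne_zero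
  have hlp : Complex.log (p : ℂ) ≠ 0 := by
    rw [← Complex.natCast_log]
    exact_mod_cast (Real.log_pos (by exact_mod_cast hp.one_lt)).ne'
  -- the zeros
  have hzero : ∀ k : ℤ, D (-(Complex.log w⁻¹ + k * (2 * Real.pi * Complex.I)) / Complex.log p) = 0 := by
    intro k
    rw [hD]
    refine Finset.prod_eq_zero (i := ⟨p, hp⟩) ((hTm _).2 hpE) ?_
    have : ((p : ℕ) : ℂ) ^ (-(-(Complex.log w⁻¹ + k * (2 * Real.pi * Complex.I)) / Complex.log p)) = w⁻¹ := by
      rw [Complex.cpow_def_of_ne_zero hp0, neg_div, neg_neg, mul_div_cancel₀ _ hlp, Complex.exp_add,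
        Complex.exp_log (inv_ne_zero hw0), Complex.exp_int_mul_two_pi_mul_I, mul_one]
    show (R p).eval (((p : ℕ) : ℂ) ^ (-(-(Complex.log w⁻¹ + k * (2 * Real.pi * Complex.I)) / Complex.log p))) = 0
    rw [this]
    exact hz
  have hone : ∀ k : ℤ, -(Complex.log w⁻¹ + k * (2 * Real.pi * Complex.I)) / Complex.log p = 1 := by
    intro k
    have h3 := h2 (-(Complex.log w⁻¹ + k * (2 * Real.pi * Complex.I)) / Complex.log p)
    rw [hzero k, mul_zero] at h3
    have h5 : -(Complex.log w⁻¹ + k * (2 * Real.pi * Complex.I)) / Complex.log p - 1 = 0 := by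
      rcases Nat.eq_zero_or_pos n with rfl | hn
      · rw [pow_zero] at h3
        exact absurd h3 zero_ne_one
      · exact (pow_eq_zero_iff hn.ne').1 h3.symm
    linear_combination h5
  have h3 := hone 0
  have h4 := hone 1
  rw [← h3] at h4
  rw [div_left_inj' hlp] at h4
  have h5 : (2 * Real.pi * Complex.I : ℂ) = 0 := by
    push_cast at h4
    linear_combination -h4
  exact Complex.two_pi_I_ne_zero h5

end Pool.Agent.H616.SP.Q
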