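import Pool.Agent.H616.SQ.NpA

set_option autoImplicit false

/-!
# No prime elements
-/

namespace Pool.Agent.H616.SP.Q

open Filter Topology Polynomial Complex
open Pool.Agent.H483.UF (S)

/-- removing a Satake parameter -/
lemma Ul_split {k : ℕ} {φ : PowerSeries ℂ} (h : Ul k φ) {w : ℂ} (hw : w ≠ 0) {T : ℂ[X]}
    (hT : φ * (((1 - C w * X) * T : ℂ[X]) : PowerSeries ℂ) = 1) :
    ‖w‖ = 1 ∧ ∃ l, k = l + 1 ∧ Ul l (φ * ((1 - C w * X : ℂ[X]) : PowerSeries ℂ)) := by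
  obtain ⟨al, a1, a2⟩ := h
  have e : (∏ j, (1 - C (al j) * X) : ℂ[X]) = (1 - C w * X) * T := by
    apply Polynomial.coe_injective
    calc ((∏ j, (1 - C (al j) * X) : ℂ[X]) : PowerSeries ℂ) =
          (φ * (((1 - C w * X) * T : ℂ[X]) : PowerSeries ℂ)) * ((∏ j, (1 - C (al j) * X) : ℂ[X]) : PowerSeries ℂ) := by
          rw [hT, one_mul]
      _ = (φ * ((∏ j, (1 - C (al j) * X) : ℂ[X]) : PowerSeries ℂ)) *
            (((1 - C w * X) * T : ℂ[X]) : PowerSeries ℂ) := by ring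
      _ = _ := by rw [a2, one_mul]
  have e1 := congrArg (Polynomial.eval w⁻¹) e
  rw [Polynomial.eval_prod, eval_mul] at e1
  simp only [eval_sub, eval_one, eval_mul, eval_C, eval_X] at e1
  rw [mul_inv_cancel₀ hw, sub_self, zero_mul, Finset.prod_eq_zero_iff] at e1
  obtain ⟨j, -, hj⟩ := e1
  have hj' : al j = w := by
    have h1 : al j * w⁻¹ = 1 := by linear_combination -hj
    field_simp at h1
    exact h1
  cases k with
  | zero => exact j.elim0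
  | succ l =>
    refine ⟨hj' ▸ a1 j, l, rfl, fun i => al (j.succAbove i), fun i => a1 _, ?_⟩
    rw [Fin.prod_univ_succAbove _ j, hj', Polynomial.coe_mul, ← mul_assoc] at a2
    exact a2

lemma Ul_of_mul {n l : ℕ} {φ ψ : PowerSeries ℂ} {al : Fin n → ℂ} (h : ∀ j, ‖al j‖ = 1)
    (e : φ * ((∏ j, (1 - C (al j) * X) : ℂ[X]) : PowerSeries ℂ) = ψ) (hψ : Ul l ψ) : Ul (n + l) φ := by
  obtain ⟨be, b1, b2⟩ := hψ
  refine ⟨Fin.append al be, fun j => ?_, ?_⟩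
  · refine Fin.addCases (fun i => ?_) (fun i => ?_) j
    · rw [Fin.append_left]; exact h i
    · rw [Fin.append_right]; exact b1 i
  · rw [Fin.prod_univ_add]
    simp only [Fin.append_left, Fin.append_right]
    rw [Polynomial.coe_mul, ← mul_assoc, e, b2]

lemma prod_deg {k : ℕ} (al : Fin k → ℂ) : (∏ j, (1 - C (al j) * X) : ℂ[X]).natDegree ≤ k := by
  refine (Polynomial.natDegree_prod_le _ _).trans ?_
  calc ∑ j : Fin k, (1 - Polynomial.C (al j) * Polynomial.X : Polynomial ℂ).natDegree ≤ ∑ _j : Fin k, 1 := by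
        apply Finset.sum_le_sum
        intro j _
        exact lin_deg _
    _ = k := by simp

/-- a sequence adapted to `F` -/
def Ad (F : ArithmeticFunction ℂ) (w : ℕ → ℂ) (m : ℕ) : Prop :=
  ∀ p : ℕ, p.Prime → w p ≠ 0 → ∃ T : ℂ[X], T.natDegree ≤ m ∧
    (PowerSeries.mk fun k => F (p ^ k)) * (((1 - C (w p) * X) * T : ℂ[X]) : PowerSeries ℂ) = 1

/-- the properties of `H` -/
structure HS (w : ℕ → ℂ) (H : ArithmeticFunction ℂ) (N : ℕ) (P0 : ℝ) : Prop where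
  sel : IsSel H
  mul : H.IsMultiplicative
  fe : StdFE H 8 N
  big : ∀ p : ℕ, p.Prime → P0 < p → w p ≠ 0 → ∃ al : Fin 9 → ℂ, (∀ j, ‖al j‖ ≤ 1) ∧ (‖w p‖ = 1 → ∀ j, ‖al j‖ = 1) ∧
      (PowerSeries.mk fun k => H (p ^ k)) * ((∏ j, (1 - C (al j) * X) : ℂ[X]) : PowerSeries ℂ) =
        ((1 - C (w p) * X : ℂ[X]) : PowerSeries ℂ)
  zer : ∀ p : ℕ, p.Prime → P0 < p → w p = 0 → Ul 8 (PowerSeries.mk fun k => H (p ^ k))
  small : ∀ p : ℕ, p.Prime → (p : ℝ) ≤ P0 → (PowerSeries.mk fun k => H (p ^ k)) = 1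
  nt : ∃ P1 : ℝ, ∀ p : ℕ, p.Prime → P1 < p → w p ≠ 0 →
      ¬ ∃ T : ℂ[X], (PowerSeries.mk fun k => H (p ^ k)) * (T : PowerSeries ℂ) = 1

section

variable {w : ℕ → ℂ} {H F : ArithmeticFunction ℂ} {N : ℕ} {P0 : ℝ} {m : ℕ}

lemma HS.zer' (h : HS w H N P0) {p : ℕ} (hp : p.Prime) (hw : w p = 0) :
    ∃ k : ℕ, k ≤ 8 ∧ (P0 < p → k = 8) ∧ Ul k (PowerSeries.mk fun i => H (p ^ i)) := by
  rcases lt_or_ge P0 (p : ℝ) with hlt | hle
  · exact ⟨8, le_rfl, fun _ => rfl, h.zer p hp hlt hw⟩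
  · rw [h.small p hp hle]
    exact ⟨0, by norm_num, fun h => absurd h (not_lt.2 hle), Ul_one⟩

/-- the local factors of `F H` -/
lemma HS.locPoly (h : HS w H N P0) (hF : LocPoly F m) (hA : Ad F w m) : LocPoly (F * H) (m + 9) := by
  intro p hp
  rw [mk_mul _ _ hp]
  obtain ⟨R, r1, r2⟩ := hF p hp
  by_cases hw : w p = 0
  · obtain ⟨k, k1, -, al, -, k3⟩ := h.zer' hp hw
    refine ⟨R * ∏ j, (1 - C (al j) * X), ?_, ?_⟩
    · have := prod_deg al
      exact (Polynomial.natDegree_mul_le).trans (by omega)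
    · rw [Polynomial.coe_mul, mul_mul_mul_comm, r2, k3, one_mul]
  · rcases lt_or_ge P0 (p : ℝ) with hlt | hle
    · obtain ⟨al, -, -, e⟩ := h.big p hp hlt hw
      obtain ⟨T, t1, t2⟩ := hA p hp hw
      refine ⟨T * ∏ j, (1 - C (al j) * X), ?_, ?_⟩
      · have := prod_deg al
        exact (Polynomial.natDegree_mul_le).trans (by omega)
      · rw [Polynomial.coe_mul] at t2 ⊢
        rw [← t2]
        linear_combination (PowerSeries.mk fun k => F (p ^ k)) * (T : PowerSeries ℂ) * e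
    · rw [h.small p hp hle, mul_one]
      exact ⟨R, by omega, r2⟩

lemma HS.stdLocal (h : HS w H N P0) {M : ℕ} (hF : StdLocal F M) (hA : Ad F w m) : StdLocal (F * H) (M + 8) := by
  obtain ⟨P, hP⟩ := hF
  refine ⟨max P P0, fun p hp => ?_⟩
  obtain ⟨k, k1, k2, k3⟩ := hP p hp
  rw [mk_mul _ _ hp]
  by_cases hw : w p = 0
  · obtain ⟨l, l1, l2, l3⟩ := h.zer' hp hw
    refine ⟨k + l, by omega, fun hlt => ?_, k3.mul l3⟩
    rw [k2 (lt_of_le_of_lt (le_max_left _ _) hlt), l2 (lt_of_le_of_lt (le_max_right _ _) hlt)]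
  · rcases lt_or_ge P0 (p : ℝ) with hlt | hle
    · obtain ⟨al, -, e2, e⟩ := h.big p hp hlt hw
      obtain ⟨T, -, t2⟩ := hA p hp hw
      obtain ⟨u1, l, rfl, u3⟩ := Ul_split k3 hw t2
      refine ⟨9 + l, by omega, fun h' => ?_, ?_⟩
      · have := k2 (lt_of_le_of_lt (le_max_left _ _) h')
        omega
      · refine Ul_of_mul (e2 u1) ?_ u3
        rw [← e]
        ring
    · rw [h.small p hp hle, mul_one]
      exact ⟨k, by omega, fun h' => absurd (lt_of_le_of_lt (le_max_right _ _) h') (not_lt.2 hle), k3⟩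

lemma isSel_mul {a b : ArithmeticFunction ℂ} (ha : IsSel a) (hb : IsSel b) : IsSel (a * b) :=
  (isSel_iff _).2 (((isSel_iff _).1 ha).mul ((isSel_iff _).1 hb))

lemma HS.spo (h : HS w H N P0) (hF1 : IsSel F) (hF2 : F.IsMultiplicative) (hF : LocPoly F m) (hA : Ad F w m) :
    SPo (F * H) :=
  ⟨isSel_mul hF1 h.sel, hF2.mul h.mul, m + 9, h.locPoly hF hA⟩

lemma HS.std (h : HS w H N P0) {M K : ℕ} (hF1 : IsSel F) (hF2 : F.IsMultiplicative) (hF3 : StdFE F M K)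
    (hF : StdLocal F M) (hA : Ad F w m) : Std (F * H) :=
  ⟨isSel_mul hF1 h.sel, hF2.mul h.mul, M + 8, K * N,
    hF3.mul ((isSel_iff _).1 hF1) ((isSel_iff _).1 h.sel) h.fe, h.stdLocal hF hA⟩

end

lemma exists_HS (w : ℕ → ℂ) (hw : ∀ p, ‖w p‖ ≤ 1) : ∃ (H : ArithmeticFunction ℂ) (N : ℕ) (P0 : ℝ), HS w H N P0 := by
  obtain ⟨H, N, P0, a1, a2, a3, a4, a5, a6, a7⟩ := exists_HG w hw
  exact ⟨H, N, P0, ⟨a1, a2, a3, a4, a5, a6, a7⟩⟩

/-- splitting an infinite set -/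
lemma split_infinite {E : Set ℕ} (hE : E.Infinite) :
    ∃ A B : Set ℕ, A ⊆ E ∧ B ⊆ E ∧ (∀ n, n ∈ A → n ∉ B) ∧ A.Infinite ∧ B.Infinite := by
  obtain ⟨t, u, h1, h2, h3⟩ := hE.exists_union_disjoint_cardinal_eq_of_infinite
  have key : ∀ {s v : Set ℕ}, Cardinal.mk s = Cardinal.mk v → s.Finite → v.Finite := by
    intro s v h hs
    rw [← Cardinal.lt_aleph0_iff_set_finite] at hs ⊢
    rw [← h]
    exact hs
  refine ⟨t, u, h1 ▸ Set.subset_union_left, h1 ▸ Set.subset_union_right,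
    fun n hn hn' => (Set.disjoint_left.1 h2 hn) hn', fun hf => ?_, fun hf => ?_⟩
  · exact hE (h1 ▸ hf.union (key h3 hf))
  · exact hE (h1 ▸ (key h3.symm hf).union hf)

/-- **No prime elements.** -/
theorem no_prime {F : ArithmeticFunction ℂ} (hF : SPo F) (hne : F ≠ 1) :
    ∃ F₁ F₂ G : ArithmeticFunction ℂ, SPo F₁ ∧ SPo F₂ ∧ SPo G ∧ F₁ * F₂ = F * G ∧
      (¬ ∃ K, SPo K ∧ F₁ = F * K) ∧ (¬ ∃ K, SPo K ∧ F₂ = F * K) ∧ (Std F → Std F₁ ∧ Std F₂ ∧ Std G) := by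
  classical
  have hinf := infinite_loc hF hne
  obtain ⟨hSel, hmul, m, hloc⟩ := hF
  have hdat : ∀ p : ℕ, ∃ w : ℂ, ‖w‖ ≤ 1 ∧ (p.Prime → (PowerSeries.mk fun k => F (p ^ k)) ≠ 1 → w ≠ 0) ∧
      (p.Prime → w ≠ 0 → ∃ T : ℂ[X], T.natDegree ≤ m ∧
        (PowerSeries.mk fun k => F (p ^ k)) * (((1 - C w * X) * T : ℂ[X]) : PowerSeries ℂ) = 1) := by
    intro p
    by_cases h : p.Prime ∧ (PowerSeries.mk fun k => F (p ^ k)) ≠ 1
    · obtain ⟨R, r1, r2⟩ := hloc p h.1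
      obtain ⟨w, T, w1, w2, w3, -, w4⟩ := exists_factor hSel h.1 r1 r2 h.2
      exact ⟨w, w2, fun _ _ => w1, fun _ _ => ⟨T, w3, w4⟩⟩
    · exact ⟨0, by simp, fun h1 h2 => absurd ⟨h1, h2⟩ h, fun _ h0 => absurd rfl h0⟩
  choose w w1 w2 w3 using hdat
  obtain ⟨A, B, hA, hB, hAB, iA, iB⟩ := split_infinite hinf
  -- restrictions
  have hres : ∀ A' : Set ℕ, Ad F (fun p => if p ∈ A' then w p else 0) m := by
    intro A' p hp h
    by_cases hmem : p ∈ A'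
    · simp only [if_pos hmem] at h ⊢
      exact w3 p hp h
    · simp only [if_neg hmem] at h
      exact absurd rfl h
  have hbd : ∀ A' : Set ℕ, ∀ p, ‖(if p ∈ A' then w p else 0 : ℂ)‖ ≤ 1 := by
    intro A' p
    split_ifs
    · exact w1 p
    · simp
  obtain ⟨H₁, N₁, P₁, s₁⟩ := exists_HS _ (hbd A)
  obtain ⟨H₂, N₂, P₂, s₂⟩ := exists_HS _ (hbd B)
  -- the factor `H` is not an element of the polynomial class
  have hnot : ∀ (A' : Set ℕ) (H : ArithmeticFunction ℂ) (N : ℕ) (P : ℝ), A' ⊆ {p : ℕ | p.Prime ∧ (PowerSeries.mk fun k => F (p ^ k)) ≠ 1} →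
      A'.Infinite → HS (fun p => if p ∈ A' then w p else 0) H N P → ¬ ∃ K, SPo K ∧ F * H = F * K := by
    intro A' H N P hsub hinf' hs
    rintro ⟨K, hK, he⟩
    have hK' := af_cancel hSel.one he
    obtain ⟨P1, hP1⟩ := hs.nt
    obtain ⟨n, hn⟩ := exists_nat_ge P1
    obtain ⟨p, hpA, hpn⟩ := hinf'.exists_gt n
    obtain ⟨hp, hpE⟩ := hsub hpA
    obtain ⟨m', hm'⟩ := hK.2.2
    obtain ⟨T, -, hT⟩ := hm' p hp
    rw [← hK'] at hT
    have hlt : P1 < p := lt_of_le_of_lt hn (by exact_mod_cast hpn)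
    refine hP1 p hp hlt ?_ ⟨T, hT⟩
    simp only [if_pos hpA]
    exact w2 p hp hpE
  -- the element `G`
  have hGpoly : LocPoly (F * H₁ * H₂) (m + 17) := by
    intro p hp
    by_cases hpA : p ∈ A
    · obtain ⟨k, k1, -, al, -, k3⟩ := s₂.zer' hp (by simp only [if_neg (hAB p hpA)])
      obtain ⟨R, r1, r2⟩ := s₁.locPoly hloc (hres A) p hp
      refine ⟨R * ∏ j, (1 - C (al j) * X), ?_, ?_⟩
      · have := prod_deg al
        exact (Polynomial.natDegree_mul_le).trans (by omega)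
      · rw [mk_mul _ _ hp, Polynomial.coe_mul, mul_mul_mul_comm, r2, k3, one_mul]
    · obtain ⟨k, k1, -, al, -, k3⟩ := s₁.zer' hp (by simp only [if_neg hpA])
      obtain ⟨R, r1, r2⟩ := s₂.locPoly hloc (hres B) p hp
      refine ⟨R * ∏ j, (1 - C (al j) * X), ?_, ?_⟩
      · have := prod_deg al
        exact (Polynomial.natDegree_mul_le).trans (by omega)
      · rw [show F * H₁ * H₂ = (F * H₂) * H₁ by ring, mk_mul _ _ hp, Polynomial.coe_mul, mul_mul_mul_comm, r2, k3, one_mul]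
  refine ⟨F * H₁, F * H₂, F * H₁ * H₂, s₁.spo hSel hmul hloc (hres A), s₂.spo hSel hmul hloc (hres B),
    ⟨isSel_mul (isSel_mul hSel s₁.sel) s₂.sel, (hmul.mul s₁.mul).mul s₂.mul, _, hGpoly⟩, by ring,
    hnot A H₁ N₁ P₁ hA iA s₁, hnot B H₂ N₂ P₂ hB iB s₂, fun hStd => ?_⟩
  obtain ⟨-, -, M, K, hfe, hsl⟩ := hStd
  have t₁ := s₁.std hSel hmul hfe hsl (hres A)
  have t₂ := s₂.std hSel hmul hfe hsl (hres B)
  refine ⟨t₁, t₂, isSel_mul t₁.1 s₂.sel, t₁.2.1.mul s₂.mul, M + 8 + 8, K * N₁ * N₂, ?_, ?_⟩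
  · exact (hfe.mul ((isSel_iff _).1 hSel) ((isSel_iff _).1 s₁.sel) s₁.fe).mul ((isSel_iff _).1 t₁.1)
      ((isSel_iff _).1 s₂.sel) s₂.fe
  · obtain ⟨Q₁, hQ₁⟩ := s₁.stdLocal hsl (hres A)
    obtain ⟨Q₂, hQ₂⟩ := s₂.stdLocal hsl (hres B)
    refine ⟨max (max Q₁ Q₂) (max P₁ P₂), fun p hp => ?_⟩
    by_cases hpA : p ∈ A
    · obtain ⟨l, l1, l2, l3⟩ := s₂.zer' hp (by simp only [if_neg (hAB p hpA)])
      obtain ⟨k, k1, k2, k3⟩ := hQ₁ p hp
      refine ⟨k + l, by omega, fun h => ?_, ?_⟩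
      · rw [k2 (lt_of_le_of_lt ((le_max_left _ _).trans (le_max_left _ _)) h),
          l2 (lt_of_le_of_lt ((le_max_right _ _).trans (le_max_right _ _)) h)]
      · rw [mk_mul _ _ hp]
        exact k3.mul l3
    · obtain ⟨l, l1, l2, l3⟩ := s₁.zer' hp (by simp only [if_neg hpA])
      obtain ⟨k, k1, k2, k3⟩ := hQ₂ p hp
      refine ⟨k + l, by omega, fun h => ?_, ?_⟩
      · rw [k2 (lt_of_le_of_lt ((le_max_right _ _).trans (le_max_left _ _)) h),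
          l2 (lt_of_le_of_lt ((le_max_left _ _).trans (le_max_right _ _)) h)]
      · rw [show F * H₁ * H₂ = (F * H₂) * H₁ by ring, mk_mul _ _ hp]
        exact k3.mul l3

end Pool.Agent.H616.SP.Q
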