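import Pool.Agent.H616.SQ.NpB

set_option autoImplicit false

/-!
# Consequences of the failure of primality
-/

namespace Pool.Agent.H616.SP.Q

open Filter Topology Complex
open Pool.Agent.H483.UF (S)

/-- `∑_{p ≤ N} a_p(F) conj(a_p(F')) / p` -/
noncomputable def CS (a a' : ArithmeticFunction ℂ) (N : ℕ) : ℂ :=
  ∑ p ∈ (Finset.Iic N).filter Nat.Prime, a p * starRingEnd ℂ (a' p) / (p : ℂ)

/-- `∑_{p ≤ N} |a_p(F)|² / p` -/
noncomputable def SS (a : ArithmeticFunction ℂ) (N : ℕ) : ℝ :=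
  ∑ p ∈ (Finset.Iic N).filter Nat.Prime, ‖a p‖ ^ 2 / (p : ℝ)

lemma CS_self (a : ArithmeticFunction ℂ) (N : ℕ) : CS a a N = (SS a N : ℂ) := by
  unfold CS SS
  push_cast
  refine Finset.sum_congr rfl fun p _ => ?_
  rw [Complex.mul_conj, Complex.normSq_eq_norm_sq]
  push_cast
  rfl

lemma mul_at_prime {a b : ArithmeticFunction ℂ} (ha : a 1 = 1) (hb : b 1 = 1) {p : ℕ} (hp : p.Prime) :
    (a * b) p = a p + b p := by
  have h := mul_pp a b hp 1
  rw [pow_one, Finset.sum_range_succ, Finset.sum_range_one] at h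
  simp only [pow_zero, Nat.sub_zero, pow_one, Nat.sub_self, ha, hb, one_mul, mul_one] at h
  rw [h, add_comm]

lemma CS_mul {a b : ArithmeticFunction ℂ} (ha : a 1 = 1) (hb : b 1 = 1) (F : ArithmeticFunction ℂ) (N : ℕ) :
    CS (a * b) F N = CS a F N + CS b F N := by
  unfold CS
  rw [← Finset.sum_add_distrib]
  refine Finset.sum_congr rfl fun p hp => ?_
  rw [mul_at_prime ha hb (Finset.mem_filter.1 hp).2]
  ring

lemma CS_one (F : ArithmeticFunction ℂ) (N : ℕ) : CS 1 F N = 0 := by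
  unfold CS
  refine Finset.sum_eq_zero fun p hp => ?_
  rw [ArithmeticFunction.one_apply, if_neg (Finset.mem_filter.1 hp).2.one_lt.ne', zero_mul, zero_div]

lemma one_mul_one {a b : ArithmeticFunction ℂ} (ha : a 1 = 1) (hb : b 1 = 1) : (a * b) 1 = 1 := by
  rw [ArithmeticFunction.mul_apply]
  simp [ha, hb]

lemma CS_pow {a : ArithmeticFunction ℂ} (ha : a 1 = 1) (F : ArithmeticFunction ℂ) (k N : ℕ) :
    (a ^ k) 1 = 1 ∧ CS (a ^ k) F N = k * CS a F N := by
  induction k with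
  | zero =>
    rw [pow_zero, CS_one]
    simp
  | succ k ih =>
    rw [pow_succ]
    refine ⟨one_mul_one ih.1 ha, ?_⟩
    rw [CS_mul ih.1 ha, ih.2]
    push_cast
    ring

/-- products of elements with bounded sums -/
lemma CS_prod {F : ArithmeticFunction ℂ} {M : Multiset (ArithmeticFunction ℂ)} (h1 : ∀ p ∈ M, p 1 = 1)
    (h : ∀ p ∈ M, ∃ C : ℝ, ∀ N, ‖CS p F N‖ ≤ C) : M.prod 1 = 1 ∧ ∃ C : ℝ, ∀ N, ‖CS M.prod F N‖ ≤ C := by
  induction M using Multiset.induction_on with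
  | empty => exact ⟨by simp, 0, fun N => by rw [Multiset.prod_zero, CS_one, norm_zero]⟩
  | cons a M ih =>
    obtain ⟨i1, C, i2⟩ := ih (fun p hp => h1 p (Multiset.mem_cons_of_mem hp)) fun p hp => h p (Multiset.mem_cons_of_mem hp)
    obtain ⟨C', hC'⟩ := h a (Multiset.mem_cons_self a M)
    have ha := h1 a (Multiset.mem_cons_self a M)
    rw [Multiset.prod_cons]
    refine ⟨one_mul_one ha i1, C' + C, fun N => ?_⟩
    rw [CS_mul ha i1]
    exact (norm_add_le _ _).trans (add_le_add (hC' N) (i2 N))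

/-- **failure of unique factorisation and of orthonormality at `F`** -/
theorem fails_at {𝒞 : ArithmeticFunction ℂ → Prop} (hup : ∀ a, 𝒞 a → SPo a) (h1 : 𝒞 1)
    (hm : ∀ a b, 𝒞 a → 𝒞 b → 𝒞 (a * b)) {F F₁ F₂ G : ArithmeticFunction ℂ} (hF : PrimIn 𝒞 F)
    (c₁ : 𝒞 F₁) (c₂ : 𝒞 F₂) (cG : 𝒞 G) (hprod : F₁ * F₂ = F * G)
    (n₁ : ¬ ∃ K, SPo K ∧ F₁ = F * K) (n₂ : ¬ ∃ K, SPo K ∧ F₂ = F * K) [DecidableEq (ArithmeticFunction ℂ)] :
    (∀ n : ℕ, ∃ M : Fin (n + 1) → Multiset (ArithmeticFunction ℂ),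
      (∀ i, (∀ P ∈ M i, PrimIn 𝒞 P) ∧ (M i).prod = (F₁ * F₂) ^ n) ∧ (M 0).count F = 0 ∧
      StrictMono fun i => (M i).count F) ∧
    ((∃ C : ℝ, ∀ N, SS F N ≤ C) ∨ ∃ P, PrimIn 𝒞 P ∧ P ≠ F ∧ ¬ ∃ C : ℝ, ∀ N, ‖CS P F N‖ ≤ C) := by
  have hS : ∀ a, 𝒞 a → S a := fun a ha => (isSel_iff a).1 (hup a ha).1
  have hone : ∀ a, 𝒞 a → a 1 = 1 := fun a ha => (hup a ha).1.one
  obtain ⟨M₁, p₁, q₁⟩ := factor_in hS c₁
  obtain ⟨M₂, p₂, q₂⟩ := factor_in hS c₂
  obtain ⟨M₃, p₃, q₃⟩ := factor_in hS cG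
  have hno : ∀ (E : ArithmeticFunction ℂ) (M : Multiset (ArithmeticFunction ℂ)),
      (∀ p ∈ M, PrimIn 𝒞 p) → M.prod = E → (¬ ∃ K, SPo K ∧ E = F * K) → F ∉ M := by
    intro E M hp hq hn hmem
    apply hn
    refine ⟨(M.erase F).prod, hup _ (prod_in h1 hm fun p hp' => (hp p (Multiset.mem_of_mem_erase hp')).1), ?_⟩
    rw [← hq, Multiset.prod_erase hmem]
  have z₁ := hno F₁ M₁ p₁ q₁ n₁
  have z₂ := hno F₂ M₂ p₂ q₂ n₂
  refine ⟨fun n => ?_, ?_⟩
  · refine ⟨fun i => (n - (i : ℕ)) • (M₁ + M₂) + (i : ℕ) • (F ::ₘ M₃), fun i => ⟨?_, ?_⟩, ?_, ?_⟩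
    · intro p hp
      rcases Multiset.mem_add.1 hp with hp | hp
      · have hp := Multiset.mem_of_mem_nsmul hp
        rcases Multiset.mem_add.1 hp with hp | hp
        · exact p₁ p hp
        · exact p₂ p hp
      · have hp := Multiset.mem_of_mem_nsmul hp
        rcases Multiset.mem_cons.1 hp with hp | hp
        · rw [hp]; exact hF
        · exact p₃ p hp
    · have hi : (i : ℕ) ≤ n := Nat.lt_succ_iff.1 i.2
      rw [Multiset.prod_add, Multiset.prod_nsmul, Multiset.prod_nsmul, Multiset.prod_add, Multiset.prod_cons,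
        q₁, q₂, q₃, ← hprod, ← pow_add, Nat.sub_add_cancel hi]
    · simp only [Fin.val_zero, Nat.sub_zero, zero_smul, add_zero]
      rw [Multiset.count_nsmul, Multiset.count_add, Multiset.count_eq_zero_of_notMem z₁,
        Multiset.count_eq_zero_of_notMem z₂]
      simp
    · intro i j hij
      have hij' : (i : ℕ) < j := hij
      simp only [Multiset.count_add, Multiset.count_nsmul, Multiset.count_eq_zero_of_notMem z₁,
        Multiset.count_eq_zero_of_notMem z₂, Multiset.count_cons_self]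
      simp only [add_zero, mul_zero, zero_add]
      exact Nat.mul_lt_mul_of_pos_right hij' (Nat.succ_pos _)
  · by_contra hcon
    rw [not_or] at hcon
    obtain ⟨hun, hcon⟩ := hcon
    push Not at hcon
    have hB : ∀ p : ArithmeticFunction ℂ, PrimIn 𝒞 p → p ≠ F → ∃ C : ℝ, ∀ N, ‖CS p F N‖ ≤ C := fun p hp hne => hcon p hp hne
    obtain ⟨-, C₁, hC₁⟩ := CS_prod (F := F) (M := M₁) (fun p hp => hone p (p₁ p hp).1) fun p hp =>
      hB p (p₁ p hp) fun h => z₁ (h ▸ hp)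
    obtain ⟨-, C₂, hC₂⟩ := CS_prod (F := F) (M := M₂) (fun p hp => hone p (p₂ p hp).1) fun p hp =>
      hB p (p₂ p hp) fun h => z₂ (h ▸ hp)
    rw [q₁] at hC₁
    rw [q₂] at hC₂
    set M' := M₃.filter (fun p => ¬ p = F) with hM'
    have hM3 : M₃ = M₃.filter (fun p => p = F) + M' := (Multiset.filter_add_not _ M₃).symm
    have hZ : M₃.filter (fun p => p = F) = Multiset.replicate (M₃.count F) F := Multiset.filter_eq' M₃ F
    obtain ⟨o3, C₃, hC₃⟩ := CS_prod (F := F) (M := M') (fun p hp => hone p (p₃ p (Multiset.mem_of_mem_filter hp)).1)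
      fun p hp => hB p (p₃ p (Multiset.mem_of_mem_filter hp)) (Multiset.mem_filter.1 hp).2
    have hG : F₁ * F₂ = F ^ (M₃.count F + 1) * M'.prod := by
      rw [hprod, ← q₃]
      conv_lhs => rw [hM3]
      rw [Multiset.prod_add, hZ, Multiset.prod_replicate, pow_succ]
      ring
    have hF1 := hone F hF.1
    apply hun
    refine ⟨C₁ + C₂ + C₃, fun N => ?_⟩
    have e1 := CS_mul (hone _ c₁) (hone _ c₂) F N
    rw [hG, CS_mul (CS_pow hF1 F _ N).1 o3, (CS_pow hF1 F _ N).2, CS_self] at e1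
    have e2 : (((M₃.count F + 1 : ℕ) : ℂ) * (SS F N : ℂ)) = CS F₁ F N + CS F₂ F N - CS M'.prod F N := by
      linear_combination e1
    have e3 := congrArg norm e2
    rw [norm_mul, Complex.norm_natCast, Complex.norm_real, Real.norm_eq_abs] at e3
    have e4 : ‖CS F₁ F N + CS F₂ F N - CS M'.prod F N‖ ≤ C₁ + C₂ + C₃ := by
      refine (norm_sub_le _ _).trans (add_le_add ((norm_add_le _ _).trans (add_le_add (hC₁ N) (hC₂ N))) (hC₃ N))
    rw [← e3] at e4
    have e5 : |SS F N| ≤ ((M₃.count F + 1 : ℕ) : ℝ) * |SS F N| := by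
      have : (1:ℝ) ≤ ((M₃.count F + 1 : ℕ) : ℝ) := by exact_mod_cast Nat.succ_pos _
      nlinarith [abs_nonneg (SS F N)]
    exact (le_abs_self _).trans (e5.trans e4)

end Pool.Agent.H616.SP.Q
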