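import Pool.Agent.H616.SQ.LocF

set_option autoImplicit false

/-!
# The class of standard L-functions, and elements without unique factorisation
-/

namespace Pool.Agent.H616.SP.Q

open Filter Topology Polynomial Complex
open Pool.Agent.H483.UF (S)

/-- a local series with exactly `n` Satake parameters, all unimodular -/
def Ul (n : ℕ) (φ : PowerSeries ℂ) : Prop :=
  ∃ al : Fin n → ℂ, (∀ j, ‖al j‖ = 1) ∧ φ * ((∏ j, (1 - C (al j) * X) : ℂ[X]) : PowerSeries ℂ) = 1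

lemma Ul.mul {m n : ℕ} {φ ψ : PowerSeries ℂ} (h1 : Ul m φ) (h2 : Ul n ψ) : Ul (m + n) (φ * ψ) := by
  obtain ⟨al, a1, a2⟩ := h1
  obtain ⟨be, b1, b2⟩ := h2
  refine ⟨Fin.append al be, fun j => ?_, ?_⟩
  · refine Fin.addCases (fun i => ?_) (fun i => ?_) j
    · rw [Fin.append_left]; exact a1 i
    · rw [Fin.append_right]; exact b1 i
  · rw [Fin.prod_univ_add]
    simp only [Fin.append_left, Fin.append_right]
    rw [Polynomial.coe_mul, mul_mul_mul_comm, a2, b2, one_mul]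

lemma Ul_one : Ul 0 1 := ⟨Fin.elim0, fun j => j.elim0, by simp⟩

lemma Ul_zeta {p : ℕ} (hp : p.Prime) : Ul 1 (PowerSeries.mk fun k => zt (p ^ k)) := by
  refine ⟨fun _ => 1, fun _ => by simp, ?_⟩
  have := zt_loc hp 1
  rw [pow_one, pow_one] at this
  rw [Fin.prod_univ_one, map_one, one_mul]
  exact this

/-- local part of the standard class -/
def StdLocal (a : ArithmeticFunction ℂ) (M : ℕ) : Prop :=
  ∃ P₀ : ℝ, ∀ p : ℕ, p.Prime → ∃ k : ℕ, k ≤ M ∧ (P₀ < p → k = M) ∧ Ul k (PowerSeries.mk fun i => a (p ^ i))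

lemma StdLocal.mul {a b : ArithmeticFunction ℂ} {M N : ℕ} (ha : StdLocal a M) (hb : StdLocal b N) :
    StdLocal (a * b) (M + N) := by
  obtain ⟨P, hP⟩ := ha
  obtain ⟨R, hR⟩ := hb
  refine ⟨max P R, fun p hp => ?_⟩
  obtain ⟨k, k1, k2, k3⟩ := hP p hp
  obtain ⟨l, l1, l2, l3⟩ := hR p hp
  refine ⟨k + l, by omega, fun h => ?_, ?_⟩
  · rw [k2 (lt_of_le_of_lt (le_max_left _ _) h), l2 (lt_of_le_of_lt (le_max_right _ _) h)]
  · rw [mk_mul a b hp]
    exact k3.mul l3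

/-- the completed function with conductor `N` and `M` gamma factors `π^{-s/2} Γ(s/2)` -/
noncomputable def Lam (m : ℕ) (G : ℂ → ℂ) (M N : ℕ) (s : ℂ) : ℂ :=
  (N : ℂ) ^ (s / 2) * Gammaℝ s ^ M * (G s / (s - 1) ^ m)

/-- the functional equation of degree `M`, conductor `N` -/
def StdFE (a : ArithmeticFunction ℂ) (M N : ℕ) : Prop :=
  0 < N ∧ ∃ (m : ℕ) (G : ℂ → ℂ), Differentiable ℂ G ∧ (∃ A B : ℝ, ∀ z : ℂ, ‖G z‖ ≤ A * Real.exp (‖z‖ ^ B)) ∧
    (∀ s : ℂ, 1 < s.re → G s = (s - 1) ^ m * LSeries (fun n => a n) s) ∧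
    ∀ s : ℂ, 0 < s.re → s.re < 1 → Lam m G M N s = starRingEnd ℂ (Lam m G M N (1 - starRingEnd ℂ s))

lemma StdFE.mul {a b : ArithmeticFunction ℂ} {M N M' N' : ℕ} (sa : S a) (sb : S b) (ha : StdFE a M N)
    (hb : StdFE b M' N') : StdFE (a * b) (M + M') (N * N') := by
  obtain ⟨hN, m, G, a1, a2, a3, a4⟩ := ha
  obtain ⟨hN', m', G', b1, b2, b3, b4⟩ := hb
  have hsw : ∀ {G : ℂ → ℂ}, (∃ A B : ℝ, ∀ z : ℂ, ‖G z‖ ≤ A * Real.exp (‖z‖ ^ B)) →
      ∃ B A : ℝ, ∀ z : ℂ, ‖G z‖ ≤ A * Real.exp (‖z‖ ^ B) := fun ⟨A, B, h⟩ => ⟨B, A, h⟩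
  refine ⟨Nat.mul_pos hN hN', m + m', fun s => G s * G' s, a1.mul b1, ?_, fun s hs => ?_, fun s h1 h2 => ?_⟩
  · obtain ⟨B, A, h⟩ := Pool.Agent.H483.UF.order_mul a1.continuous b1.continuous (hsw a2) (hsw b2)
    exact ⟨A, B, h⟩
  · beta_reduce
    rw [Pool.Agent.H483.UF.LS_mul sa sb hs, a3 s hs, b3 s hs, pow_add]
    ring
  · have e : ∀ w : ℂ, Lam (m + m') (fun s => G s * G' s) (M + M') (N * N') w = Lam m G M N w * Lam m' G' M' N' w := by
      intro w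
      unfold Lam
      push_cast
      rw [Complex.natCast_mul_natCast_cpow, pow_add, pow_add, mul_div_mul_comm]
      ring
    rw [e, e, a4 s h1 h2, b4 s h1 h2, map_mul]

lemma pow_exp {x : ℝ} (hx : 0 < x) (s : ℂ) : (x : ℂ) ^ s = Complex.exp (Real.log x * s) := by
  rw [Complex.cpow_def_of_ne_zero (by exact_mod_cast hx.ne'), Complex.ofReal_log hx.le]

/-- the completed functions agree -/
lemma Lam_eq {M N : ℕ} (hN : 0 < N) (m : ℕ) (G : ℂ → ℂ) (s : ℂ) :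
    Phi m G (Real.sqrt (N / Real.pi ^ M)) M (fun _ => 1 / 2) (fun _ => 0) s = Lam m G M N s := by
  unfold Phi Lam
  congr 1
  have hpi : 0 < Real.pi ^ M := by positivity
  have hN0 : (0:ℝ) < N := by exact_mod_cast hN
  have hx : 0 < (N : ℝ) / Real.pi ^ M := by positivity
  have e1 : ((Real.sqrt (N / Real.pi ^ M) : ℝ) : ℂ) ^ s = (N : ℂ) ^ (s / 2) * ((Real.pi : ℂ) ^ (-s / 2)) ^ M := by
    rw [pow_exp (Real.sqrt_pos.2 hx), Real.log_sqrt hx.le, Real.log_div hN0.ne' hpi.ne', Real.log_pow,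
      pow_exp Real.pi_pos, ← Complex.exp_nat_mul]
    have e2 : (N : ℂ) ^ (s / 2) = Complex.exp (Real.log N * (s / 2)) := by
      have := pow_exp hN0 (s / 2)
      rwa [Complex.ofReal_natCast] at this
    rw [e2, ← Complex.exp_add]
    congr 1
    push_cast
    ring
  rw [e1, Finset.prod_const, Finset.card_univ, Fintype.card_fin, Complex.Gammaℝ_def, mul_pow]
  have e3 : ((1 / 2 : ℝ) : ℂ) * s + 0 = s / 2 := by push_cast; ring
  rw [e3]
  ring

/-- zeta -/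
lemma zt_eq : zt = Pool.Agent.H483.UF.Zt := rfl

lemma StdFE_zeta : StdFE zt 1 1 := by
  have h := Pool.Agent.H483.UF.zeta_cls
  obtain ⟨-, -, -, hfe⟩ := Pool.Agent.H483.UF.zeta_fe
  refine ⟨one_pos, 1, Pool.Agent.H486R3.PZZ.Z, Pool.Agent.H486R3.PZZ.Z_diff, ?_, fun s hs => ?_, fun s h1 h2 => ?_⟩
  · obtain ⟨B, A, h⟩ := (Pool.Agent.H902R3.PZ.Gr.of Pool.Agent.H486R3.PZZ.Z_growth).order
    exact ⟨A, B, h⟩
  · have hs1 : s ≠ 1 := by
      intro h
      rw [h] at hs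
      simp at hs
    rw [Pool.Agent.H486R3.PZZ.Z_ne hs1, pow_one, zt_eq, Pool.Agent.H483.UF.LS_zeta hs]
  · have h3 := hfe s h1 h2
    have hQ : Real.exp (-(1 / 2 * Real.log Real.pi)) = Real.sqrt ((1 : ℕ) / Real.pi ^ 1) := by
      rw [pow_one, Nat.cast_one, Real.sqrt_eq_rpow, Real.rpow_def_of_pos (by positivity), Real.log_div one_ne_zero
        Real.pi_pos.ne', Real.log_one]
      congr 1
      ring
    rw [hQ, one_mul] at h3
    have e : ∀ w : ℂ, ((Real.sqrt ((1 : ℕ) / Real.pi ^ 1) : ℝ) : ℂ) ^ w *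
        (∏ j : Fin 1, Complex.Gamma (((fun _ : Fin 1 => (1 / 2 : ℝ)) j : ℂ) * w + (fun _ : Fin 1 => (0:ℂ)) j)) *
        (Pool.Agent.H486R3.PZZ.Z w / (w - 1) ^ 1) = Lam 1 Pool.Agent.H486R3.PZZ.Z 1 1 w := fun w =>
      Lam_eq (M := 1) (N := 1) one_pos 1 _ w
    rw [← e, ← e]
    exact h3

/-- the standard class -/
def Std (a : ArithmeticFunction ℂ) : Prop :=
  IsSel a ∧ a.IsMultiplicative ∧ ∃ M N : ℕ, StdFE a M N ∧ StdLocal a M

lemma Std.mul {a b : ArithmeticFunction ℂ} (ha : Std a) (hb : Std b) : Std (a * b) := by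
  obtain ⟨h1, h2, M, N, h3, h4⟩ := ha
  obtain ⟨k1, k2, M', N', k3, k4⟩ := hb
  exact ⟨(isSel_iff _).2 (((isSel_iff a).1 h1).mul ((isSel_iff b).1 k1)), h2.mul k2, M + M', N * N',
    h3.mul ((isSel_iff a).1 h1) ((isSel_iff b).1 k1) k3, h4.mul k4⟩

lemma lin_ne (z : ℂ) : (1 - C z * X : ℂ[X]) ≠ 0 := by
  intro h
  have := congrArg (fun p : ℂ[X] => p.coeff 0) h
  simp at this

lemma Std.spo {a : ArithmeticFunction ℂ} (ha : Std a) : SPo a := by
  obtain ⟨h1, h2, M, N, -, P₀, h4⟩ := ha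
  refine ⟨h1, h2, M, fun p hp => ?_⟩
  obtain ⟨k, hk, -, al, -, hal⟩ := h4 p hp
  refine ⟨_, ?_, hal⟩
  refine (Polynomial.natDegree_prod_le _ _).trans ?_
  calc ∑ j : Fin k, (1 - Polynomial.C (al j) * Polynomial.X : Polynomial ℂ).natDegree ≤ ∑ _j : Fin k, 1 := by
        apply Finset.sum_le_sum
        intro j _
        exact lin_deg _
    _ = k := by simp
    _ ≤ M := hk

lemma Std_zeta : Std zt :=
  ⟨(isSel_iff _).2 Pool.Agent.H483.UF.S.zeta, zt_mul, 1, 1, StdFE_zeta, 0, fun p hp => ⟨1, le_rfl, fun _ => rfl, Ul_zeta hp⟩⟩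

/-! ### the elements -/

/-- **The elements `H`.** -/
theorem exists_H (A : ℕ → Prop) : ∃ (H : ArithmeticFunction ℂ) (N : ℕ) (P0 : ℝ), IsSel H ∧ H.IsMultiplicative ∧ StdFE H 8 N ∧
    (∀ p : ℕ, p.Prime → P0 < p → A p → ∃ al : Fin 9 → ℂ, (∀ j, ‖al j‖ = 1) ∧
      (PowerSeries.mk fun k => H (p ^ k)) * ((∏ j, (1 - C (al j) * X) : ℂ[X]) : PowerSeries ℂ) =
        ((1 - X : ℂ[X]) : PowerSeries ℂ)) ∧
    (∀ p : ℕ, p.Prime → P0 < p → ¬ A p → Ul 8 (PowerSeries.mk fun k => H (p ^ k))) ∧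
    (∀ p : ℕ, p.Prime → (p : ℝ) ≤ P0 → (PowerSeries.mk fun k => H (p ^ k)) = 1) ∧
    (∃ P1 : ℝ, ∀ p : ℕ, p.Prime → P1 < p → A p → ¬ ∃ T : ℂ[X], (PowerSeries.mk fun k => H (p ^ k)) * (T : PowerSeries ℂ) = 1) := by
  obtain ⟨c, B, hc, hc1, hc2⟩ := exists_loc A
  obtain ⟨Q₀, hQ₀, h⟩ := family_entire (r := 8) (lam := fun _ => 1 / 2) (mu := fun _ => 0) (fun _ => by norm_num)
    (fun _ => by simp) (by simp; norm_num) hc
  have hpi : 0 < Real.pi ^ 8 := by positivity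
  obtain ⟨N, hN⟩ := exists_nat_ge (|Q₀| ^ 2 * Real.pi ^ 8)
  have hQ : Q₀ ≤ Real.sqrt (N / Real.pi ^ 8) := by
    refine (le_abs_self Q₀).trans (Real.le_sqrt_of_sq_le ?_)
    rw [le_div_iff₀ hpi]
    exact hN
  have hN0 : 0 < N := by
    rcases Nat.eq_zero_or_pos N with h0 | h0
    · subst h0
      simp at hQ
      linarith
    · exact h0
  have hQ0 : 0 < Real.sqrt (N / Real.pi ^ 8) := by linarith
  obtain ⟨f, a, P0, G, hf, hG1, hG2, hG3, hG4⟩ := h _ hQ 1 (by simp)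
  -- local factors
  have hbig1 : ∀ p : ℕ, p.Prime → P0 < p → A p → (PowerSeries.mk fun k => f (p ^ k)) * ((R6 * cubm (a p) : ℂ[X]) : PowerSeries ℂ) =
      ((1 - X : ℂ[X]) : PowerSeries ℂ) := by
    intro p hp hlt hA
    rw [← hc1 p (a p) hA]
    congr 2
    funext k
    exact hf.big p hp hlt k
  have hbig2 : ∀ p : ℕ, p.Prime → P0 < p → ¬ A p →
      (PowerSeries.mk fun k => f (p ^ k)) * (((1 - X ^ 5) * cubm (a p) : ℂ[X]) : PowerSeries ℂ) = 1 := by
    intro p hp hlt hA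
    rw [← hc2 p (a p) hA]
    congr 2
    funext k
    exact hf.big p hp hlt k
  have hsm : ∀ p : ℕ, p.Prime → (p : ℝ) ≤ P0 → (PowerSeries.mk fun k => f (p ^ k)) = 1 := by
    intro p hp hle
    ext k
    rw [PowerSeries.coeff_mk, PowerSeries.coeff_one]
    rcases Nat.eq_zero_or_pos k with rfl | hk
    · rw [pow_zero, hf.f1, if_pos rfl]
    · rw [hf.small p hp hle k hk.ne', if_neg hk.ne']
  obtain ⟨be6, c1, c2⟩ := R6_roots
  obtain ⟨be5, d1, d2⟩ := root5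
  -- the parameters
  have hloc1 : ∀ p : ℕ, p.Prime → P0 < p → A p → ∃ al : Fin 9 → ℂ, (∀ j, ‖al j‖ = 1) ∧
      R6 * cubm (a p) = ∏ j, (1 - C (al j) * X) := by
    intro p hp hlt hA
    obtain ⟨al, e1, e2⟩ := cubm_roots (hf.abd p)
    refine ⟨(Fin.append be6 al : Fin (6 + 3) → ℂ), fun j => ?_, ?_⟩
    · refine Fin.addCases (m := 6) (n := 3) (fun i => ?_) (fun i => ?_) j
      · rw [Fin.append_left]; exact c1 i
      · rw [Fin.append_right]; exact e1 i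
    · have := Fin.prod_univ_add (a := 6) (b := 3) (fun j => (1 - C ((Fin.append be6 al : Fin (6 + 3) → ℂ) j) * X : ℂ[X]))
      rw [c2, e2]
      refine Eq.trans ?_ this.symm
      simp only [Fin.append_left, Fin.append_right]
  have hloc2 : ∀ p : ℕ, p.Prime → P0 < p → ¬ A p → ∃ al : Fin 8 → ℂ, (∀ j, ‖al j‖ = 1) ∧
      (1 - X ^ 5) * cubm (a p) = ∏ j, (1 - C (al j) * X) := by
    intro p hp hlt hA
    obtain ⟨al, e1, e2⟩ := cubm_roots (hf.abd p)
    refine ⟨(Fin.append be5 al : Fin (5 + 3) → ℂ), fun j => ?_, ?_⟩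
    · refine Fin.addCases (m := 5) (n := 3) (fun i => ?_) (fun i => ?_) j
      · rw [Fin.append_left]; exact d1 i
      · rw [Fin.append_right]; exact e1 i
    · have := Fin.prod_univ_add (a := 5) (b := 3) (fun j => (1 - C ((Fin.append be5 al : Fin (5 + 3) → ℂ) j) * X : ℂ[X]))
      rw [d2, e2]
      refine Eq.trans ?_ this.symm
      simp only [Fin.append_left, Fin.append_right]
  have hpar : ∀ p : ℕ, ∃ (al : Fin 9 → ℂ) (be : Fin 1 → ℂ), (∀ j, ‖al j‖ ≤ 1) ∧ (∀ j, ‖be j‖ ≤ 1) ∧ (p.Prime →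
      (PowerSeries.mk fun k => f (p ^ k)) * ((∏ j, (1 - C (al j) * X) : ℂ[X]) : PowerSeries ℂ) =
        ((∏ j, (1 - C (be j) * X) : ℂ[X]) : PowerSeries ℂ)) := by
    intro p
    by_cases hp : p.Prime
    · rcases lt_or_ge P0 (p : ℝ) with hlt | hle
      · by_cases hA : A p
        · obtain ⟨al, e1, e2⟩ := hloc1 p hp hlt hA
          refine ⟨al, fun _ => 1, fun j => (e1 j).le, fun _ => by simp, fun _ => ?_⟩
          rw [← e2, hbig1 p hp hlt hA]
          simp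
        · obtain ⟨al, e1, e2⟩ := hloc2 p hp hlt hA
          refine ⟨(Fin.snoc al 0 : Fin (8 + 1) → ℂ), fun _ => 0, fun j => ?_, fun _ => by simp, fun _ => ?_⟩
          · refine Fin.lastCases ?_ (fun i => ?_) j
            · rw [Fin.snoc_last]; simp
            · rw [Fin.snoc_castSucc]; exact (e1 i).le
          · have h5 := Fin.prod_univ_castSucc (n := 8) (fun j => (1 - C ((Fin.snoc al 0 : Fin (8 + 1) → ℂ) j) * X : ℂ[X]))
            simp only [Fin.snoc_last, Fin.snoc_castSucc, map_zero, zero_mul, sub_zero, mul_one] at h5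
            have h6 := hbig2 p hp hlt hA
            rw [e2] at h6
            rw [show (∏ j : Fin 9, (1 - C ((Fin.snoc al 0 : Fin (8 + 1) → ℂ) j) * X) : ℂ[X]) = _ from h5, h6]
            simp
      · refine ⟨0, 0, fun _ => by simp, fun _ => by simp, fun _ => ?_⟩
        rw [hsm p hp hle]
        simp
    · exact ⟨0, 0, fun _ => by simp, fun _ => by simp, fun h => absurd h hp⟩
  choose al be g1 g2 g3 using hpar
  have hRP : RP f al be := ⟨hf.f0, hf.f1, hf.mul, g1, g2, fun p hp => g3 p hp⟩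
  have hord : ∃ A B : ℝ, ∀ z : ℂ, ‖G z‖ ≤ A * Real.exp (‖z‖ ^ B) := by
    obtain ⟨B, A, h⟩ := hG2.order
    exact ⟨A, B, h⟩
  have hser : ∀ s : ℂ, 1 < s.re → G s = (s - 1) ^ 0 * LSeries f s := fun s hs => by
    rw [pow_zero, one_mul]
    exact (hG3 s (by linarith)).2
  have hSel : IsSel (af f hRP.f0) := hRP.isSel ⟨0, G, hG1, hord, hser, _, 8, fun _ => 1 / 2, fun _ => 0, 1, hQ0,
    fun _ => by norm_num, fun _ => by simp, by simp, fun s _ _ h1 h2 => hG4 s h1 h2⟩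
  refine ⟨af f hRP.f0, N, P0, hSel, hRP.isMul, ⟨hN0, 0, G, hG1, hord, hser, fun s h1 h2 => ?_⟩, ?_, ?_, hsm, ?_⟩
  · have h3 : NoPole 8 (fun _ => 1 / 2) (fun _ => 0) s := noPole_of (fun _ => by norm_num) (fun _ => by simp) h1
    have h4 : NoPole 8 (fun _ => 1 / 2) (fun _ => 0) (1 - starRingEnd ℂ s) :=
      noPole_of (fun _ => by norm_num) (fun _ => by simp) (by simp; linarith)
    have h5 := hG4 s h3 h4
    rwa [Lam_eq hN0, Lam_eq hN0, one_mul] at h5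
  · intro p hp hlt hA
    obtain ⟨al, e1, e2⟩ := hloc1 p hp hlt hA
    refine ⟨al, e1, ?_⟩
    rw [← e2]
    exact hbig1 p hp hlt hA
  · intro p hp hlt hA
    obtain ⟨al, e1, e2⟩ := hloc2 p hp hlt hA
    refine ⟨al, e1, ?_⟩
    rw [← e2]
    exact hbig2 p hp hlt hA
  · obtain ⟨Cd, hCd⟩ := hf.dec
    have hlim : Tendsto (fun x : ℝ => Cd * x ^ (4 * (77 / 400 : ℝ) - 1)) atTop (𝓝 (Cd * 0)) := by
      refine Tendsto.const_mul _ ?_
      have := tendsto_rpow_neg_atTop (y := 1 - 4 * (77 / 400 : ℝ)) (by norm_num)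
      refine this.congr fun x => ?_
      congr 1
      ring
    rw [mul_zero] at hlim
    obtain ⟨P1, hP1⟩ := eventually_atTop.1 (hlim.eventually_lt_const one_pos)
    refine ⟨max P0 P1, fun p hp hlt hA => ?_⟩
    rintro ⟨T, hT⟩
    have h1 := hbig1 p hp (lt_of_le_of_lt (le_max_left _ _) hlt) hA
    have h2 : (R6 * cubm (a p) : ℂ[X]) = (1 - X) * T := by
      apply Polynomial.coe_injective
      rw [Polynomial.coe_mul (1 - X) T, ← h1]
      have hT' : (PowerSeries.mk fun k => f (p ^ k)) * (T : PowerSeries ℂ) = 1 := hT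
      calc ((R6 * cubm (a p) : ℂ[X]) : PowerSeries ℂ) =
            ((PowerSeries.mk fun k => f (p ^ k)) * (T : PowerSeries ℂ)) * ((R6 * cubm (a p) : ℂ[X]) : PowerSeries ℂ) := by
            rw [hT', one_mul]
        _ = _ := by ring
    have h3 := congrArg (Polynomial.eval 1) h2
    rw [eval_mul, eval_mul, R6_eval, one_mul] at h3
    simp at h3
    have h4 : ‖a p‖ < 1 := by
      have h5 := hCd p
      have h6 := hP1 p ((le_max_right _ _).trans hlt.le)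
      have h7 := norm_nonneg (a p)
      nlinarith
    exact cubm_eval h4 h3

end Pool.Agent.H616.SP.Q
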