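import Pool.Agent.H616.SQ.LocG

set_option autoImplicit false

/-!
# Elements with a numerator `1 - w_p X` in the local factors
-/

namespace Pool.Agent.H616.SP.Q

open Filter Topology Polynomial Complex
open Pool.Agent.H483.UF (S)

/-- **The elements `H`.** -/
theorem exists_HG (w : ℕ → ℂ) (hw : ∀ p, ‖w p‖ ≤ 1) :
    ∃ (H : ArithmeticFunction ℂ) (N : ℕ) (P0 : ℝ), IsSel H ∧ H.IsMultiplicative ∧ StdFE H 8 N ∧
    (∀ p : ℕ, p.Prime → P0 < p → w p ≠ 0 → ∃ al : Fin 9 → ℂ, (∀ j, ‖al j‖ ≤ 1) ∧ (‖w p‖ = 1 → ∀ j, ‖al j‖ = 1) ∧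
      (PowerSeries.mk fun k => H (p ^ k)) * ((∏ j, (1 - C (al j) * X) : ℂ[X]) : PowerSeries ℂ) =
        ((1 - C (w p) * X : ℂ[X]) : PowerSeries ℂ)) ∧
    (∀ p : ℕ, p.Prime → P0 < p → w p = 0 → Ul 8 (PowerSeries.mk fun k => H (p ^ k))) ∧
    (∀ p : ℕ, p.Prime → (p : ℝ) ≤ P0 → (PowerSeries.mk fun k => H (p ^ k)) = 1) ∧
    (∃ P1 : ℝ, ∀ p : ℕ, p.Prime → P1 < p → w p ≠ 0 →
      ¬ ∃ T : ℂ[X], (PowerSeries.mk fun k => H (p ^ k)) * (T : PowerSeries ℂ) = 1) := by
  obtain ⟨c, B, hc, hc1, hc2⟩ := exists_locG w hw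
  obtain ⟨Q₀, hQ₀, h⟩ := family_entire (r := 8) (lam := fun _ => 1 / 2) (mu := fun _ => 0) (fun _ => by norm_num)
    (fun _ => by simp) (by simp; norm_num) hc
  have hpi : 0 < Real.pi ^ 8 := by positivity
  obtain ⟨N, hN⟩ := exists_nat_ge (|Q₀| ^ 2 * Real.pi ^ 8)
  have hQ : Q₀ ≤ Real.sqrt (N / Real.pi ^ 8) := by
    refine (le_abs_self Q₀).trans (Real.le_sqrt_of_sq_le ?_)
    rw [le_div_iff₀ hpi]
    exact hN
  have hN0 : 0 < N := by
    rcases Nat.eq_zero_or_pos N with h0 | h0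
    · subst h0
      simp at hQ
      linarith
    · exact h0
  have hQ0 : 0 < Real.sqrt (N / Real.pi ^ 8) := by linarith
  obtain ⟨f, a, P0, G, hf, hG1, hG2, hG3, hG4⟩ := h _ hQ 1 (by simp)
  -- local factors
  have hbig1 : ∀ p : ℕ, p.Prime → P0 < p → w p ≠ 0 → (PowerSeries.mk fun k => f (p ^ k)) *
      ((R6w (w p) * cubx (w p) (a p) : ℂ[X]) : PowerSeries ℂ) = ((1 - C (w p) * X : ℂ[X]) : PowerSeries ℂ) := by
    intro p hp hlt hA
    rw [← hc1 p (a p) hA]
    congr 2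
    funext k
    exact hf.big p hp hlt k
  have hbig2 : ∀ p : ℕ, p.Prime → P0 < p → w p = 0 →
      (PowerSeries.mk fun k => f (p ^ k)) * (((1 - X ^ 5) * cubm (a p) : ℂ[X]) : PowerSeries ℂ) = 1 := by
    intro p hp hlt hA
    rw [← hc2 p (a p) hA]
    congr 2
    funext k
    exact hf.big p hp hlt k
  have hsm : ∀ p : ℕ, p.Prime → (p : ℝ) ≤ P0 → (PowerSeries.mk fun k => f (p ^ k)) = 1 := by
    intro p hp hle
    ext k
    rw [PowerSeries.coeff_mk, PowerSeries.coeff_one]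
    rcases Nat.eq_zero_or_pos k with rfl | hk
    · rw [pow_zero, hf.f1, if_pos rfl]
    · rw [hf.small p hp hle k hk.ne', if_neg hk.ne']
  obtain ⟨be6, c1, c2⟩ := R6w_roots
  obtain ⟨be5, d1, d2⟩ := root5
  -- the parameters
  have hloc1 : ∀ p : ℕ, p.Prime → P0 < p → w p ≠ 0 → ∃ al : Fin 9 → ℂ, (∀ j, ‖al j‖ ≤ 1) ∧ (‖w p‖ = 1 → ∀ j, ‖al j‖ = 1) ∧
      R6w (w p) * cubx (w p) (a p) = ∏ j, (1 - C (al j) * X) := by
    intro p hp hlt hA
    obtain ⟨al, e1, e2⟩ := cubx_roots (w p) (hf.abd p)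
    refine ⟨(Fin.append (fun j => be6 j * w p) al : Fin (6 + 3) → ℂ), fun j => ?_, fun hw1 j => ?_, ?_⟩
    · refine Fin.addCases (m := 6) (n := 3) (fun i => ?_) (fun i => ?_) j
      · rw [Fin.append_left, norm_mul, c1 i, one_mul]; exact hw p
      · rw [Fin.append_right]; exact (e1 i).le
    · refine Fin.addCases (m := 6) (n := 3) (fun i => ?_) (fun i => ?_) j
      · rw [Fin.append_left, norm_mul, c1 i, one_mul]; exact hw1
      · rw [Fin.append_right]; exact e1 i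
    · have := Fin.prod_univ_add (a := 6) (b := 3)
        (fun j => (1 - C ((Fin.append (fun j => be6 j * w p) al : Fin (6 + 3) → ℂ) j) * X : ℂ[X]))
      rw [c2 (w p), e2]
      refine Eq.trans ?_ this.symm
      simp only [Fin.append_left, Fin.append_right]
  have hloc2 : ∀ p : ℕ, p.Prime → P0 < p → w p = 0 → ∃ al : Fin 8 → ℂ, (∀ j, ‖al j‖ = 1) ∧
      (1 - X ^ 5) * cubm (a p) = ∏ j, (1 - C (al j) * X) := by
    intro p hp hlt hA
    obtain ⟨al, e1, e2⟩ := cubm_roots (hf.abd p)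
    refine ⟨(Fin.append be5 al : Fin (5 + 3) → ℂ), fun j => ?_, ?_⟩
    · refine Fin.addCases (m := 5) (n := 3) (fun i => ?_) (fun i => ?_) j
      · rw [Fin.append_left]; exact d1 i
      · rw [Fin.append_right]; exact e1 i
    · have := Fin.prod_univ_add (a := 5) (b := 3) (fun j => (1 - C ((Fin.append be5 al : Fin (5 + 3) → ℂ) j) * X : ℂ[X]))
      rw [d2, e2]
      refine Eq.trans ?_ this.symm
      simp only [Fin.append_left, Fin.append_right]
  have hpar : ∀ p : ℕ, ∃ (al : Fin 9 → ℂ) (be : Fin 1 → ℂ), (∀ j, ‖al j‖ ≤ 1) ∧ (∀ j, ‖be j‖ ≤ 1) ∧ (p.Prime →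
      (PowerSeries.mk fun k => f (p ^ k)) * ((∏ j, (1 - C (al j) * X) : ℂ[X]) : PowerSeries ℂ) =
        ((∏ j, (1 - C (be j) * X) : ℂ[X]) : PowerSeries ℂ)) := by
    intro p
    by_cases hp : p.Prime
    · rcases lt_or_ge P0 (p : ℝ) with hlt | hle
      · by_cases hA : w p ≠ 0
        · obtain ⟨al, e1, -, e2⟩ := hloc1 p hp hlt hA
          refine ⟨al, fun _ => w p, e1, fun _ => hw p, fun _ => ?_⟩
          rw [← e2, hbig1 p hp hlt hA, Fin.prod_univ_one]
        · rw [not_not] at hA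
          obtain ⟨al, e1, e2⟩ := hloc2 p hp hlt hA
          refine ⟨(Fin.snoc al 0 : Fin (8 + 1) → ℂ), fun _ => 0, fun j => ?_, fun _ => by simp, fun _ => ?_⟩
          · refine Fin.lastCases ?_ (fun i => ?_) j
            · rw [Fin.snoc_last]; simp
            · rw [Fin.snoc_castSucc]; exact (e1 i).le
          · have h5 := Fin.prod_univ_castSucc (n := 8) (fun j => (1 - C ((Fin.snoc al 0 : Fin (8 + 1) → ℂ) j) * X : ℂ[X]))
            simp only [Fin.snoc_last, Fin.snoc_castSucc, map_zero, zero_mul, sub_zero, mul_one] at h5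
            have h6 := hbig2 p hp hlt hA
            rw [e2] at h6
            rw [show (∏ j : Fin 9, (1 - C ((Fin.snoc al 0 : Fin (8 + 1) → ℂ) j) * X) : ℂ[X]) = _ from h5, h6]
            simp
      · refine ⟨0, 0, fun _ => by simp, fun _ => by simp, fun _ => ?_⟩
        rw [hsm p hp hle]
        simp
    · exact ⟨0, 0, fun _ => by simp, fun _ => by simp, fun h => absurd h hp⟩
  choose al be g1 g2 g3 using hpar
  have hRP : RP f al be := ⟨hf.f0, hf.f1, hf.mul, g1, g2, fun p hp => g3 p hp⟩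
  have hord : ∃ A B : ℝ, ∀ z : ℂ, ‖G z‖ ≤ A * Real.exp (‖z‖ ^ B) := by
    obtain ⟨B, A, h⟩ := hG2.order
    exact ⟨A, B, h⟩
  have hser : ∀ s : ℂ, 1 < s.re → G s = (s - 1) ^ 0 * LSeries f s := fun s hs => by
    rw [pow_zero, one_mul]
    exact (hG3 s (by linarith)).2
  have hSel : IsSel (af f hRP.f0) := hRP.isSel ⟨0, G, hG1, hord, hser, _, 8, fun _ => 1 / 2, fun _ => 0, 1, hQ0,
    fun _ => by norm_num, fun _ => by simp, by simp, fun s _ _ h1 h2 => hG4 s h1 h2⟩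
  refine ⟨af f hRP.f0, N, P0, hSel, hRP.isMul, ⟨hN0, 0, G, hG1, hord, hser, fun s h1 h2 => ?_⟩, ?_, ?_, hsm, ?_⟩
  · have h3 : NoPole 8 (fun _ => 1 / 2) (fun _ => 0) s := noPole_of (fun _ => by norm_num) (fun _ => by simp) h1
    have h4 : NoPole 8 (fun _ => 1 / 2) (fun _ => 0) (1 - starRingEnd ℂ s) :=
      noPole_of (fun _ => by norm_num) (fun _ => by simp) (by simp; linarith)
    have h5 := hG4 s h3 h4
    rwa [Lam_eq hN0, Lam_eq hN0, one_mul] at h5
  · intro p hp hlt hA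
    obtain ⟨al, e1, e1', e2⟩ := hloc1 p hp hlt hA
    refine ⟨al, e1, e1', ?_⟩
    rw [← e2]
    exact hbig1 p hp hlt hA
  · intro p hp hlt hA
    obtain ⟨al, e1, e2⟩ := hloc2 p hp hlt hA
    refine ⟨al, e1, ?_⟩
    rw [← e2]
    exact hbig2 p hp hlt hA
  · obtain ⟨Cd, hCd⟩ := hf.dec
    have hlim : Tendsto (fun x : ℝ => Cd * x ^ (4 * (77 / 400 : ℝ) - 1)) atTop (𝓝 (Cd * 0)) := by
      refine Tendsto.const_mul _ ?_
      have := tendsto_rpow_neg_atTop (y := 1 - 4 * (77 / 400 : ℝ)) (by norm_num)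
      refine this.congr fun x => ?_
      congr 1
      ring
    rw [mul_zero] at hlim
    obtain ⟨P1, hP1⟩ := eventually_atTop.1 (hlim.eventually_lt_const (show (0:ℝ) < 1 / 16 by norm_num))
    refine ⟨max P0 P1, fun p hp hlt hA => ?_⟩
    rintro ⟨T, hT⟩
    have h1 := hbig1 p hp (lt_of_le_of_lt (le_max_left _ _) hlt) hA
    have h2 : (R6w (w p) * cubx (w p) (a p) : ℂ[X]) = (1 - C (w p) * X) * T := by
      apply Polynomial.coe_injective
      rw [Polynomial.coe_mul (1 - C (w p) * X) T, ← h1]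
      have hT' : (PowerSeries.mk fun k => f (p ^ k)) * (T : PowerSeries ℂ) = 1 := hT
      calc ((R6w (w p) * cubx (w p) (a p) : ℂ[X]) : PowerSeries ℂ) =
            ((PowerSeries.mk fun k => f (p ^ k)) * (T : PowerSeries ℂ)) *
              ((R6w (w p) * cubx (w p) (a p) : ℂ[X]) : PowerSeries ℂ) := by
            rw [hT', one_mul]
        _ = _ := by ring
    have h3 := congrArg (Polynomial.eval (w p)⁻¹) h2
    rw [eval_mul, eval_mul, R6w_eval hA, one_mul] at h3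
    simp only [eval_sub, eval_one, eval_mul, eval_C, eval_X] at h3
    rw [mul_inv_cancel₀ hA, sub_self, zero_mul] at h3
    have h4 : ‖a p‖ < 1 / 4 := by
      have h5 := hCd p
      have h6 := hP1 p ((le_max_right _ _).trans hlt.le)
      have h7 := norm_nonneg (a p)
      nlinarith
    exact cubx_eval hA (hw p) h4 h3

end Pool.Agent.H616.SP.Q
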