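import Pool.Agent.H616.SQ.Comp

set_option autoImplicit false

/-!
# Non-vanishing, and products with powers of `ζ`
-/

namespace Pool.Agent.H616.SP.Q

open Filter Topology Polynomial Complex
open scoped ArithmeticFunction

section

variable {m n : ℕ} {f : ℕ → ℂ} {al : ℕ → Fin m → ℂ} {be : ℕ → Fin n → ℂ}

/-- the local factor as a sum -/
lemma RP.local_sum (h : RP f al be) {s : ℂ} (hs0 : 0 < s.re) (hs : LSeriesSummable f s) {p : ℕ} (hp : p.Prime) :
    (∏ i, (1 - be p i * (p : ℂ) ^ (-s))) * ∏ j, (1 - al p j * (p : ℂ) ^ (-s))⁻¹ =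
      ∑' k : ℕ, LSeries.term f s (p ^ k) := by
  set x : ℂ := (p : ℂ) ^ (-s) with hx
  have hx1 : ‖x‖ < 1 := by
    rw [hx, Complex.norm_natCast_cpow_of_pos hp.pos]
    apply Real.rpow_lt_one_of_one_lt_of_neg
    · exact_mod_cast hp.one_lt
    · simp; exact hs0
  have hterm : ∀ k : ℕ, LSeries.term f s (p ^ k) = f (p ^ k) * x ^ k := by
    intro k
    rw [LSeries.term_of_ne_zero (pow_ne_zero _ hp.ne_zero), div_eq_mul_inv]
    congr 1
    rw [hx, ← Complex.cpow_nat_mul, ← Complex.cpow_neg]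
    push_cast
    rw [← Complex.cpow_nat_mul' (by simp [Complex.natCast_arg, Real.pi_pos]) (by simp [Complex.natCast_arg, Real.pi_pos.le])]
  have hsum : Summable fun k => ‖f (p ^ k) * x ^ k‖ := by
    have h3 : Summable fun k : ℕ => ‖LSeries.term f s (p ^ k)‖ :=
      hs.norm.comp_injective (Nat.pow_right_injective hp.two_le)
    refine h3.congr fun k => ?_
    rw [hterm]
  have hle := local_eval2 (h.loc p hp) hsum
  have h4 : (∑' k, LSeries.term f s (p ^ k)) = ∑' k, f (p ^ k) * x ^ k := by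
    congr 1; funext k; exact hterm k
  rw [h4, Finset.prod_inv_distrib]
  have h5 : ∀ {q : ℕ} (al : Fin q → ℂ), (∏ j, (1 - C (al j) * X) : ℂ[X]).eval x = ∏ j, (1 - al j * x) := by
    intro q al
    rw [Polynomial.eval_prod]
    simp
  rw [h5, h5] at hle
  have hne : ∏ j, (1 - al p j * x) ≠ 0 := by
    rw [Finset.prod_ne_zero_iff]
    intro j _ h6
    have h7 : al p j * x = 1 := by linear_combination -h6
    have h8 : ‖al p j * x‖ < 1 := by
      rw [norm_mul]
      calc _ ≤ 1 * ‖x‖ := by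
            have := h.ala p j
            gcongr
        _ < 1 := by rw [one_mul]; exact hx1
    rw [h7] at h8
    simp at h8
  rw [← hle, mul_assoc, mul_inv_cancel₀ hne, mul_one]

/-- no zeros in the half plane of absolute convergence -/
theorem RP.ne (h : RP f al be) {s : ℂ} (hs0 : 0 < s.re) (hs : LSeriesSummable f s) : LSeries f s ≠ 0 := by
  have h1 := h.euler hs0 hs
  have hx1 : ∀ p : Nat.Primes, ‖((p : ℕ) : ℂ) ^ (-s)‖ < 1 := by
    intro p
    rw [Complex.norm_natCast_cpow_of_pos p.2.pos]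
    apply Real.rpow_lt_one_of_one_lt_of_neg
    · exact_mod_cast p.2.one_lt
    · simp; linarith
  have hz : ∀ (z : ℂ), ‖z‖ ≤ 1 → ∀ p : Nat.Primes, 1 - z * ((p : ℕ) : ℂ) ^ (-s) ≠ 0 := by
    intro z hz p h
    have h2 : z * ((p : ℕ) : ℂ) ^ (-s) = 1 := by linear_combination -h
    have h3 : ‖z * ((p : ℕ) : ℂ) ^ (-s)‖ < 1 := by
      rw [norm_mul]
      calc _ ≤ 1 * ‖((p : ℕ) : ℂ) ^ (-s)‖ := by gcongr
        _ < 1 := by rw [one_mul]; exact hx1 p
    rw [h2] at h3
    simp at h3
  set Lc : Nat.Primes → ℂ := fun p => (∏ i, (1 - be p i * ((p : ℕ) : ℂ) ^ (-s))) *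
      ∏ j, (1 - al p j * ((p : ℕ) : ℂ) ^ (-s))⁻¹ with hLc
  have hF : ∀ p : Nat.Primes, Lc p ≠ 0 := by
    intro p
    apply mul_ne_zero
    · rw [Finset.prod_ne_zero_iff]
      intro j _
      exact hz _ (h.bea p j) p
    · rw [Finset.prod_ne_zero_iff]
      intro j _
      exact inv_ne_zero (hz _ (h.ala p j) p)
  have hsn := hs.norm
  have hpair : Summable fun x : Nat.Primes × ℕ => ‖LSeries.term f s ((x.1 : ℕ) ^ (x.2 + 1))‖ := by
    apply hsn.comp_injective (i := fun x : Nat.Primes × ℕ => (x.1 : ℕ) ^ (x.2 + 1))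
    intro x y hxy
    simp only at hxy
    have hx := x.1.2
    have hy := y.1.2
    have e1 : (x.1 : ℕ) = y.1 := by
      have a1 := minFac_pow hx (by omega : x.2 + 1 ≠ 0)
      have a2 := minFac_pow hy (by omega : y.2 + 1 ≠ 0)
      rw [← a1, ← a2, hxy]
    have e2 : x.2 + 1 = y.2 + 1 := by
      have a1 := ex_pow hx (by omega : x.2 + 1 ≠ 0)
      have a2 := ex_pow hy (by omega : y.2 + 1 ≠ 0)
      rw [← a1, ← a2, hxy]
    exact Prod.ext (Subtype.ext e1) (by omega)
  have hsum : Summable fun p : Nat.Primes => Lc p - 1 := by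
    have h2 : Summable fun p : Nat.Primes => ∑' k : ℕ, ‖LSeries.term f s ((p : ℕ) ^ (k + 1))‖ := hpair.prod
    refine Summable.of_norm_bounded h2 fun p => ?_
    rw [hLc]
    beta_reduce
    rw [h.local_sum hs0 hs p.2]
    have h3 : Summable fun k : ℕ => LSeries.term f s ((p : ℕ) ^ k) :=
      (hs.norm.comp_injective (Nat.pow_right_injective p.2.two_le)).of_norm
    rw [h3.tsum_eq_zero_add, pow_zero]
    have h4 : LSeries.term f s 1 = 1 := by
      rw [LSeries.term_of_ne_zero one_ne_zero, h.f1]; simp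
    rw [h4, add_sub_cancel_left]
    apply norm_tsum_le_tsum_norm
    exact (summable_nat_add_iff 1).2 h3.norm
  have h4 := Complex.summable_log_one_add_of_summable hsum
  have h5 := Complex.hasProd_of_hasSum_log (f := fun p : Nat.Primes => 1 + (Lc p - 1)) (by
      intro p
      rw [add_sub_cancel]
      exact hF p) h4.hasSum
  simp only [add_sub_cancel] at h5
  rw [h1.unique h5]
  exact Complex.exp_ne_zero _

end

/-! ### powers of `ζ` -/

/-- `ζ` as an arithmetic function with complex values -/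
noncomputable def zt : ArithmeticFunction ℂ := (ArithmeticFunction.zeta : ArithmeticFunction ℂ)

lemma zt_apply {n : ℕ} (hn : n ≠ 0) : zt n = 1 := by
  show ((ArithmeticFunction.zeta : ArithmeticFunction ℂ)) n = 1
  rw [ArithmeticFunction.natCoe_apply, ArithmeticFunction.zeta_apply_ne hn, Nat.cast_one]

lemma zt_mul : zt.IsMultiplicative := ArithmeticFunction.isMultiplicative_zeta.natCast

lemma zt_loc {p : ℕ} (hp : p.Prime) (m : ℕ) :
    PowerSeries.mk (fun k => (zt ^ m) (p ^ k)) * (((1 - X) ^ m : ℂ[X]) : PowerSeries ℂ) = 1 := by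
  induction m with
  | zero =>
    ext k
    rw [pow_zero, pow_zero, Polynomial.coe_one, mul_one, PowerSeries.coeff_mk, PowerSeries.coeff_one,
      ArithmeticFunction.one_apply]
    rcases Nat.eq_zero_or_pos k with rfl | hk
    · simp
    · rw [if_neg (by intro h; exact hk.ne' ((Nat.pow_eq_one.1 h).resolve_left hp.one_lt.ne')), if_neg hk.ne']
  | succ m ih =>
    have h1 : PowerSeries.mk (fun k => zt (p ^ k)) * ((1 - X : ℂ[X]) : PowerSeries ℂ) = 1 := by
      have h2 := mk_pow_mul 1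
      rw [map_one, one_mul] at h2
      have e : (PowerSeries.mk fun k => zt (p ^ k)) = PowerSeries.mk fun k => (1:ℂ) ^ k := by
        ext k
        rw [PowerSeries.coeff_mk, PowerSeries.coeff_mk, one_pow, zt_apply (pow_ne_zero _ hp.ne_zero)]
      rw [e]
      exact h2
    rw [pow_succ, pow_succ, mk_mul _ _ hp, Polynomial.coe_mul, mul_mul_mul_comm, ih, h1, one_mul]

lemma zt_pow_mul (m : ℕ) : (zt ^ m).IsMultiplicative := by
  induction m with
  | zero => rw [pow_zero]; exact ArithmeticFunction.isMultiplicative_one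
  | succ m ih => rw [pow_succ]; exact ih.mul zt_mul

lemma zt_series {g : ArithmeticFunction ℂ} {s : ℂ} (hs : 1 < s.re) (hg : LSeriesSummable (fun n => g n) s) (m : ℕ) :
    LSeriesSummable (fun n => (zt ^ m * g) n) s ∧
      LSeries (fun n => (zt ^ m * g) n) s = riemannZeta s ^ m * LSeries (fun n => g n) s := by
  induction m with
  | zero =>
    rw [pow_zero, pow_zero, one_mul, one_mul]
    exact ⟨hg, rfl⟩
  | succ m ih =>
    obtain ⟨h1, h2⟩ := ih
    have h3 : LSeriesSummable (fun n => zt n) s := ArithmeticFunction.LSeriesSummable_zeta_iff.2 hs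
    have e : zt ^ (m + 1) * g = zt * (zt ^ m * g) := by rw [pow_succ']; ring
    rw [e]
    refine ⟨ArithmeticFunction.LSeriesSummable_mul h3 h1, ?_⟩
    rw [ArithmeticFunction.LSeries_mul' h3 h1, h2]
    have h4 : LSeries (fun n => zt n) s = riemannZeta s := ArithmeticFunction.LSeries_zeta_eq_riemannZeta hs
    rw [h4]
    ring

/-- product with a power of `ζ` -/
lemma RP.zeta_mul {m n : ℕ} {f : ℕ → ℂ} {al : ℕ → Fin m → ℂ} {be : ℕ → Fin n → ℂ} (h : RP f al be) (t : ℕ) :
    RP (fun n => (zt ^ t * af f h.f0) n) (fun p => Fin.append (fun _ : Fin t => (1:ℂ)) (al p)) be := by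
  refine ⟨by simp, ?_, fun x y hc => ?_, fun p j => ?_, h.bea, fun p hp => ?_⟩
  · show (zt ^ t * af f h.f0) 1 = 1
    exact ((zt_pow_mul t).mul h.isMul).map_one
  · exact ((zt_pow_mul t).mul h.isMul).map_mul_of_coprime hc
  · refine Fin.addCases (fun i => ?_) (fun i => ?_) j
    · rw [Fin.append_left]; simp
    · rw [Fin.append_right]; exact h.ala p i
  · rw [mk_mul _ _ hp, Fin.prod_univ_add]
    simp only [Fin.append_left, Fin.append_right]
    rw [Finset.prod_const, Finset.card_univ, Fintype.card_fin, map_one, one_mul, Polynomial.coe_mul, mul_mul_mul_comm,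
      zt_loc hp, one_mul]
    exact h.loc p hp

lemma Loc_const {c : ℂ → ℕ → ℂ} {A : ℝ} (h : SP.Loc c A) : Loc (fun _ => c) A :=
  ⟨h.one_le, fun _ => h.zero, fun _ => h.one, fun _ => h.two, fun _ => h.bd, fun _ => h.lip⟩

/-- members of the families with an inverse polynomial as local factor -/
lemma LF.rp {P : ℂ → ℂ[X]} {M : ℝ} (hP : PF P M) {m : ℕ} {N : ℂ → Prop} (hN : ∀ z, N z → ‖z‖ ≤ 1)
    (hroots : ∀ a : ℂ, ‖a‖ ≤ 1 → ∃ al : Fin m → ℂ, (∀ j, N (al j)) ∧
      P a = ∏ j, (1 - Polynomial.C (al j) * Polynomial.X)) {f a : ℕ → ℂ} {P0 : ℝ} (h : LF (fun _ => cof P) f a P0) :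
    ∃ al : ℕ → Fin m → ℂ, RP f al (fun _ => (Fin.elim0 : Fin 0 → ℂ)) ∧ (∀ p : ℕ, p.Prime → P0 < p → ∀ j, N (al p j)) ∧
      ∀ p : ℕ, p.Prime → (p : ℝ) ≤ P0 → ∀ j, al p j = 0 := by
  classical
  choose! R hR1 hR2 using hroots
  refine ⟨fun p => if P0 < p then R (a p) else 0, ⟨h.f0, h.f1, h.mul, fun p j => ?_, fun p j => j.elim0, fun p hp => ?_⟩,
    fun p hp hlt j => ?_, fun p hp hle j => ?_⟩
  · beta_reduce
    split_ifs
    · exact hN _ (hR1 (a p) (h.abd p) j)
    · simp
  · beta_reduce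
    rw [Finset.univ_eq_empty (α := Fin 0), Finset.prod_empty, Polynomial.coe_one]
    split_ifs with hb
    · have e1 : (PowerSeries.mk fun k => f (p ^ k)) = PowerSeries.mk (cof P (a p)) := by
        ext k
        rw [PowerSeries.coeff_mk, PowerSeries.coeff_mk, h.big p hp hb]
      rw [e1, ← hR2 (a p) (h.abd p)]
      exact cof_mul (hP.c0 _)
    · have e1 : (PowerSeries.mk fun k => f (p ^ k)) = 1 := by
        ext k
        rw [PowerSeries.coeff_mk, PowerSeries.coeff_one]
        rcases Nat.eq_zero_or_pos k with rfl | hk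
        · rw [pow_zero, h.f1, if_pos rfl]
        · rw [h.small p hp (not_lt.1 hb) k hk.ne', if_neg hk.ne']
      rw [e1]
      simp
  · beta_reduce
    rw [if_pos hlt]
    exact hR1 (a p) (h.abd p) j
  · beta_reduce
    rw [if_neg (not_lt.2 hle)]
    rfl

end Pool.Agent.H616.SP.Q
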